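import Pool.Agent.W_MP_7f6900_al.Finite

open MvPolynomial

namespace MP7f

variable {K : Type*} [Field K]

section proj

variable {V : Type*} [AddCommGroup V] [Module K V] (ρ : Representation K (Equiv.Perm ℕ) V)

/-- Maschke projections -/
theorem exists_equivariant_proj [CharZero K] (n : ℕ) (W : Submodule K V)
    (hW : ∀ σ ∈ Gfin 0 n, ∀ w ∈ W, ρ σ w ∈ W) :
    ∃ P : V →ₗ[K] V, (∀ v, P v ∈ W) ∧ (∀ w ∈ W, P w = w) ∧
      ∀ σ ∈ Gfin 0 n, ∀ v, P (ρ σ v) = ρ σ (P v) := by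
  obtain ⟨g, hg⟩ := LinearMap.exists_leftInverse_of_injective W.subtype
    (LinearMap.ker_eq_bot.2 W.injective_subtype)
  have hg' : ∀ w (hw : w ∈ W), (g w : V) = w := by
    intro w hw
    have := LinearMap.congr_fun hg ⟨w, hw⟩
    simp only [LinearMap.comp_apply, Submodule.subtype_apply, LinearMap.id_apply] at this
    rw [this]
  let P0 : V →ₗ[K] V := W.subtype ∘ₗ g
  have hP0 : ∀ v, P0 v ∈ W := fun v => (g v).2
  have hP0' : ∀ w ∈ W, P0 w = w := fun w hw => hg' w hw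
  let S : V →ₗ[K] V := ∑ s ∈ Gfin 0 n, ρ s ∘ₗ P0 ∘ₗ ρ s⁻¹
  have hS : ∀ v, S v = ∑ s ∈ Gfin 0 n, ρ s (P0 (ρ s⁻¹ v)) := by
    intro v
    simp [S]
  refine ⟨((Gfin 0 n).card : K)⁻¹ • S, ?_, ?_, ?_⟩
  · intro v
    rw [LinearMap.smul_apply, hS]
    exact W.smul_mem _ (W.sum_mem fun s hs => hW s hs _ (hP0 _))
  · intro w hw
    have : ∀ s ∈ Gfin 0 n, ρ s (P0 (ρ s⁻¹ w)) = w := by
      intro s hs
      rw [hP0' _ (hW _ (Gfin_inv hs) w hw), Representation.self_inv_apply]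
    rw [LinearMap.smul_apply, hS, Finset.sum_congr rfl this, Finset.sum_const,
      ← Nat.cast_smul_eq_nsmul K, smul_smul, inv_mul_cancel₀ (card_ne_zero' 0 n), one_smul]
  · intro σ hσ v
    rw [LinearMap.smul_apply, LinearMap.smul_apply, map_smul, hS, hS, map_sum]
    congr 1
    refine Finset.sum_bij (fun s _ => σ⁻¹ * s) (fun s hs => Gfin_mul (Gfin_inv hσ) hs)
      (fun a _ b _ h => mul_left_cancel h) (fun b hb => ⟨σ * b, Gfin_mul hσ hb, by simp⟩) ?_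
    intro s hs
    have h1 : ρ s = ρ σ * ρ (σ⁻¹ * s) := by rw [← map_mul]; simp
    have h2 : ρ s⁻¹ (ρ σ v) = ρ (σ⁻¹ * s)⁻¹ v := by
      have : ρ (σ⁻¹ * s)⁻¹ = ρ s⁻¹ * ρ σ := by rw [← map_mul]; simp
      rw [this]; rfl
    rw [h2, h1]; rfl

end proj

section T3

variable (I J : Ideal (MvPolynomial ℕ K)) (hI : PermInv I) (hJ : PermInv J) (hIJ : I ≤ J)

/-- the operator `EE ∘ Th` -/
noncomputable def cc {V : Type*} [AddCommGroup V] [Module K V] {ι : Type*} [Fintype ι]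
    (ρ : Representation K (Equiv.Perm ℕ) V) (m n : ℕ) (a : ι → K)
    (τ : ι → Equiv.Perm ℕ) : V →ₗ[K] V := EE ρ m n ∘ₗ Th ρ a τ

theorem cc_apply {V : Type*} [AddCommGroup V] [Module K V] {ι : Type*} [Fintype ι]
    (ρ : Representation K (Equiv.Perm ℕ) V) (m n : ℕ) (a : ι → K)
    (τ : ι → Equiv.Perm ℕ) (v : V) :
    cc ρ m n a τ v = ∑ g ∈ Gfin m n, ρ g (∑ i, a i • ρ (τ i) v) := by
  rw [cc, LinearMap.comp_apply, EE_apply, Th_apply]

/-- operators commute with equivariant maps -/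
theorem cc_natural {V V' : Type*} [AddCommGroup V] [Module K V] [AddCommGroup V'] [Module K V']
    {ι : Type*} [Fintype ι] (ρ : Representation K (Equiv.Perm ℕ) V)
    (ρ' : Representation K (Equiv.Perm ℕ) V') (m n : ℕ) (a : ι → K)
    (τ : ι → Equiv.Perm ℕ) (hτ : ∀ i k, n ≤ k → τ i k = k) (f : V →ₗ[K] V')
    (hf : ∀ σ ∈ Gfin 0 n, ∀ v, f (ρ σ v) = ρ' σ (f v)) (v : V) :
    f (cc ρ m n a τ v) = cc ρ' m n a τ (f v) := by
  have hGG : ∀ g ∈ Gfin m n, g ∈ Gfin 0 n := fun g hg => by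
    rw [mem_Gfin] at *
    exact ⟨fun j hj => by omega, hg.2⟩
  have hτG : ∀ i, τ i ∈ Gfin 0 n := fun i => by
    rw [mem_Gfin]
    exact ⟨fun j hj => by omega, hτ i⟩
  rw [cc_apply, cc_apply, map_sum]
  refine Finset.sum_congr rfl fun g hg => ?_
  rw [hf g (hGG g hg), map_sum]
  congr 1
  refine Finset.sum_congr rfl fun i _ => ?_
  rw [map_smul, hf _ (hτG i)]

theorem cc_stable {V : Type*} [AddCommGroup V] [Module K V]
    {ι : Type*} [Fintype ι] (ρ : Representation K (Equiv.Perm ℕ) V) (m n : ℕ) (a : ι → K)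
    (τ : ι → Equiv.Perm ℕ) (hτ : ∀ i k, n ≤ k → τ i k = k) (W : Submodule K V)
    (hW : ∀ σ ∈ Gfin 0 n, ∀ w ∈ W, ρ σ w ∈ W) {v : V} (hv : v ∈ W) : cc ρ m n a τ v ∈ W := by
  have hGG : ∀ g ∈ Gfin m n, g ∈ Gfin 0 n := fun g hg => by
    rw [mem_Gfin] at *
    exact ⟨fun j hj => by omega, hg.2⟩
  have hτG : ∀ i, τ i ∈ Gfin 0 n := fun i => by
    rw [mem_Gfin]
    exact ⟨fun j hj => by omega, hτ i⟩
  rw [cc_apply]
  exact W.sum_mem fun g hg => hW g (hGG g hg) _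
    (W.sum_mem fun i _ => W.smul_mem _ (hW _ (hτG i) _ hv))

/-- the quotient map `A/I → A/J` -/
noncomputable def qq (hIJ : I ≤ J) :
    (MvPolynomial ℕ K ⧸ I) →ₗ[K] (MvPolynomial ℕ K ⧸ J) :=
  (Ideal.Quotient.factorₐ K hIJ).toLinearMap

theorem qq_mk (f : MvPolynomial ℕ K) :
    qq I J hIJ (Ideal.Quotient.mk I f) = Ideal.Quotient.mk J f := rfl

/-- the rank function -/
noncomputable def FF {ι : Type*} [Fintype ι] (m : ℕ) (a : ι → K) (τ : ι → Equiv.Perm ℕ)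
    (n d : ℕ) : ℕ :=
  Module.finrank K (((An K n d).map (qm I)).map (cc (ρQ I hI) m n a τ))

include hIJ in
theorem FF_add [CharZero K] {ι : Type*} [Fintype ι] (m : ℕ) (a : ι → K) (τ : ι → Equiv.Perm ℕ)
    (n d : ℕ) (hτ : ∀ i k, n ≤ k → τ i k = k) :
    FF I hI m a τ n d = FF J hJ m a τ n d +
      Module.finrank K ((Nnd I J n d).map (cc (ρN I J hI hJ) m n a τ)) := by
  classical
  set W := (An K n d).map (qm I) with hW
  have hWst : ∀ σ ∈ Gfin 0 n, ∀ w ∈ W, ρQ I hI σ w ∈ W := by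
    rintro σ hσ _ ⟨f, hf, rfl⟩
    rw [qm_apply, ρQ_mk]
    exact ⟨_, An_ρ (mem_Gfin.1 hσ).2 hf, rfl⟩
  have hN : ∀ y ∈ Nnd I J n d, incl I J y ∈ W := by
    intro y hy
    obtain ⟨f, _, hfd, hx⟩ := (mem_Nnd I J).1 hy
    exact ⟨f, hfd, hx⟩
  have hqI : ∀ y : NN I J, qq I J hIJ (incl I J y) = 0 := by
    intro y
    obtain ⟨f, hf, hx⟩ := mem_NN.1 y.2
    change qq I J hIJ (y : MvPolynomial ℕ K ⧸ I) = 0
    rw [← hx, qq_mk, Ideal.Quotient.eq_zero_iff_mem]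
    exact hf
  have hqN : ∀ x ∈ W, qq I J hIJ x = 0 → ∃ y ∈ Nnd I J n d, incl I J y = x := by
    rintro _ ⟨f, hf, rfl⟩ h0
    rw [qm_apply, qq_mk, Ideal.Quotient.eq_zero_iff_mem] at h0
    exact ⟨⟨Ideal.Quotient.mk I f, mem_NN.2 ⟨f, h0, rfl⟩⟩, (mem_Nnd I J).2 ⟨f, h0, hf, rfl⟩, rfl⟩
  have hqnat : ∀ x, qq I J hIJ (cc (ρQ I hI) m n a τ x) = cc (ρQ J hJ) m n a τ (qq I J hIJ x) := by
    intro x
    refine cc_natural _ _ m n a τ hτ (qq I J hIJ) ?_ x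
    intro σ _ v
    obtain ⟨f, rfl⟩ := Ideal.Quotient.mk_surjective v
    rw [ρQ_mk, qq_mk, qq_mk, ρQ_mk]
  have hinat : ∀ y, incl I J (cc (ρN I J hI hJ) m n a τ y) =
      cc (ρQ I hI) m n a τ (incl I J y) := fun y =>
    cc_natural _ _ m n a τ hτ (incl I J) (fun σ _ v => rfl) y
  -- rank-nullity
  set X := W.map (cc (ρQ I hI) m n a τ) with hX
  have hfdX : FiniteDimensional K X := by
    have := An_fd (K := K) n d
    infer_instance
  have h1 : X.map (qq I J hIJ) = ((An K n d).map (qm J)).map (cc (ρQ J hJ) m n a τ) := by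
    apply le_antisymm
    · rintro _ ⟨_, ⟨_, ⟨f, hf, rfl⟩, rfl⟩, rfl⟩
      rw [hqnat]
      exact ⟨_, ⟨f, hf, rfl⟩, rfl⟩
    · rintro _ ⟨_, ⟨f, hf, rfl⟩, rfl⟩
      refine ⟨_, ⟨_, ⟨f, hf, rfl⟩, rfl⟩, ?_⟩
      rw [hqnat]; rfl
  have h2 : X ⊓ LinearMap.ker (qq I J hIJ) =
      ((Nnd I J n d).map (cc (ρN I J hI hJ) m n a τ)).map (incl I J) := by
    apply le_antisymm
    · rintro _ ⟨⟨w, hw, rfl⟩, h0⟩
      obtain ⟨P, hP1, hP2, hP3⟩ := exists_equivariant_proj (ρQ I hI) n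
        ((Nnd I J n d).map (incl I J)) (by
          rintro σ hσ _ ⟨y, hy, rfl⟩
          exact ⟨_, Nnd_ρ I J hI hJ (mem_Gfin.1 hσ).2 hy, rfl⟩)
      have hcw : cc (ρQ I hI) m n a τ w ∈ W := cc_stable _ m n a τ hτ W hWst hw
      have h3 : cc (ρQ I hI) m n a τ w ∈ (Nnd I J n d).map (incl I J) := hqN _ hcw h0
      have h4 := cc_natural _ _ m n a τ hτ P hP3 w
      rw [hP2 _ h3] at h4
      obtain ⟨y, hy, hyw⟩ := hP1 w
      rw [h4, ← hyw, ← hinat]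
      exact ⟨_, ⟨y, hy, rfl⟩, rfl⟩
    · rintro _ ⟨_, ⟨y, hy, rfl⟩, rfl⟩
      refine ⟨?_, ?_⟩
      · rw [hinat]
        exact ⟨_, hN y hy, rfl⟩
      · exact hqI _
  have h3 := LinearMap.finrank_range_add_finrank_ker ((qq I J hIJ).domRestrict X)
  rw [LinearMap.range_domRestrict, h1] at h3
  have h4 : Module.finrank K (LinearMap.ker ((qq I J hIJ).domRestrict X)) =
      Module.finrank K ((Nnd I J n d).map (cc (ρN I J hI hJ) m n a τ)) := by
    have h5 : (LinearMap.ker ((qq I J hIJ).domRestrict X)).map X.subtype =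
        X ⊓ LinearMap.ker (qq I J hIJ) := by
      ext x
      constructor
      · rintro ⟨⟨y, hy⟩, h6, rfl⟩
        exact ⟨hy, h6⟩
      · rintro ⟨h6, h7⟩
        exact ⟨⟨x, h6⟩, h7, rfl⟩
    rw [← LinearEquiv.finrank_eq (Submodule.equivMapOfInjective X.subtype
      X.injective_subtype (LinearMap.ker ((qq I J hIJ).domRestrict X))).symm, h5, h2]
    exact (LinearEquiv.finrank_eq (Submodule.equivMapOfInjective (incl I J) (incl_inj I J)
      ((Nnd I J n d).map (cc (ρN I J hI hJ) m n a τ)))).symm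
  rw [h4] at h3
  unfold FF
  rw [h3]

end T3

/-- **Rationality for all nonzero symmetric homogeneous ideals.** -/
theorem rational_FF [CharZero K] {ι : Type*} [Fintype ι] (m : ℕ) (a : ι → K)
    (τ : ι → Equiv.Perm ℕ) (R : ℕ) (hR : ∀ i k, R ≤ k → τ i k = k)
    (I : Ideal (MvPolynomial ℕ K)) (hI : PermInv I) (hhom : Homog I) (h0 : I ≠ ⊥) :
    ∃ H : PowerSeries ℚ, IsRat H ∧ ∀ d, ∃ n₀, ∀ n, n₀ ≤ n →
      (FF I hI m a τ n d : ℚ) = PowerSeries.coeff d H := by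
  classical
  have key := sym_induction (K := K) (fun I => I ≠ ⊥ → ∀ hI : PermInv I,
    ∃ H : PowerSeries ℚ, IsRat H ∧ ∀ d, ∃ n₀, ∀ n, n₀ ≤ n →
      (FF I hI m a τ n d : ℚ) = PowerSeries.coeff d H) ?_ I hI hhom h0 hI
  · exact key
  intro I hI hhom ih h0 hI
  by_cases h1 : I = ⊤
  · refine ⟨0, isRat_zero, fun d => ⟨0, fun n _ => ?_⟩⟩
    have : Subsingleton (MvPolynomial ℕ K ⧸ I) := by
      rw [h1]; infer_instance
    rw [map_zero, Nat.cast_eq_zero, FF]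
    have h2 : ((An K n d).map (qm I)).map (cc (ρQ I hI) m n a τ) = ⊥ := by
      rw [Submodule.eq_bot_iff]
      intro x _
      exact Subsingleton.elim _ _
    rw [h2, finrank_bot]
  · obtain ⟨D, hmin, hw⟩ := exists_step I hI hhom h0 h1
    have hlt := lt_Jn hw
    have hJ := Jn_perm hI D
    obtain ⟨H, hH, hHd⟩ := ih (Jn I D) hlt hJ (Jn_homog hhom D) (by
      rintro h2
      rw [h2] at hlt
      exact not_lt_bot hlt) hJ
    obtain ⟨hfd, hrat⟩ := rational_step I hI hhom hmin m a τ R hR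
    refine ⟨H + _, hH.add hrat, fun d => ?_⟩
    obtain ⟨n₁, hn₁⟩ := hHd d
    obtain ⟨n₂, hn₂⟩ := finite_level I (Jn I D) hI hJ m a τ R hR d (hfd d)
    refine ⟨max (max n₁ n₂) R, fun n hn => ?_⟩
    have e1 := hn₁ n ((le_max_left _ _).trans ((le_max_left _ _).trans hn))
    have e2 := hn₂ n ((le_max_right _ _).trans ((le_max_left _ _).trans hn))
    have e3 := FF_add I (Jn I D) hI hJ hlt.le m a τ n d
      (fun i k hk => hR i k ((le_max_right _ _).trans (hn.trans hk)))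
    rw [e3, map_add, ← e1, PowerSeries.coeff_mk, ← e2]
    push_cast
    rfl

end MP7f
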