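import Mathlib

open MvPolynomial

namespace MP7f

/-- colexicographic monomial order on `ℕ →₀ ℕ`: `x_0 < x_1 < ...`. -/
noncomputable def colex : MonomialOrder ℕ where
  syn := Lex (ℕᵒᵈ →₀ ℕ)
  toSyn := (Finsupp.domCongr (M := ℕ) (OrderDual.toDual (α := ℕ))).trans
    { toEquiv := toLex
      map_add' := toLex_add }
  toSyn_monotone := by
    intro a b h
    apply Finsupp.toLex_monotone
    intro i
    simp only [AddEquiv.toEquiv_eq_coe]
    exact h _

theorem colex_lt_iff {c d : ℕ →₀ ℕ} :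
    colex.toSyn c < colex.toSyn d ↔ ∃ i, (∀ j, i < j → c j = d j) ∧ c i < d i := by
  constructor
  · intro h
    obtain ⟨i, h1, h2⟩ := Finsupp.Lex.lt_iff.1 h
    exact ⟨OrderDual.ofDual i, fun j hj => h1 (OrderDual.toDual j) hj, h2⟩
  · rintro ⟨i, h1, h2⟩
    exact Finsupp.Lex.lt_iff.2 ⟨OrderDual.toDual i, fun j hj => h1 (OrderDual.ofDual j) hj, h2⟩

theorem colex_map_lt {τ : ℕ → ℕ} (hτ : StrictMono τ) {c d : ℕ →₀ ℕ}
    (h : colex.toSyn c < colex.toSyn d) :
    colex.toSyn (c.mapDomain τ) < colex.toSyn (d.mapDomain τ) := by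
  rw [colex_lt_iff] at h ⊢
  obtain ⟨i, h1, h2⟩ := h
  refine ⟨τ i, ?_, ?_⟩
  · intro j hj
    by_cases hr : j ∈ Set.range τ
    · obtain ⟨l, rfl⟩ := hr
      rw [Finsupp.mapDomain_apply hτ.injective, Finsupp.mapDomain_apply hτ.injective]
      exact h1 l (hτ.lt_iff_lt.1 hj)
    · rw [Finsupp.mapDomain_of_notMem_range _ _ hr, Finsupp.mapDomain_of_notMem_range _ _ hr]
  · rwa [Finsupp.mapDomain_apply hτ.injective, Finsupp.mapDomain_apply hτ.injective]

theorem colex_map_le {τ : ℕ → ℕ} (hτ : StrictMono τ) {c d : ℕ →₀ ℕ}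
    (h : colex.toSyn c ≤ colex.toSyn d) :
    colex.toSyn (c.mapDomain τ) ≤ colex.toSyn (d.mapDomain τ) := by
  rcases h.lt_or_eq with h | h
  · exact (colex_map_lt hτ h).le
  · rw [colex.toSyn.injective h]

variable {K : Type*} [Field K]

theorem degree_rename {τ : ℕ → ℕ} (hτ : StrictMono τ) (f : MvPolynomial ℕ K) :
    colex.degree (rename τ f) = (colex.degree f).mapDomain τ := by
  by_cases hf : f = 0
  · subst hf; simp
  apply colex.toSyn.injective
  apply le_antisymm
  · rw [MonomialOrder.degree_le_iff]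
    intro b hb
    obtain ⟨c, rfl⟩ : ∃ c, Finsupp.mapDomain τ c = b := by
      have := coeff_rename_ne_zero τ f b (mem_support_iff.1 hb)
      obtain ⟨c, hc, _⟩ := this
      exact ⟨c, hc⟩
    apply colex_map_le hτ
    apply MonomialOrder.le_degree
    rw [mem_support_iff] at hb ⊢
    rwa [coeff_rename_mapDomain τ hτ.injective] at hb
  · apply MonomialOrder.le_degree
    rw [mem_support_iff, coeff_rename_mapDomain τ hτ.injective]
    exact MonomialOrder.coeff_degree_ne_zero_iff.2 hf

theorem leadingCoeff_rename {τ : ℕ → ℕ} (hτ : StrictMono τ) (f : MvPolynomial ℕ K) :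
    colex.leadingCoeff (rename τ f) = colex.leadingCoeff f := by
  rw [MonomialOrder.leadingCoeff, MonomialOrder.leadingCoeff, degree_rename hτ,
    coeff_rename_mapDomain τ hτ.injective]

/-- encoding exponent vectors as lists -/
noncomputable def enc (a : ℕ →₀ ℕ) : List ℕ := (List.range (a.support.sup id + 1)).map a

theorem enc_getElem? (a : ℕ →₀ ℕ) (i : ℕ) (hi : a i ≠ 0) : (enc a)[i]? = some (a i) := by
  have h1 : i ≤ a.support.sup id := by
    have := Finset.le_sup (f := id) (Finsupp.mem_support_iff.2 hi)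
    exact this
  simp [enc, Nat.lt_succ_of_le h1]

theorem enc_getElem?' (a : ℕ →₀ ℕ) (i : ℕ) (x : ℕ) (hx : (enc a)[i]? = some x) : x = a i := by
  simp only [enc, List.getElem?_map, Option.map_eq_some_iff] at hx
  obtain ⟨y, hy, rfl⟩ := hx
  have : i = y := by
    rw [List.getElem?_range] at hy
    · simpa using hy
    · by_contra hlt
      rw [List.getElem?_eq_none (by simpa using Nat.le_of_not_lt hlt)] at hy
      exact absurd hy (by simp)
  rw [this]

theorem exists_strictMono_of_sublist {a b : ℕ →₀ ℕ}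
    (h : List.SublistForall₂ (· ≤ ·) (enc a) (enc b)) :
    ∃ τ : ℕ → ℕ, StrictMono τ ∧ a.mapDomain τ ≤ b := by
  rw [List.sublistForall₂_iff] at h
  obtain ⟨l, h1, h2⟩ := h
  rw [List.sublist_iff_exists_orderEmbedding_getElem?_eq] at h2
  obtain ⟨f, hf⟩ := h2
  refine ⟨f, f.strictMono, ?_⟩
  intro j
  by_cases hr : j ∈ Set.range f
  · obtain ⟨i, rfl⟩ := hr
    rw [Finsupp.mapDomain_apply f.injective]
    by_cases hi : a i = 0
    · rw [hi]; exact Nat.zero_le _
    · have h3 := enc_getElem? a i hi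
      rw [List.forall₂_iff_get] at h1
      obtain ⟨hlen, h1⟩ := h1
      obtain ⟨hlt, h4⟩ := List.getElem?_eq_some_iff.1 h3
      have h5 := h1 i hlt (hlen ▸ hlt)
      have h6 : l[i]? = some (l.get ⟨i, hlen ▸ hlt⟩) := by simp
      rw [hf] at h6
      have h7 := enc_getElem?' b _ _ h6
      rw [← h7]
      have h8 : (enc a).get ⟨i, hlt⟩ = a i := by rw [← h4]; rfl
      rw [← h8]; exact h5
  · rw [Finsupp.mapDomain_of_notMem_range _ _ hr]; exact Nat.zero_le _

theorem higman_seq (a : ℕ → (ℕ →₀ ℕ)) :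
    ∃ i j, i < j ∧ ∃ τ : ℕ → ℕ, StrictMono τ ∧ (a i).mapDomain τ ≤ a j := by
  have h0 : (Set.univ : Set ℕ).PartiallyWellOrderedOn (· ≤ ·) := by
    exact Set.isPWO_of_wellQuasiOrderedLE _
  have h1 := Set.PartiallyWellOrderedOn.partiallyWellOrderedOn_sublistForall₂
    (r := fun a b : ℕ => a ≤ b) h0
  obtain ⟨i, j, hij, h⟩ := h1 (fun n => ⟨enc (a n), fun _ _ => trivial⟩)
  exact ⟨i, j, hij, exists_strictMono_of_sublist h⟩

/-- invariance under strictly increasing substitutions -/
def IncInv (I : Ideal (MvPolynomial ℕ K)) : Prop :=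
  ∀ τ : ℕ → ℕ, StrictMono τ → ∀ f ∈ I, rename τ f ∈ I

/-- **Cohen's theorem**: ACC for ideals invariant under increasing substitutions. -/
theorem cohen (I : ℕ → Ideal (MvPolynomial ℕ K)) (hI : ∀ k, IncInv (I k)) :
    ¬ StrictMono I := by
  intro hmono
  classical
  have hex : ∀ k, ∃ f, f ∈ I (k + 1) ∧ f ∉ I k := fun k =>
    SetLike.exists_of_lt (hmono (Nat.lt_succ_self k))
  -- minimal choice
  have hmin : ∀ k, ∃ f, (f ∈ I (k + 1) ∧ f ∉ I k) ∧ ∀ g, g ∈ I (k + 1) → g ∉ I k →
      ¬ colex.toSyn (colex.degree g) < colex.toSyn (colex.degree f) := by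
    intro k
    let S : Set colex.syn := {s | ∃ f, (f ∈ I (k + 1) ∧ f ∉ I k) ∧ s = colex.toSyn (colex.degree f)}
    have hS : S.Nonempty := by
      obtain ⟨f, hf⟩ := hex k
      exact ⟨_, f, hf, rfl⟩
    obtain ⟨f, hf, hfs⟩ := (wellFounded_lt (α := colex.syn)).min_mem S hS
    refine ⟨f, hf, fun g hg1 hg2 hlt => ?_⟩
    rw [← hfs] at hlt
    exact (wellFounded_lt (α := colex.syn)).not_lt_min S ⟨g, ⟨hg1, hg2⟩, rfl⟩ hlt
  choose f hf hfmin using hmin
  obtain ⟨i, j, hij, τ, hτ, hle⟩ := higman_seq fun k => colex.degree (f k)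
  -- cancel
  have hfi : f i ≠ 0 := fun h => (hf i).2 (h ▸ (I i).zero_mem)
  have hfj : f j ≠ 0 := fun h => (hf j).2 (h ▸ (I j).zero_mem)
  have hr0 : rename τ (f i) ≠ 0 := by
    intro h
    exact hfi (rename_injective τ hτ.injective (by rw [h, map_zero]))
  set c : K := colex.leadingCoeff (f j) / colex.leadingCoeff (f i) with hc
  have hlci : colex.leadingCoeff (f i) ≠ 0 := MonomialOrder.leadingCoeff_ne_zero_iff.2 hfi
  have hlcj : colex.leadingCoeff (f j) ≠ 0 := MonomialOrder.leadingCoeff_ne_zero_iff.2 hfj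
  have hc0 : c ≠ 0 := div_ne_zero hlcj hlci
  set γ : ℕ →₀ ℕ := colex.degree (f j) - (colex.degree (f i)).mapDomain τ with hγ
  have hγ' : γ + (colex.degree (f i)).mapDomain τ = colex.degree (f j) := tsub_add_cancel_of_le hle
  set h := monomial γ c * rename τ (f i) with hh
  have hmem : h ∈ I j := by
    apply Ideal.mul_mem_left
    apply hI j τ hτ
    exact hmono.monotone hij (hf i).1
  have hm0 : monomial γ c ≠ 0 := by simpa [monomial_eq_zero] using hc0
  have hdeg : colex.degree h = colex.degree (f j) := by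
    rw [hh, MonomialOrder.degree_mul hm0 hr0, degree_rename hτ, MonomialOrder.degree_monomial,
      if_neg hc0, hγ']
  have hlc : colex.leadingCoeff h = colex.leadingCoeff (f j) := by
    rw [hh, MonomialOrder.leadingCoeff_mul, leadingCoeff_rename hτ,
      MonomialOrder.leadingCoeff_monomial, hc, div_mul_cancel₀ _ hlci]
  have hg1 : f j - h ∈ I (j + 1) :=
    (I (j + 1)).sub_mem (hf j).1 (hmono.monotone (Nat.le_succ j) hmem)
  have hg2 : f j - h ∉ I j := fun hcon => (hf j).2 (by
    have := (I j).add_mem hcon hmem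
    simpa using this)
  have hg0 : f j - h ≠ 0 := fun hcon => hg2 (hcon ▸ (I j).zero_mem)
  refine hfmin j (f j - h) hg1 hg2 ?_
  -- degree drops
  have hle' : colex.toSyn (colex.degree (f j - h)) ≤ colex.toSyn (colex.degree (f j)) := by
    have := MonomialOrder.degree_sub_le (m := colex) (f := f j) (g := h)
    rwa [hdeg, sup_idem] at this
  refine lt_of_le_of_ne hle' fun heq => ?_
  have hdeq : colex.degree (f j - h) = colex.degree (f j) := colex.toSyn.injective heq
  have hlast : colex.leadingCoeff (f j - h) = 0 := by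
    rw [MonomialOrder.leadingCoeff, hdeq, coeff_sub]
    have e1 : coeff (colex.degree (f j)) h = colex.leadingCoeff h := by
      rw [MonomialOrder.leadingCoeff, hdeg]
    rw [e1, hlc, MonomialOrder.leadingCoeff, sub_self]
  exact hg0 (MonomialOrder.leadingCoeff_eq_zero_iff.1 hlast)

end MP7f
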