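import Mathlib

namespace MP7f

/-- partial injections of finite sets extend to finitary permutations -/
theorem extend_perm (n : ℕ) (S : Finset ℕ) (τ : ℕ → ℕ) (hτ : Set.InjOn τ S)
    (hS : ∀ j ∈ S, j < n ∧ τ j < n) :
    ∃ σ : Equiv.Perm ℕ, (∀ j ∈ S, σ j = τ j) ∧ ∀ j, n ≤ j → σ j = j := by
  classical
  induction S using Finset.induction_on with
  | empty => exact ⟨1, by simp, by simp⟩
  | insert a S ha ih =>
    obtain ⟨σ, h1, h2⟩ := ih (hτ.mono (by simp)) fun j hj => hS j (Finset.mem_insert_of_mem hj)
    have haS := hS a (Finset.mem_insert_self _ _)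
    have hσa : σ a < n := by
      by_contra hcon
      have h3 := h2 (σ a) (not_lt.1 hcon)
      have h4 := σ.injective h3
      omega
    refine ⟨Equiv.swap (σ a) (τ a) * σ, ?_, ?_⟩
    · intro j hj
      rcases Finset.mem_insert.1 hj with rfl | hj'
      · simp
      · have hja : j ≠ a := fun h => ha (h ▸ hj')
        rw [Equiv.Perm.mul_apply, Equiv.swap_apply_of_ne_of_ne, h1 j hj']
        · exact fun h => hja (σ.injective h)
        · rw [h1 j hj']
          exact fun h => hja (hτ (by simp [hj']) (by simp) h)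
    · intro j hj
      rw [Equiv.Perm.mul_apply, h2 j hj, Equiv.swap_apply_of_ne_of_ne] <;> omega

theorem extend_perm' (S : Finset ℕ) (τ : ℕ → ℕ) (hτ : Set.InjOn τ S) :
    ∃ σ : Equiv.Perm ℕ, (∀ j ∈ S, σ j = τ j) := by
  classical
  obtain ⟨σ, h, _⟩ := extend_perm ((S ∪ S.image τ).sup id + 1) S τ hτ (by
    intro j hj
    constructor
    · exact Nat.lt_succ_of_le (Finset.le_sup (f := id) (Finset.mem_union_left _ hj))
    · exact Nat.lt_succ_of_le (Finset.le_sup (f := id)
        (Finset.mem_union_right _ (Finset.mem_image_of_mem τ hj))))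
  exact ⟨σ, h⟩

section B1

open Polynomial

variable {Q : Type*} [CommRing Q]

/-- The key lemma. -/
theorem exists_minimal_relation (x : ℕ → Q) (P0 : Q[X]) (h0 : P0 ≠ 0)
    (hP0 : ∀ j, P0.eval (x j) = 0) :
    ∃ D : ℕ, (∀ P : Q[X], (∀ j, P.eval (x j) = 0) → P.natDegree < D → P = 0) ∧
      ∃ w : Q, w ≠ 0 ∧ ∃ j : Fin D → ℕ, ∀ k, (∏ i, (x k - x (j i))) * w = 0 := by
  classical
  have hex : ∃ D, ∃ P : Q[X], P ≠ 0 ∧ (∀ j, P.eval (x j) = 0) ∧ P.natDegree = D :=
    ⟨_, P0, h0, hP0, rfl⟩
  obtain ⟨P1, hP1, hP1z, hP1d⟩ := Nat.find_spec hex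
  set D := Nat.find hex with hD
  have hmin : ∀ P : Q[X], (∀ j, P.eval (x j) = 0) → P.natDegree < D → P = 0 := by
    intro P hP hlt
    by_contra hne
    exact Nat.find_min hex hlt ⟨P, hne, hP, rfl⟩
  refine ⟨D, hmin, ?_⟩
  have key : ∀ s ≤ D, ∃ j : Fin s → ℕ, ∃ R : Q[X], R.natDegree ≤ D - s ∧ R.coeff (D - s) ≠ 0 ∧
      ∀ k, (∏ i, (x k - x (j i))) * R.eval (x k) = 0 := by
    intro s
    induction s with
    | zero =>
      intro _
      refine ⟨Fin.elim0, P1, by simp [hP1d], ?_, ?_⟩
      · rw [Nat.sub_zero, ← hP1d]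
        exact fun h => hP1 (leadingCoeff_eq_zero.1 h)
      · intro k; simp [hP1z k]
    | succ s ih =>
      intro hs
      obtain ⟨j, R, hR1, hR2, hR3⟩ := ih (by omega)
      set w := R.coeff (D - s) with hw
      -- some k works
      have hk : ∃ k, (∏ i, (x k - x (j i))) * w ≠ 0 := by
        by_contra hcon
        push Not at hcon
        set M : Q[X] := ∏ i, (X - C (x (j i))) with hM
        have hMm : M.Monic := monic_prod_of_monic _ _ fun i _ => monic_X_sub_C _
        have hMd : M.natDegree ≤ s := by
          refine (natDegree_prod_le _ _).trans ?_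
          refine (Finset.sum_le_sum (g := fun _ => 1) fun i _ => ?_).trans (by simp)
          exact natDegree_X_sub_C_le _
        have h1 := hmin (C w * M) (by
          intro k
          rw [eval_mul, eval_C, hM, eval_prod, mul_comm]
          simpa using hcon k) (by
          refine lt_of_le_of_lt (natDegree_C_mul_le _ _) ?_
          omega)
        have h2 : (C w * M).coeff M.natDegree = w := by
          rw [coeff_C_mul, hMm.coeff_natDegree, mul_one]
        rw [h1, coeff_zero] at h2
        exact hR2 h2.symm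
      obtain ⟨k, hk⟩ := hk
      set c := ∏ i, (x k - x (j i)) with hc
      have hroot : (C c * R).IsRoot (x k) := by
        rw [IsRoot, eval_mul, eval_C]
        exact hR3 k
      obtain ⟨R', hR'⟩ := dvd_iff_isRoot.2 hroot
      have hR'd : R'.natDegree ≤ D - (s + 1) := by
        by_cases hz : R' = 0
        · simp [hz]
        have h3 : ((X - C (x k)) * R').natDegree = 1 + R'.natDegree := by
          have : Nontrivial Q := ⟨⟨w, 0, hR2⟩⟩
          rw [(monic_X_sub_C (x k)).natDegree_mul' hz, natDegree_X_sub_C]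
        have h4 : (C c * R).natDegree ≤ D - s := (natDegree_C_mul_le _ _).trans hR1
        rw [hR', h3] at h4
        omega
      have hR'c : R'.coeff (D - (s + 1)) = c * w := by
        have h5 : (C c * R).coeff (D - s) = c * w := by rw [coeff_C_mul]
        have h6 : D - s = (D - (s + 1)) + 1 := by omega
        rw [hR', h6, sub_mul, coeff_sub, coeff_X_mul, coeff_C_mul] at h5
        rw [coeff_eq_zero_of_natDegree_lt (n := D - (s + 1) + 1) (by omega), mul_zero,
          sub_zero] at h5
        exact h5
      refine ⟨Fin.cons k j, R', hR'd, by rw [hR'c]; exact hk, ?_⟩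
      intro l
      rw [Fin.prod_univ_succ]
      simp only [Fin.cons_zero, Fin.cons_succ]
      have h7 : (C c * R).eval (x l) = (x l - x k) * R'.eval (x l) := by
        rw [hR', eval_mul]; simp
      rw [eval_mul, eval_C] at h7
      calc (x l - x k) * (∏ i, (x l - x (j i))) * eval (x l) R'
          = (∏ i, (x l - x (j i))) * ((x l - x k) * eval (x l) R') := by ring
        _ = c * ((∏ i, (x l - x (j i))) * eval (x l) R) := by rw [← h7]; ring
        _ = 0 := by rw [hR3 l, mul_zero]
  obtain ⟨j, R, hR1, hR2, hR3⟩ := key D le_rfl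
  rw [Nat.sub_self] at hR1 hR2
  refine ⟨R.coeff 0, hR2, j, fun k => ?_⟩
  have := hR3 k
  rwa [eq_C_of_natDegree_le_zero hR1, eval_C] at this

theorem aeval_finSucc {K : Type*} [Field K] [Algebra K Q] {n : ℕ} (y : Fin n → Q) (a : Q)
    (f : MvPolynomial (Fin (n + 1)) K) :
    MvPolynomial.aeval (Fin.cons a y : Fin (n + 1) → Q) f =
      ((MvPolynomial.finSuccEquiv K n f).map (MvPolynomial.aeval y).toRingHom).eval a := by
  have h : (MvPolynomial.aeval (Fin.cons a y : Fin (n + 1) → Q)).toRingHom =
      (Polynomial.evalRingHom a).comp ((Polynomial.mapRingHom (MvPolynomial.aeval y).toRingHom).comp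
        (MvPolynomial.finSuccEquiv K n).toAlgHom.toRingHom) := by
    apply MvPolynomial.ringHom_ext
    · intro r
      have h1 : MvPolynomial.finSuccEquiv K n (MvPolynomial.C r) =
          Polynomial.C (MvPolynomial.C r) := by
        have := MvPolynomial.finSuccEquiv_comp_C_eq_C (R := K) n
        have h2 := congrArg (fun φ => φ r) this
        simp only [RingHom.comp_apply] at h2
        rw [← h2]
        simp
      simp [h1]
    · intro i
      refine Fin.cases ?_ (fun i => ?_) i
      · simp [MvPolynomial.finSuccEquiv_X_zero]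
      · simp [MvPolynomial.finSuccEquiv_X_succ]
  exact congrArg (fun φ => φ f) h

/-- a relation in `n` variables yields a univariate one -/
theorem exists_relation {K : Type*} [Field K] [Algebra K Q] (x : ℕ → Q) :
    ∀ (n : ℕ) (f : MvPolynomial (Fin n) K), f ≠ 0 → ∀ u : Q, u ≠ 0 →
      (∀ j : Fin n → ℕ, Function.Injective j → MvPolynomial.aeval (fun i => x (j i)) f * u = 0) →
      ∃ P : Q[X], P ≠ 0 ∧ ∀ k, P.eval (x k) = 0
  | 0, f, hf, u, hu, h => by
    exfalso
    have h1 := h Fin.elim0 (fun i => i.elim0)
    obtain ⟨c, rfl⟩ := (MvPolynomial.C_surjective (R := K) (Fin 0)) f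
    rw [MvPolynomial.aeval_C] at h1
    have hc : c ≠ 0 := by
      rintro rfl
      exact hf (by simp)
    apply hu
    have h2 : algebraMap K Q c⁻¹ * (algebraMap K Q c * u) = 0 := by rw [h1, mul_zero]
    rwa [← mul_assoc, ← map_mul, inv_mul_cancel₀ hc, map_one, one_mul] at h2
  | n + 1, f, hf, u, hu, h => by
    classical
    have hF : MvPolynomial.finSuccEquiv K n f ≠ 0 := by
      intro h0
      exact hf ((MvPolynomial.finSuccEquiv K n).injective (by rw [h0, map_zero]))
    obtain ⟨i, hi⟩ : ∃ i, (MvPolynomial.finSuccEquiv K n f).coeff i ≠ 0 := by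
      by_contra hcon
      push Not at hcon
      exact hF (Polynomial.ext (by simpa using hcon))
    by_cases hall : ∀ j : Fin n → ℕ, Function.Injective j →
        MvPolynomial.aeval (fun i => x (j i)) ((MvPolynomial.finSuccEquiv K n f).coeff i) * u = 0
    · exact exists_relation x n _ hi u hu hall
    · push Not at hall
      obtain ⟨j, hj, hne⟩ := hall
      set P : Q[X] := ((MvPolynomial.finSuccEquiv K n f).map
        (MvPolynomial.aeval (fun i => x (j i))).toRingHom) * C u with hP
      have hP0 : P ≠ 0 := by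
        intro h0
        apply hne
        have : P.coeff i = 0 := by rw [h0, coeff_zero]
        rw [hP, coeff_mul_C, coeff_map] at this
        exact this
      have hPz : ∀ k, k ∉ Set.range j → P.eval (x k) = 0 := by
        intro k hk
        rw [hP, eval_mul, eval_C, ← aeval_finSucc]
        have h3 := h (Fin.cons k j) (by
          rw [Fin.cons_injective_iff]
          exact ⟨hk, hj⟩)
        have h4 : (fun i => x ((Fin.cons k j : Fin (n + 1) → ℕ) i)) =
            (Fin.cons (x k) (fun i => x (j i)) : Fin (n + 1) → Q) := by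
          funext i
          refine Fin.cases ?_ (fun i => ?_) i <;> simp
        rwa [h4] at h3
      set M : Q[X] := ∏ i, (X - C (x (j i))) with hM
      have hMm : M.Monic := monic_prod_of_monic _ _ fun i _ => monic_X_sub_C _
      refine ⟨M * P, ?_, ?_⟩
      · intro h0
        exact hP0 ((hMm.mul_right_eq_zero_iff).1 h0)
      · intro k
        rw [eval_mul]
        by_cases hk : k ∈ Set.range j
        · obtain ⟨i, rfl⟩ := hk
          have : M.eval (x (j i)) = 0 := by
            rw [hM, eval_prod]
            exact Finset.prod_eq_zero (Finset.mem_univ i) (by simp)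
          rw [this, zero_mul]
        · rw [hPz k hk, mul_zero]

end B1

end MP7f
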