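import Pool.Agent.W_MP_7f6900_al.HS
import Pool.Agent.W_MP_7f6900_al.Nice

open MvPolynomial

namespace MP7f

variable {K N : Type*} [Field K] [AddCommGroup N] [Module K N] [Module (MvPolynomial ℕ K) N]

/-- `n` is fixed by all permutations fixing `S` pointwise -/
def Sp (ρ : Representation K (Equiv.Perm ℕ) N) (n : N) (S : Finset ℕ) : Prop :=
  ∀ σ : Equiv.Perm ℕ, (∀ j ∈ S, σ j = j) → ρ σ n = n

/-- smooth equivariant modules -/
structure EqM (ρ : Representation K (Equiv.Perm ℕ) N) : Prop where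
  smul : ∀ (σ : Equiv.Perm ℕ) (f : MvPolynomial ℕ K) (n : N), ρ σ (f • n) = rename σ f • ρ σ n
  smooth : ∀ n, ∃ S : Finset ℕ, Sp ρ n S

variable {ρ : Representation K (Equiv.Perm ℕ) N}

omit [Module (MvPolynomial ℕ K) N] in
theorem Sp.mono {n : N} {S T : Finset ℕ} (h : Sp ρ n S) (hST : S ⊆ T) : Sp ρ n T :=
  fun σ hσ => h σ fun j hj => hσ j (hST hj)

omit [Module (MvPolynomial ℕ K) N] in
theorem Sp.add {n n' : N} {S : Finset ℕ} (h : Sp ρ n S) (h' : Sp ρ n' S) : Sp ρ (n + n') S :=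
  fun σ hσ => by rw [map_add, h σ hσ, h' σ hσ]

omit [Module (MvPolynomial ℕ K) N] in
theorem Sp.csmul {n : N} {S : Finset ℕ} (c : K) (h : Sp ρ n S) : Sp ρ (c • n) S :=
  fun σ hσ => by rw [map_smul, h σ hσ]

omit [Module (MvPolynomial ℕ K) N] in
theorem ρ_mul (σ τ : Equiv.Perm ℕ) (n : N) : ρ (σ * τ) n = ρ σ (ρ τ n) := by
  rw [map_mul]; rfl

omit [Module (MvPolynomial ℕ K) N] in
theorem ρ_inv (σ : Equiv.Perm ℕ) (n : N) : ρ σ⁻¹ (ρ σ n) = n := by
  rw [← ρ_mul]; simp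

omit [Module (MvPolynomial ℕ K) N] in
theorem ρ_inv' (σ : Equiv.Perm ℕ) (n : N) : ρ σ (ρ σ⁻¹ n) = n := by
  rw [← ρ_mul]; simp

omit [Module (MvPolynomial ℕ K) N] in
theorem Sp.ren {n : N} {S : Finset ℕ} (h : Sp ρ n S) (τ : Equiv.Perm ℕ) :
    Sp ρ (ρ τ n) (S.image τ) := by
  intro σ hσ
  have h1 : ρ (τ⁻¹ * σ * τ) n = n := by
    apply h
    intro j hj
    simp [hσ (τ j) (Finset.mem_image_of_mem _ hj)]
  rw [ρ_mul, ρ_mul] at h1
  have h2 := ρ_inv' (ρ := ρ) τ (ρ σ (ρ τ n))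
  rw [h1] at h2
  exact h2.symm

theorem Sp.smul (hE : EqM ρ) {n : N} {S : Finset ℕ} (h : Sp ρ n S) (f : MvPolynomial ℕ K)
    {T : Finset ℕ} (hT : f.vars ⊆ T) (hST : S ⊆ T) : Sp ρ (f • n) T := by
  intro σ hσ
  rw [hE.smul, h σ (fun j hj => hσ j (hST hj))]
  congr 1
  have := hom_congr_vars (f₁ := (rename σ : MvPolynomial ℕ K →ₐ[K] MvPolynomial ℕ K).toRingHom)
    (f₂ := (AlgHom.id K (MvPolynomial ℕ K)).toRingHom) (p₁ := f) (p₂ := f)
    (by ext; simp) (by intro i hi _; simp [hσ i (hT hi)]) rfl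
  exact this

/-- coinvariants -/
def Cm (ρ : Representation K (Equiv.Perm ℕ) N) (m : ℕ) : Submodule K N :=
  Submodule.span K {v | ∃ (σ : Equiv.Perm ℕ) (n : N), (∀ j < m, σ j = j) ∧ v = ρ σ n - n}

omit [Module (MvPolynomial ℕ K) N] in
theorem mk_ρ {m : ℕ} {σ : Equiv.Perm ℕ} (hσ : ∀ j < m, σ j = j) (n : N) :
    (Cm ρ m).mkQ (ρ σ n) = (Cm ρ m).mkQ n := by
  rw [Submodule.mkQ_apply, Submodule.mkQ_apply, Submodule.Quotient.eq]
  exact Submodule.subset_span ⟨σ, n, hσ, rfl⟩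

theorem X_swap (hE : EqM ρ) {m : ℕ} {n : N} {S : Finset ℕ} (h : Sp ρ n S) {k k' : ℕ} (hk : k ∉ S)
    (hk' : k' ∉ S) (hm : m ≤ k) (hm' : m ≤ k') (i : ℕ) :
    (Cm ρ m).mkQ ((X k : MvPolynomial ℕ K) ^ i • n) =
      (Cm ρ m).mkQ ((X k' : MvPolynomial ℕ K) ^ i • n) := by
  rw [← mk_ρ (σ := Equiv.swap k k') (fun j hj => Equiv.swap_apply_of_ne_of_ne (by omega) (by omega))
    ((X k : MvPolynomial ℕ K) ^ i • n), hE.smul]
  rw [h (Equiv.swap k k') (fun j hj => Equiv.swap_apply_of_ne_of_ne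
    (fun h => hk (h ▸ hj)) (fun h => hk' (h ▸ hj)))]
  simp

theorem X_indep (hE : EqM ρ) {m : ℕ} {n : N} {S S' : Finset ℕ} (h : Sp ρ n S) (h' : Sp ρ n S')
    {k k' : ℕ} (hk : k ∉ S) (hk' : k' ∉ S') (hm : m ≤ k) (hm' : m ≤ k') (i : ℕ) :
    (Cm ρ m).mkQ ((X k : MvPolynomial ℕ K) ^ i • n) =
      (Cm ρ m).mkQ ((X k' : MvPolynomial ℕ K) ^ i • n) := by
  obtain ⟨k'', h1⟩ : ∃ k'', k'' ∉ S ∪ S' ∪ Finset.range m :=
    Infinite.exists_notMem_finset _
  simp only [Finset.mem_union, Finset.mem_range, not_or, not_lt] at h1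
  rw [X_swap hE h hk h1.1.1 hm h1.2 i, X_swap hE h' hk' h1.1.2 hm' h1.2 i]

theorem exists_new (m : ℕ) (S : Finset ℕ) : ∃ k, k ∉ S ∧ m ≤ k := by
  obtain ⟨k, h1⟩ : ∃ k, k ∉ S ∪ Finset.range m := Infinite.exists_notMem_finset _
  simp only [Finset.mem_union, Finset.mem_range, not_or, not_lt] at h1
  exact ⟨k, h1⟩

/-- The operators `p_i` on coinvariants. -/
theorem exists_p [IsScalarTower K (MvPolynomial ℕ K) N] (hE : EqM ρ) (m i : ℕ) :
    ∃ p : (N ⧸ Cm ρ m) →ₗ[K] (N ⧸ Cm ρ m), ∀ (n : N) (S : Finset ℕ) (k : ℕ), Sp ρ n S → k ∉ S →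
      m ≤ k → p ((Cm ρ m).mkQ n) = (Cm ρ m).mkQ ((X k : MvPolynomial ℕ K) ^ i • n) := by
  classical
  choose S hS using hE.smooth
  choose kk hkk using fun n => exists_new m (S n)
  have key : ∀ (n : N) (T : Finset ℕ) (k : ℕ), Sp ρ n T → k ∉ T → m ≤ k →
      (Cm ρ m).mkQ ((X (kk n) : MvPolynomial ℕ K) ^ i • n) =
        (Cm ρ m).mkQ ((X k : MvPolynomial ℕ K) ^ i • n) := fun n T k h1 h2 h3 =>
    X_indep hE (hS n) h1 (hkk n).1 h2 (hkk n).2 h3 i
  let f : N →ₗ[K] (N ⧸ Cm ρ m) :=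
    { toFun := fun n => (Cm ρ m).mkQ ((X (kk n) : MvPolynomial ℕ K) ^ i • n)
      map_add' := by
        intro a b
        obtain ⟨k, hk, hm⟩ := exists_new m (S a ∪ S b)
        rw [Finset.mem_union, not_or] at hk
        rw [key a (S a) k (hS a) hk.1 hm, key b (S b) k (hS b) hk.2 hm,
          key (a + b) (S a ∪ S b) k (((hS a).mono Finset.subset_union_left).add
            ((hS b).mono Finset.subset_union_right)) (by simp [hk]) hm, smul_add, map_add]
      map_smul' := by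
        intro c a
        rw [key (c • a) (S a) (kk a) ((hS a).csmul c) (hkk a).1 (hkk a).2, RingHom.id_apply,
          smul_comm, map_smul] }
  have hf : Cm ρ m ≤ LinearMap.ker f := by
    refine Submodule.span_le.2 ?_
    rintro _ ⟨σ, n, hσ, rfl⟩
    rw [SetLike.mem_coe, LinearMap.mem_ker, map_sub, sub_eq_zero]
    change (Cm ρ m).mkQ _ = (Cm ρ m).mkQ _
    obtain ⟨k, hk, hm⟩ := exists_new m (S n)
    have hmσ : m ≤ σ k := by
      by_contra hcon
      have h1 := hσ (σ k) (not_le.1 hcon)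
      have h2 := σ.injective h1
      omega
    rw [key (ρ σ n) ((S n).image σ) (σ k) ((hS n).ren σ) (by
      intro h
      obtain ⟨j, hj, hjk⟩ := Finset.mem_image.1 h
      rw [σ.injective hjk] at hj
      exact hk hj) hmσ, key n (S n) k (hS n) hk hm]
    rw [← mk_ρ hσ ((X k : MvPolynomial ℕ K) ^ i • n), hE.smul]
    simp
  refine ⟨(Cm ρ m).liftQ f hf, fun n T k h1 h2 h3 => ?_⟩
  rw [Submodule.mkQ_apply, Submodule.liftQ_apply]
  exact key n T k h1 h2 h3

/-- moving lemma -/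
theorem exists_move (m c n : ℕ) (hn : m + c ≤ n) : ∀ (r : ℕ) (S : Finset ℕ), (∀ j ∈ S, j < n) →
    (S.filter (m ≤ ·)).card ≤ c → (S.filter (m + c ≤ ·)).card = r →
    ∃ σ : Equiv.Perm ℕ, (∀ j < m, σ j = j) ∧ (∀ j, n ≤ j → σ j = j) ∧ ∀ j ∈ S, σ j < m + c
  | 0, S, _, _, hr => by
    refine ⟨1, by simp, by simp, fun j hj => ?_⟩
    rw [Finset.card_eq_zero, Finset.filter_eq_empty_iff] at hr
    simpa using hr hj
  | r + 1, S, hS, hc, hr => by
    classical
    obtain ⟨a, ha⟩ : (S.filter (m + c ≤ ·)).Nonempty := by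
      rw [← Finset.card_pos]; omega
    rw [Finset.mem_filter] at ha
    obtain ⟨b, hb1, hb2⟩ : ∃ b ∈ Finset.Ico m (m + c), b ∉ S := by
      by_contra hcon
      push Not at hcon
      have h1 : insert a (Finset.Ico m (m + c)) ⊆ S.filter (m ≤ ·) := by
        intro x hx
        rw [Finset.mem_insert] at hx
        rw [Finset.mem_filter]
        rcases hx with rfl | hx
        · exact ⟨ha.1, by omega⟩
        · exact ⟨hcon x hx, (Finset.mem_Ico.1 hx).1⟩
      have h2 := Finset.card_le_card h1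
      rw [Finset.card_insert_of_notMem (by simp; omega), Nat.card_Ico] at h2
      omega
    rw [Finset.mem_Ico] at hb1
    set s := Equiv.swap a b with hs
    have haS := hS a ha.1
    have hsj : ∀ j, j ≠ a → j ≠ b → s j = j := fun j h1 h2 => Equiv.swap_apply_of_ne_of_ne h1 h2
    have himg : S.image s = insert b (S.erase a) := by
      ext x
      simp only [Finset.mem_image, Finset.mem_insert, Finset.mem_erase]
      constructor
      · rintro ⟨y, hy, rfl⟩
        by_cases hya : y = a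
        · left; rw [hya, hs, Equiv.swap_apply_left]
        · right
          have hyb : y ≠ b := fun h => hb2 (h ▸ hy)
          rw [hsj y hya hyb]
          exact ⟨hya, hy⟩
      · rintro (rfl | ⟨h1, h2⟩)
        · exact ⟨a, ha.1, Equiv.swap_apply_left _ _⟩
        · exact ⟨x, h2, hsj x h1 (fun h => hb2 (h ▸ h2))⟩
    obtain ⟨σ, h1, h2, h3⟩ := exists_move m c n hn r (S.image s) (by
      intro j hj
      rw [himg, Finset.mem_insert, Finset.mem_erase] at hj
      rcases hj with rfl | hj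
      · omega
      · exact hS j hj.2) (by
      rw [himg, Finset.filter_insert, if_pos hb1.1, Finset.filter_erase]
      refine (Finset.card_insert_le _ _).trans ?_
      rw [Finset.card_erase_of_mem (by rw [Finset.mem_filter]; exact ⟨ha.1, by omega⟩)]
      have : 0 < (S.filter (m ≤ ·)).card :=
        Finset.card_pos.2 ⟨a, by rw [Finset.mem_filter]; exact ⟨ha.1, by omega⟩⟩
      omega) (by
      rw [himg, Finset.filter_insert, if_neg (by omega), Finset.filter_erase,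
        Finset.card_erase_of_mem (by rw [Finset.mem_filter]; exact ha)]
      omega)
    refine ⟨σ * s, ?_, ?_, ?_⟩
    · intro j hj
      rw [Equiv.Perm.mul_apply, hsj j (by omega) (by omega), h1 j hj]
    · intro j hj
      rw [Equiv.Perm.mul_apply, hsj j (by omega) (by omega), h2 j hj]
    · intro j hj
      rw [Equiv.Perm.mul_apply]
      exact h3 _ (Finset.mem_image_of_mem _ hj)

end MP7f
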