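import Pool.Agent.W_MP_7f6900_al.Nice
import Pool.Agent.W_MP_7f6900_al.Cohen

open MvPolynomial

namespace MP7f

variable {K : Type*} [Field K]

/-- invariance under all permutations of the variables -/
def PermInv (I : Ideal (MvPolynomial ℕ K)) : Prop :=
  ∀ σ : Equiv.Perm ℕ, ∀ f ∈ I, rename σ f ∈ I

/-- homogeneous ideals -/
def Homog (I : Ideal (MvPolynomial ℕ K)) : Prop :=
  ∀ f ∈ I, ∀ d, homogeneousComponent d f ∈ I

theorem rename_congr_vars {f : MvPolynomial ℕ K} {σ τ : ℕ → ℕ} (h : ∀ i ∈ f.vars, σ i = τ i) :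
    rename σ f = rename τ f := by
  have := hom_congr_vars (f₁ := (rename σ : MvPolynomial ℕ K →ₐ[K] MvPolynomial ℕ K).toRingHom)
    (f₂ := (rename τ : MvPolynomial ℕ K →ₐ[K] MvPolynomial ℕ K).toRingHom) (p₁ := f) (p₂ := f)
    (by ext; simp) (by intro i hi _; simp [h i hi]) rfl
  exact this

theorem PermInv.rename_mem {I : Ideal (MvPolynomial ℕ K)} (hI : PermInv I) {τ : ℕ → ℕ}
    (hτ : Function.Injective τ) {f : MvPolynomial ℕ K} (hf : f ∈ I) : rename τ f ∈ I := by
  obtain ⟨σ, hσ⟩ := extend_perm' f.vars τ hτ.injOn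
  have := hI σ f hf
  rwa [rename_congr_vars hσ] at this

theorem PermInv.incInv {I : Ideal (MvPolynomial ℕ K)} (hI : PermInv I) : IncInv I :=
  fun _ hτ _ hf => hI.rename_mem hτ.injective hf

theorem homogeneousComponent_mul {P f : MvPolynomial ℕ K} {D : ℕ} (hP : P.IsHomogeneous D)
    (d : ℕ) : homogeneousComponent (D + d) (P * f) = P * homogeneousComponent d f := by
  let _ := MvPolynomial.gradedAlgebra (σ := ℕ) (R := K)
  have := DirectSum.coe_decompose_mul_add_of_left_mem (homogeneousSubmodule ℕ K) (i := D)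
    (j := d) (a := P) (b := f) ((mem_homogeneousSubmodule _ _).2 hP)
  rw [← decomposition.decompose'_apply, ← decomposition.decompose'_apply]
  exact this

/-- product of differences -/
noncomputable def dprod {D : ℕ} (j : Fin D → ℕ) (k : ℕ) : MvPolynomial ℕ K :=
  ∏ i, (X k - X (j i))

theorem dprod_homog {D : ℕ} (j : Fin D → ℕ) (k : ℕ) :
    (dprod j k : MvPolynomial ℕ K).IsHomogeneous D := by
  have := IsHomogeneous.prod (Finset.univ : Finset (Fin D))
    (fun i => (X k - X (j i) : MvPolynomial ℕ K)) (fun _ => 1)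
    (fun i _ => (isHomogeneous_X _ _).sub (isHomogeneous_X _ _))
  rw [Finset.sum_const, Finset.card_univ, Fintype.card_fin, smul_eq_mul, mul_one] at this
  exact this

/-- homogeneous elements satisfying the special relation of degree `D` modulo `I` -/
def Wh (I : Ideal (MvPolynomial ℕ K)) (D : ℕ) : Set (MvPolynomial ℕ K) :=
  {w | (∃ e, w.IsHomogeneous e) ∧ ∃ j : Fin D → ℕ, ∀ k, dprod j k * w ∈ I}

/-- minimality of `D` -/
def MinRel (I : Ideal (MvPolynomial ℕ K)) (D : ℕ) : Prop :=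
  ∀ P : Polynomial (MvPolynomial ℕ K ⧸ I),
    (∀ k, P.eval (Ideal.Quotient.mk I (X k)) = 0) → P.natDegree < D → P = 0

theorem exists_step (I : Ideal (MvPolynomial ℕ K)) (hperm : PermInv I) (hhom : Homog I)
    (h0 : I ≠ ⊥) (h1 : I ≠ ⊤) : ∃ D, MinRel I D ∧ ∃ w ∈ Wh I D, w ∉ I := by
  classical
  have hnt : Nontrivial (MvPolynomial ℕ K ⧸ I) := Ideal.Quotient.nontrivial_iff.2 h1
  obtain ⟨f, hf, hf0⟩ := Submodule.exists_mem_ne_zero_of_ne_bot h0
  obtain ⟨n, g, hg, q, rfl⟩ := exists_fin_rename f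
  have hq : q ≠ 0 := by
    rintro rfl
    exact hf0 (by simp)
  obtain ⟨P, hP0, hPz⟩ := exists_relation (fun k => Ideal.Quotient.mk I (X k)) n q hq
    (1 : MvPolynomial ℕ K ⧸ I) one_ne_zero (by
      intro j hj
      rw [mul_one]
      have h2 : aeval (fun i => Ideal.Quotient.mk I (X (j i) : MvPolynomial ℕ K)) q =
          Ideal.Quotient.mk I (rename j q) := by
        have : (aeval (fun i => Ideal.Quotient.mk I (X (j i) : MvPolynomial ℕ K))).toRingHom =
            (Ideal.Quotient.mk I).comp (rename j : MvPolynomial (Fin n) K →ₐ[K] _).toRingHom := by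
          apply ringHom_ext
          · intro r
            simp
            rfl
          · intro i; simp
        exact congrArg (fun φ => φ q) this
      rw [h2, Ideal.Quotient.eq_zero_iff_mem]
      -- find a permutation
      obtain ⟨σ, hσ⟩ := extend_perm' (Finset.univ.image g)
        (Function.extend g j (fun _ => 0)) (by
          intro a ha b hb hab
          simp only [Finset.coe_image, Finset.coe_univ, Set.image_univ, Set.mem_range] at ha hb
          obtain ⟨a, rfl⟩ := ha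
          obtain ⟨b, rfl⟩ := hb
          rw [hg.extend_apply, hg.extend_apply] at hab
          rw [hj hab])
      have h3 := hperm σ _ hf
      rw [rename_rename] at h3
      have h4 : (σ : ℕ → ℕ) ∘ g = j := by
        funext i
        rw [Function.comp_apply, hσ (g i) (Finset.mem_image_of_mem g (Finset.mem_univ i)),
          hg.extend_apply]
      rwa [h4] at h3)
  obtain ⟨D, hmin, w, hw, j, hj⟩ := exists_minimal_relation _ P hP0 hPz
  obtain ⟨w, rfl⟩ := Ideal.Quotient.mk_surjective w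
  rw [Ne, Ideal.Quotient.eq_zero_iff_mem] at hw
  have hj' : ∀ k, dprod j k * w ∈ I := by
    intro k
    have := hj k
    rw [← Ideal.Quotient.eq_zero_iff_mem, map_mul, dprod, map_prod]
    simpa using this
  refine ⟨D, hmin, ?_⟩
  -- some homogeneous component is not in I
  obtain ⟨e, he⟩ : ∃ e, homogeneousComponent e w ∉ I := by
    by_contra hcon
    push Not at hcon
    apply hw
    rw [← sum_homogeneousComponent w]
    exact I.sum_mem fun e _ => hcon e
  refine ⟨homogeneousComponent e w, ⟨⟨e, homogeneousComponent_isHomogeneous _ _⟩, j, ?_⟩, he⟩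
  intro k
  rw [← homogeneousComponent_mul (dprod_homog j k)]
  exact hhom _ (hj' k) _

theorem rename_dprod {D : ℕ} (j : Fin D → ℕ) (k : ℕ) (τ : ℕ → ℕ) :
    rename τ (dprod j k : MvPolynomial ℕ K) = dprod (fun i => τ (j i)) (τ k) := by
  simp [dprod, map_prod]

theorem Wh_perm {I : Ideal (MvPolynomial ℕ K)} (hperm : PermInv I) {D : ℕ} (σ : Equiv.Perm ℕ)
    {w : MvPolynomial ℕ K} (hw : w ∈ Wh I D) : rename σ w ∈ Wh I D := by
  obtain ⟨⟨e, he⟩, j, hj⟩ := hw
  refine ⟨⟨e, he.rename_isHomogeneous⟩, fun i => σ (j i), fun k => ?_⟩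
  have := hperm σ _ (hj (σ.symm k))
  rw [map_mul, rename_dprod] at this
  simpa using this

/-- next ideal -/
noncomputable def Jn (I : Ideal (MvPolynomial ℕ K)) (D : ℕ) : Ideal (MvPolynomial ℕ K) :=
  I ⊔ Ideal.span (Wh I D)

theorem span_perm {S : Set (MvPolynomial ℕ K)}
    (hS : ∀ σ : Equiv.Perm ℕ, ∀ f ∈ S, rename σ f ∈ S) : PermInv (Ideal.span S) := by
  intro σ f hf
  have h1 : Ideal.span S ≤ (Ideal.span S).comap (rename σ : MvPolynomial ℕ K →ₐ[K] _) := by
    rw [Ideal.span_le]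
    intro g hg
    exact Ideal.subset_span (hS σ g hg)
  exact h1 hf

theorem sup_perm {I J : Ideal (MvPolynomial ℕ K)} (hI : PermInv I) (hJ : PermInv J) :
    PermInv (I ⊔ J) := by
  intro σ f hf
  obtain ⟨a, ha, b, hb, rfl⟩ := Submodule.mem_sup.1 hf
  rw [map_add]
  exact Submodule.add_mem_sup (hI σ a ha) (hJ σ b hb)

theorem span_homog {S : Set (MvPolynomial ℕ K)} (hS : ∀ f ∈ S, ∃ e, f.IsHomogeneous e) :
    Homog (Ideal.span S) := by
  intro f hf d
  let _ := MvPolynomial.gradedAlgebra (σ := ℕ) (R := K)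
  have h1 : (Ideal.span S).IsHomogeneous (homogeneousSubmodule ℕ K) := by
    apply Ideal.homogeneous_span
    intro x hx
    obtain ⟨e, he⟩ := hS x hx
    exact ⟨e, he⟩
  exact homogeneousComponent_mem_of_mem h1 hf d

theorem sup_homog {I J : Ideal (MvPolynomial ℕ K)} (hI : Homog I) (hJ : Homog J) :
    Homog (I ⊔ J) := by
  intro f hf d
  obtain ⟨a, ha, b, hb, rfl⟩ := Submodule.mem_sup.1 hf
  rw [map_add]
  exact Submodule.add_mem_sup (hI a ha d) (hJ b hb d)

theorem Jn_perm {I : Ideal (MvPolynomial ℕ K)} (hperm : PermInv I) (D : ℕ) : PermInv (Jn I D) :=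
  sup_perm hperm (span_perm fun σ _ hf => Wh_perm hperm σ hf)

theorem Jn_homog {I : Ideal (MvPolynomial ℕ K)} (hhom : Homog I) (D : ℕ) : Homog (Jn I D) :=
  sup_homog hhom (span_homog fun _ hf => hf.1)

theorem lt_Jn {I : Ideal (MvPolynomial ℕ K)} {D : ℕ} (h : ∃ w ∈ Wh I D, w ∉ I) : I < Jn I D := by
  obtain ⟨w, hw, hwI⟩ := h
  refine lt_of_le_of_ne le_sup_left fun heq => hwI ?_
  rw [heq]
  exact (le_sup_right : _ ≤ I ⊔ Ideal.span (Wh I D)) (Ideal.subset_span hw)

/-- Noetherian induction for symmetric homogeneous ideals. -/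
theorem sym_induction (P : Ideal (MvPolynomial ℕ K) → Prop)
    (h : ∀ I, PermInv I → Homog I → (∀ J, I < J → PermInv J → Homog J → P J) → P I)
    (I : Ideal (MvPolynomial ℕ K)) (hperm : PermInv I) (hhom : Homog I) : P I := by
  have wf : WellFounded (fun a b : {I : Ideal (MvPolynomial ℕ K) // PermInv I ∧ Homog I} =>
      b.1 < a.1) := by
    rw [RelEmbedding.wellFounded_iff_isEmpty]
    constructor
    intro f
    refine cohen (fun n => (f n).1) (fun n => (f n).2.1.incInv) ?_
    apply strictMono_nat_of_lt_succ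
    intro n
    exact f.map_rel_iff.2 (Nat.lt_succ_self n)
  have key : ∀ a : {I : Ideal (MvPolynomial ℕ K) // PermInv I ∧ Homog I}, P a.1 := by
    intro a
    induction a using wf.induction with
    | _ a ih =>
      exact h a.1 a.2.1 a.2.2 fun J hJ hp hh => ih ⟨J, hp, hh⟩ hJ
  exact key ⟨I, hperm, hhom⟩

/-- orbits -/
def orb (G : Set (MvPolynomial ℕ K)) : Set (MvPolynomial ℕ K) :=
  {f | ∃ σ : Equiv.Perm ℕ, ∃ g ∈ G, f = rename σ g}

theorem orb_perm (G : Set (MvPolynomial ℕ K)) : PermInv (Ideal.span (orb G)) := by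
  apply span_perm
  rintro σ _ ⟨τ, g, hg, rfl⟩
  refine ⟨σ * τ, g, hg, ?_⟩
  rw [rename_rename]
  rfl

/-- finite generation up to symmetry -/
theorem exists_finite_gen {I : Ideal (MvPolynomial ℕ K)} (hperm : PermInv I)
    (D : ℕ) : ∃ G : Finset (MvPolynomial ℕ K), (G : Set (MvPolynomial ℕ K)) ⊆ Wh I D ∧
      Jn I D = I ⊔ Ideal.span (orb (G : Set (MvPolynomial ℕ K))) := by
  classical
  by_contra hcon
  push Not at hcon
  have hle : ∀ G : Finset (MvPolynomial ℕ K), (G : Set (MvPolynomial ℕ K)) ⊆ Wh I D →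
      I ⊔ Ideal.span (orb (G : Set (MvPolynomial ℕ K))) ≤ Jn I D := by
    intro G hG
    apply sup_le_sup_left
    rw [Ideal.span_le]
    rintro _ ⟨σ, g, hg, rfl⟩
    exact Ideal.subset_span (Wh_perm hperm σ (hG hg))
  have hnext : ∀ G : {G : Finset (MvPolynomial ℕ K) // (G : Set (MvPolynomial ℕ K)) ⊆ Wh I D},
      ∃ G' : {G : Finset (MvPolynomial ℕ K) // (G : Set (MvPolynomial ℕ K)) ⊆ Wh I D},
      I ⊔ Ideal.span (orb (G.1 : Set (MvPolynomial ℕ K))) <
        I ⊔ Ideal.span (orb (G'.1 : Set (MvPolynomial ℕ K))) := by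
    rintro ⟨G, hG⟩
    have h1 : ∃ w ∈ Wh I D, w ∉ I ⊔ Ideal.span (orb (G : Set (MvPolynomial ℕ K))) := by
      by_contra hcon2
      push Not at hcon2
      apply hcon G hG
      apply le_antisymm _ (hle G hG)
      exact sup_le le_sup_left (Ideal.span_le.2 hcon2)
    obtain ⟨w, hw, hw2⟩ := h1
    refine ⟨⟨insert w G, by
      rw [Finset.coe_insert]
      exact Set.insert_subset hw hG⟩, ?_⟩
    refine lt_of_le_of_ne ?_ ?_
    · apply sup_le_sup_left
      apply Ideal.span_mono
      rintro _ ⟨σ, g, hg, rfl⟩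
      exact ⟨σ, g, by simp [Finset.mem_coe.1 hg], rfl⟩
    · intro heq
      apply hw2
      rw [heq]
      apply (le_sup_right : _ ≤ I ⊔ Ideal.span (orb _))
      apply Ideal.subset_span
      exact ⟨1, w, by simp, by simp⟩
  choose nx hnx using hnext
  let s : ℕ → {G : Finset (MvPolynomial ℕ K) // (G : Set (MvPolynomial ℕ K)) ⊆ Wh I D} :=
    fun n => Nat.rec ⟨∅, by simp⟩ (fun _ G => nx G) n
  refine cohen (fun n => I ⊔ Ideal.span (orb ((s n).1 : Set (MvPolynomial ℕ K))))
    (fun n => (sup_perm hperm (orb_perm _)).incInv) ?_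
  apply strictMono_nat_of_lt_succ
  intro n
  exact hnx (s n)

end MP7f
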