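import Pool.Agent.W_MP_7f6900_al.ThmA
import Pool.Agent.W_MP_7f6900_al.Step

open MvPolynomial

namespace MP7f

variable {K : Type*} [Field K]

section Q

variable (I : Ideal (MvPolynomial ℕ K)) (hI : PermInv I)

/-- the action of a permutation on the quotient -/
noncomputable def actQ (σ : Equiv.Perm ℕ) :
    (MvPolynomial ℕ K ⧸ I) →ₐ[K] (MvPolynomial ℕ K ⧸ I) :=
  Ideal.quotientMapₐ I (rename σ : MvPolynomial ℕ K →ₐ[K] MvPolynomial ℕ K)
    (fun f hf => hI σ f hf)

theorem actQ_mk (σ : Equiv.Perm ℕ) (f : MvPolynomial ℕ K) :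
    actQ I hI σ (Ideal.Quotient.mk I f) = Ideal.Quotient.mk I (rename σ f) := rfl

/-- the representation on the quotient -/
noncomputable def ρQ : Representation K (Equiv.Perm ℕ) (MvPolynomial ℕ K ⧸ I) where
  toFun σ := (actQ I hI σ).toLinearMap
  map_one' := by
    apply LinearMap.ext
    intro q
    obtain ⟨f, rfl⟩ := Ideal.Quotient.mk_surjective q
    rw [AlgHom.toLinearMap_apply, actQ_mk]
    simp
  map_mul' σ τ := by
    apply LinearMap.ext
    intro q
    obtain ⟨f, rfl⟩ := Ideal.Quotient.mk_surjective q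
    rw [Module.End.mul_apply, AlgHom.toLinearMap_apply, AlgHom.toLinearMap_apply,
      AlgHom.toLinearMap_apply, actQ_mk, actQ_mk, actQ_mk, rename_rename]
    rfl

theorem ρQ_mk (σ : Equiv.Perm ℕ) (f : MvPolynomial ℕ K) :
    ρQ I hI σ (Ideal.Quotient.mk I f) = Ideal.Quotient.mk I (rename σ f) := rfl

theorem smul_mk (f g : MvPolynomial ℕ K) :
    f • Ideal.Quotient.mk I g = Ideal.Quotient.mk I (f * g) := rfl

theorem eqM_Q : EqM (ρQ I hI) where
  smul σ f q := by
    obtain ⟨g, rfl⟩ := Ideal.Quotient.mk_surjective q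
    rw [smul_mk, ρQ_mk, ρQ_mk, smul_mk, map_mul]
  smooth q := by
    obtain ⟨g, rfl⟩ := Ideal.Quotient.mk_surjective q
    refine ⟨g.vars, fun σ hσ => ?_⟩
    rw [ρQ_mk, rename_congr_vars (τ := id) hσ]
    simp

end Q

/-- the submodule `J/I` -/
noncomputable def NN (I J : Ideal (MvPolynomial ℕ K)) :
    Submodule (MvPolynomial ℕ K) (MvPolynomial ℕ K ⧸ I) :=
  Submodule.map (Submodule.mkQ I) J

theorem mem_NN {I J : Ideal (MvPolynomial ℕ K)} {q : MvPolynomial ℕ K ⧸ I} :
    q ∈ NN I J ↔ ∃ f ∈ J, Ideal.Quotient.mk I f = q := Iff.rfl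

section N

variable (I J : Ideal (MvPolynomial ℕ K)) (hI : PermInv I) (hJ : PermInv J)

/-- representation on `J/I` -/
noncomputable def ρN : Representation K (Equiv.Perm ℕ) (NN I J) where
  toFun σ :=
    { toFun := fun n => ⟨ρQ I hI σ n, by
        obtain ⟨f, hf, h⟩ := mem_NN.1 n.2
        rw [← h, ρQ_mk]
        exact mem_NN.2 ⟨_, hJ σ f hf, rfl⟩⟩
      map_add' := fun a b => Subtype.ext (by simp)
      map_smul' := fun c a => Subtype.ext (by simp) }
  map_one' := by
    apply LinearMap.ext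
    intro n
    apply Subtype.ext
    simp
  map_mul' σ τ := by
    apply LinearMap.ext
    intro n
    apply Subtype.ext
    simp

theorem coe_ρN (σ : Equiv.Perm ℕ) (n : NN I J) :
    ((ρN I J hI hJ σ n : NN I J) : MvPolynomial ℕ K ⧸ I) = ρQ I hI σ n := rfl

theorem eqM_N : EqM (ρN I J hI hJ) where
  smul σ f n := by
    apply Subtype.ext
    rw [coe_ρN]
    exact (eqM_Q I hI).smul σ f n
  smooth n := by
    obtain ⟨S, hS⟩ := (eqM_Q I hI).smooth n
    exact ⟨S, fun σ hσ => Subtype.ext (hS σ hσ)⟩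

/-- graded pieces of `J/I` -/
noncomputable def Ndeg (d : ℕ) : Submodule K (NN I J) where
  carrier := {n | ∃ f ∈ J, f.IsHomogeneous d ∧ Ideal.Quotient.mk I f = n}
  add_mem' := by
    rintro a b ⟨f, hf, hfd, hfa⟩ ⟨g, hg, hgd, hga⟩
    exact ⟨f + g, J.add_mem hf hg, hfd.add hgd, by rw [map_add, hfa, hga]; rfl⟩
  zero_mem' := ⟨0, J.zero_mem, isHomogeneous_zero _ _ _, by simp⟩
  smul_mem' := by
    rintro c a ⟨f, hf, hfd, hfa⟩
    refine ⟨C c * f, J.mul_mem_left _ hf, hfd.C_mul c, ?_⟩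
    rw [← smul_eq_C_mul]
    change Ideal.Quotient.mk I (c • f) = c • (a : MvPolynomial ℕ K ⧸ I)
    rw [← hfa]
    rfl

theorem mem_Ndeg {d : ℕ} {n : NN I J} :
    n ∈ Ndeg I J d ↔ ∃ f ∈ J, f.IsHomogeneous d ∧ Ideal.Quotient.mk I f = n := Iff.rfl

theorem Ndeg_ρ (d : ℕ) (σ : Equiv.Perm ℕ) (n : NN I J) (hn : n ∈ Ndeg I J d) :
    ρN I J hI hJ σ n ∈ Ndeg I J d := by
  obtain ⟨f, hf, hfd, h⟩ := hn
  refine ⟨rename σ f, hJ σ f hf, hfd.rename_isHomogeneous, ?_⟩
  rw [coe_ρN, ← h, ρQ_mk]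

theorem Ndeg_smul (d e : ℕ) (g : MvPolynomial ℕ K) (hg : g.IsHomogeneous e) (n : NN I J)
    (hn : n ∈ Ndeg I J d) : g • n ∈ Ndeg I J (d + e) := by
  obtain ⟨f, hf, hfd, h⟩ := hn
  refine ⟨g * f, J.mul_mem_left _ hf, by rw [add_comm]; exact hg.mul hfd, ?_⟩
  change _ = g • (n : MvPolynomial ℕ K ⧸ I)
  rw [← h, smul_mk]

end N

/-! ### generation in each degree -/

theorem span_K_mul (S : Set (MvPolynomial ℕ K)) (a : MvPolynomial ℕ K) {l : MvPolynomial ℕ K}
    (hl : l ∈ Submodule.span K {f | ∃ (β : ℕ →₀ ℕ), ∃ s ∈ S, f = monomial β (1 : K) * s}) :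
    a * l ∈ Submodule.span K {f | ∃ (β : ℕ →₀ ℕ), ∃ s ∈ S, f = monomial β (1 : K) * s} := by
  have h1 : ∀ γ : ℕ →₀ ℕ, monomial γ (1 : K) * l ∈
      Submodule.span K {f | ∃ (β : ℕ →₀ ℕ), ∃ s ∈ S, f = monomial β (1 : K) * s} := by
    intro γ
    induction hl using Submodule.span_induction with
    | mem x hx =>
      obtain ⟨β, s, hs, rfl⟩ := hx
      apply Submodule.subset_span
      refine ⟨γ + β, s, hs, ?_⟩
      rw [← mul_assoc, monomial_mul, one_mul]
    | zero => simp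
    | add x y _ _ hx hy => rw [mul_add]; exact Submodule.add_mem _ hx hy
    | smul c x _ hx => rw [mul_smul_comm]; exact Submodule.smul_mem _ c hx
  rw [a.as_sum, Finset.sum_mul]
  apply Submodule.sum_mem
  intro γ _
  have : monomial γ (coeff γ a) * l = coeff γ a • (monomial γ (1 : K) * l) := by
    rw [← smul_mul_assoc, smul_monomial, smul_eq_mul, mul_one]
  rw [this]
  exact Submodule.smul_mem _ _ (h1 γ)

theorem ideal_span_le (S : Set (MvPolynomial ℕ K)) {l : MvPolynomial ℕ K}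
    (hl : l ∈ Ideal.span S) :
    l ∈ Submodule.span K {f | ∃ (β : ℕ →₀ ℕ), ∃ s ∈ S, f = monomial β (1 : K) * s} := by
  induction hl using Submodule.span_induction with
  | mem x hx =>
    apply Submodule.subset_span
    exact ⟨0, x, hx, by simp⟩
  | zero => simp
  | add x y _ _ hx hy => exact Submodule.add_mem _ hx hy
  | smul c x _ hx => exact span_K_mul S c hx

theorem component_span {ι : Type*} (o : ι → MvPolynomial ℕ K) (δ : ι → ℕ)
    (hδ : ∀ i, (o i).IsHomogeneous (δ i)) (d : ℕ) {l : MvPolynomial ℕ K}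
    (hl : l ∈ Ideal.span (Set.range o)) :
    homogeneousComponent d l ∈ Submodule.span K {f | ∃ (β : ℕ →₀ ℕ) (i : ι),
      β.degree + δ i = d ∧ f = monomial β (1 : K) * o i} := by
  have h := ideal_span_le _ hl
  clear hl
  induction h using Submodule.span_induction with
  | mem x hx =>
    obtain ⟨β, _, ⟨s, rfl⟩, rfl⟩ := hx
    have h1 : (monomial β (1 : K) * o s).IsHomogeneous (β.degree + δ s) :=
      (isHomogeneous_monomial 1 rfl).mul (hδ s)
    rw [homogeneousComponent_of_mem ((mem_homogeneousSubmodule _ _).2 h1)]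
    split_ifs with h2
    · exact Submodule.subset_span ⟨β, s, h2.symm, rfl⟩
    · exact Submodule.zero_mem _
  | zero => simp
  | add x y _ _ hx hy => rw [map_add]; exact Submodule.add_mem _ hx hy
  | smul c x _ hx => rw [map_smul]; exact Submodule.smul_mem _ c hx

end MP7f
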