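import Mathlib

open MvPolynomial

namespace MP_7f6900_al

/-- A homogeneous symmetric ideal of `K[X] = K[x_0, x_1, x_2, ...]`. -/
structure HomSymIdeal (K : Type*) [Field K] where
  /-- the underlying ideal -/
  ideal : Ideal (MvPolynomial ℕ K)
  /-- it is stable under all permutations of the variables -/
  symmetric : ∀ (σ : Equiv.Perm ℕ) (f : MvPolynomial ℕ K), f ∈ ideal → rename σ f ∈ ideal
  /-- it contains all homogeneous components of its elements -/
  homogeneous : ∀ (f : MvPolynomial ℕ K), f ∈ ideal → ∀ d, homogeneousComponent d f ∈ ideal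

variable {K : Type*} [Field K]

/-- `I_n = I ∩ K[X_n]`, where `K[X_n] = K[x_0, ..., x_{n-1}]`. -/
noncomputable def HomSymIdeal.trunc (I : HomSymIdeal K) (n : ℕ) :
    Ideal (MvPolynomial (Fin n) K) :=
  Ideal.comap (rename (Fin.val : Fin n → ℕ) : MvPolynomial (Fin n) K →ₐ[K] MvPolynomial ℕ K)
    I.ideal

/-- A permutation of `{0, ..., n-1}` regarded as a permutation of `ℕ`. -/
def emb (n : ℕ) : Equiv.Perm (Fin n) →* Equiv.Perm ℕ :=
  Equiv.Perm.extendDomainHom (Fin.equivSubtype : Fin n ≃ {i // i < n})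

theorem emb_val {n : ℕ} (σ : Equiv.Perm (Fin n)) (i : Fin n) : emb n σ i = (σ i : ℕ) :=
  Equiv.Perm.extendDomain_apply_image σ (Fin.equivSubtype : Fin n ≃ {i // i < n}) i

theorem rename_emb {n : ℕ} (σ : Equiv.Perm (Fin n)) (f : MvPolynomial (Fin n) K) :
    rename (Fin.val : Fin n → ℕ) (rename σ f) =
      rename (emb n σ) (rename (Fin.val : Fin n → ℕ) f) := by
  rw [rename_rename, rename_rename]
  congr 2
  funext i
  exact (emb_val σ i).symm

/-- `I_n` is `Sym(n)`-stable. -/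
theorem HomSymIdeal.trunc_stable (I : HomSymIdeal K) {n : ℕ} (σ : Equiv.Perm (Fin n)) :
    I.trunc n ≤ Ideal.comap
      (rename σ : MvPolynomial (Fin n) K →ₐ[K] MvPolynomial (Fin n) K) (I.trunc n) := by
  intro f hf
  change rename (Fin.val : Fin n → ℕ) (rename σ f) ∈ I.ideal
  rw [rename_emb]
  exact I.symmetric _ _ hf

/-- The quotient ring `K[X_n]/I_n`. -/
def HomSymIdeal.Quo (I : HomSymIdeal K) (n : ℕ) : Type _ :=
  MvPolynomial (Fin n) K ⧸ I.trunc n

noncomputable instance HomSymIdeal.Quo.commRing (I : HomSymIdeal K) (n : ℕ) :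
    CommRing (I.Quo n) :=
  Ideal.Quotient.commRing (I.trunc n)

noncomputable instance HomSymIdeal.Quo.algebra (I : HomSymIdeal K) (n : ℕ) :
    Algebra K (I.Quo n) :=
  Ideal.Quotient.algebra K (I := I.trunc n)

/-- The projection `K[X_n] → K[X_n]/I_n`. -/
noncomputable def HomSymIdeal.proj (I : HomSymIdeal K) (n : ℕ) :
    MvPolynomial (Fin n) K →ₐ[K] I.Quo n :=
  Ideal.Quotient.mkₐ K (I.trunc n)

/-- The action of `σ ∈ Sym(n)` on `K[X_n]/I_n`. -/
noncomputable def HomSymIdeal.act (I : HomSymIdeal K) (n : ℕ) (σ : Equiv.Perm (Fin n)) :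
    I.Quo n →ₐ[K] I.Quo n :=
  Ideal.quotientMapₐ (I.trunc n)
    (rename σ : MvPolynomial (Fin n) K →ₐ[K] MvPolynomial (Fin n) K) (I.trunc_stable σ)

theorem HomSymIdeal.proj_surjective (I : HomSymIdeal K) (n : ℕ) :
    Function.Surjective (I.proj n) :=
  Ideal.Quotient.mk_surjective

theorem HomSymIdeal.act_proj (I : HomSymIdeal K) (n : ℕ) (σ : Equiv.Perm (Fin n))
    (f : MvPolynomial (Fin n) K) :
    I.act n σ (I.proj n f) = I.proj n (rename σ f) := rfl

/-- The graded piece `[K[X_n]/I_n]_d`. -/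
noncomputable def HomSymIdeal.pieceSub (I : HomSymIdeal K) (n d : ℕ) :
    Submodule K (I.Quo n) :=
  (homogeneousSubmodule (Fin n) K d).map (I.proj n).toLinearMap

theorem HomSymIdeal.act_pieceSub (I : HomSymIdeal K) {n d : ℕ} (σ : Equiv.Perm (Fin n)) :
    ∀ q ∈ I.pieceSub n d, (I.act n σ).toLinearMap q ∈ I.pieceSub n d := by
  rintro _ ⟨f, hf, rfl⟩
  exact ⟨rename σ f, IsHomogeneous.rename_isHomogeneous hf, rfl⟩

/-- The graded piece `[K[X_n]/I_n]_d`, as a type. -/
def HomSymIdeal.Piece (I : HomSymIdeal K) (n d : ℕ) : Type _ := I.pieceSub n d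

noncomputable instance HomSymIdeal.Piece.addCommGroup (I : HomSymIdeal K) (n d : ℕ) :
    AddCommGroup (I.Piece n d) :=
  Submodule.addCommGroup (I.pieceSub n d)

noncomputable instance HomSymIdeal.Piece.module (I : HomSymIdeal K) (n d : ℕ) :
    Module K (I.Piece n d) :=
  Submodule.module (I.pieceSub n d)

/-- The action of `σ ∈ Sym(n)` on `[K[X_n]/I_n]_d`. -/
noncomputable def HomSymIdeal.actPiece (I : HomSymIdeal K) (n d : ℕ) (σ : Equiv.Perm (Fin n)) :
    I.Piece n d →ₗ[K] I.Piece n d :=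
  (I.act n σ).toLinearMap.restrict (I.act_pieceSub σ)

theorem HomSymIdeal.act_one (I : HomSymIdeal K) (n : ℕ) (q : I.Quo n) : I.act n 1 q = q := by
  obtain ⟨f, rfl⟩ := I.proj_surjective n q
  rw [I.act_proj, Equiv.Perm.coe_one, rename_id_apply]

theorem HomSymIdeal.act_mul (I : HomSymIdeal K) (n : ℕ) (σ τ : Equiv.Perm (Fin n)) (q : I.Quo n) :
    I.act n (σ * τ) q = I.act n σ (I.act n τ q) := by
  obtain ⟨f, rfl⟩ := I.proj_surjective n q
  rw [I.act_proj, I.act_proj, I.act_proj, rename_rename]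
  rfl

theorem HomSymIdeal.actPiece_one (I : HomSymIdeal K) (n d : ℕ) : I.actPiece n d 1 = 1 :=
  LinearMap.ext fun q => Subtype.ext (I.act_one n q.1)

theorem HomSymIdeal.actPiece_mul (I : HomSymIdeal K) (n d : ℕ) (σ τ : Equiv.Perm (Fin n)) :
    I.actPiece n d (σ * τ) = I.actPiece n d σ * I.actPiece n d τ :=
  LinearMap.ext fun q => Subtype.ext (I.act_mul n σ τ q.1)

/-- `[K[X_n]/I_n]_d` as a representation of `Sym(n)`. -/
noncomputable def HomSymIdeal.rep (I : HomSymIdeal K) (n d : ℕ) :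
    Representation K (Equiv.Perm (Fin n)) (I.Piece n d) where
  toFun := I.actPiece n d
  map_one' := I.actPiece_one n d
  map_mul' := I.actPiece_mul n d

/-- The padding `μ(n) = (n - n₀ + μ₁, μ₂, ..., μ_ℓ)` of a partition `μ` of `n₀` (given by its
Young diagram): the first row is enlarged by `n - n₀` cells. -/
def pad (μ : YoungDiagram) (n : ℕ) : YoungDiagram where
  cells := μ.cells ∪ (Finset.range (μ.rowLen 0 + (n - μ.card))).image fun j => (0, j)
  isLowerSet := by
    rintro ⟨i, j⟩ ⟨i', j'⟩ h hmem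
    have h1 : i' ≤ i := h.1
    have h2 : j' ≤ j := h.2
    simp only [Finset.coe_union, Finset.coe_image, Finset.coe_range, Set.mem_union,
      Finset.mem_coe, YoungDiagram.mem_cells, Set.mem_image, Set.mem_Iio, Prod.mk.injEq] at hmem ⊢
    rcases hmem with hmem | ⟨x, hx, h3, h4⟩
    · left
      exact μ.up_left_mem h1 h2 hmem
    · right
      exact ⟨j', by omega, by omega, rfl⟩

/-- Permutations preserving the rows of the tableau `t`. -/
def rowGroup {ν : YoungDiagram} {n : ℕ} (t : Fin n ≃ ν.cells) : Finset (Equiv.Perm (Fin n)) :=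
  Finset.univ.filter fun σ => ∀ k, (t (σ k)).1.1 = (t k).1.1

/-- Permutations preserving the columns of the tableau `t`. -/
def colGroup {ν : YoungDiagram} {n : ℕ} (t : Fin n ≃ ν.cells) : Finset (Equiv.Perm (Fin n)) :=
  Finset.univ.filter fun σ => ∀ k, (t (σ k)).1.2 = (t k).1.2

/-- The Young symmetrizer `c_t = (∑_{p ∈ R(t)} p) (∑_{q ∈ C(t)} sgn(q) q)` of a tableau `t`
(a bijective filling of the cells of `ν` by `0, ..., n-1`). -/
noncomputable def youngSymmetrizer (K : Type*) [Field K] {ν : YoungDiagram} {n : ℕ}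
    (t : Fin n ≃ ν.cells) : MonoidAlgebra K (Equiv.Perm (Fin n)) :=
  (∑ p ∈ rowGroup t, MonoidAlgebra.single p 1) *
    ∑ q ∈ colGroup t, MonoidAlgebra.single q (((Equiv.Perm.sign q : ℤ)) : K)

/-- The irreducible (Specht) representation `V^ν = K[Sym(n)] c_t`. -/
noncomputable def specht (K : Type*) [Field K] {ν : YoungDiagram} {n : ℕ}
    (t : Fin n ≃ ν.cells) :
    Submodule (MonoidAlgebra K (Equiv.Perm (Fin n))) (MonoidAlgebra K (Equiv.Perm (Fin n))) :=
  Submodule.span _ {youngSymmetrizer K t}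

/-- The multiplicity of `V^ν` in `[K[X_n]/I_n]_d`: the dimension of
`Hom_{K[Sym(n)]}(V^ν, [K[X_n]/I_n]_d)`. -/
noncomputable def HomSymIdeal.mult (I : HomSymIdeal K) (n d : ℕ) {ν : YoungDiagram}
    (t : Fin n ≃ ν.cells) : ℕ :=
  Module.finrank K (specht K t →ₗ[MonoidAlgebra K (Equiv.Perm (Fin n))] (I.rep n d).asModule)

end MP_7f6900_al
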