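import Pool.Agent.W_MP_7f6900_al.Nice2

open MvPolynomial

namespace MP7f

open scoped Classical in
/-- finite group of permutations fixing `[0,m)` and `[n,∞)` -/
noncomputable def Gfin (m n : ℕ) : Finset (Equiv.Perm ℕ) :=
  ((Finset.univ : Finset (Equiv.Perm (Fin n))).image
    (fun σ => σ.extendDomain (Fin.equivSubtype : Fin n ≃ {i // i < n}))).filter
      (fun σ => ∀ j < m, σ j = j)

theorem mem_Gfin {m n : ℕ} {σ : Equiv.Perm ℕ} :
    σ ∈ Gfin m n ↔ (∀ j < m, σ j = j) ∧ ∀ j, n ≤ j → σ j = j := by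
  classical
  unfold Gfin
  rw [Finset.mem_filter, Finset.mem_image, and_comm]
  refine and_congr Iff.rfl ?_
  constructor
  · rintro ⟨σ, -, rfl⟩ j hj
    exact Equiv.Perm.extendDomain_apply_not_subtype _ _ (not_lt.2 hj)
  · intro h
    have hlt : ∀ j, j < n ↔ σ j < n := by
      intro j
      constructor
      · intro hj
        by_contra hcon
        have h1 := h _ (not_lt.1 hcon)
        have h2 := σ.injective h1
        omega
      · intro hj
        by_contra hcon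
        rw [h j (not_lt.1 hcon)] at hj
        exact hcon hj
    refine ⟨(Fin.equivSubtype.trans (σ.subtypePerm (p := fun j => j < n) (fun j => (hlt j).symm))).trans
      Fin.equivSubtype.symm, Finset.mem_univ _, ?_⟩
    ext j
    by_cases hj : j < n
    · rw [Equiv.Perm.extendDomain_apply_subtype _
        (Fin.equivSubtype : Fin n ≃ {i // i < n}) (b := j) hj]
      simp
    · rw [Equiv.Perm.extendDomain_apply_not_subtype _
        (Fin.equivSubtype : Fin n ≃ {i // i < n}) (b := j) hj, h j (not_lt.1 hj)]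

theorem Gfin_mul {m n : ℕ} {σ τ : Equiv.Perm ℕ} (hσ : σ ∈ Gfin m n) (hτ : τ ∈ Gfin m n) :
    σ * τ ∈ Gfin m n := by
  rw [mem_Gfin] at *
  refine ⟨fun j hj => ?_, fun j hj => ?_⟩
  · rw [Equiv.Perm.mul_apply, hτ.1 j hj, hσ.1 j hj]
  · rw [Equiv.Perm.mul_apply, hτ.2 j hj, hσ.2 j hj]

theorem Gfin_inv {m n : ℕ} {σ : Equiv.Perm ℕ} (hσ : σ ∈ Gfin m n) : σ⁻¹ ∈ Gfin m n := by
  rw [mem_Gfin] at *
  refine ⟨fun j hj => ?_, fun j hj => ?_⟩
  · rw [Equiv.Perm.inv_eq_iff_eq, hσ.1 j hj]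
  · rw [Equiv.Perm.inv_eq_iff_eq, hσ.2 j hj]

theorem one_mem_Gfin (m n : ℕ) : (1 : Equiv.Perm ℕ) ∈ Gfin m n := by
  rw [mem_Gfin]; simp

variable {K : Type*} [Field K]

section E

variable {V : Type*} [AddCommGroup V] [Module K V] (ρ : Representation K (Equiv.Perm ℕ) V)

/-- sum over the finite group -/
noncomputable def EE (m n : ℕ) : V →ₗ[K] V := ∑ g ∈ Gfin m n, ρ g

theorem EE_apply (m n : ℕ) (v : V) : EE ρ m n v = ∑ g ∈ Gfin m n, ρ g v := by
  simp [EE]

theorem EE_left {m n : ℕ} {σ : Equiv.Perm ℕ} (hσ : σ ∈ Gfin m n) (v : V) :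
    ρ σ (EE ρ m n v) = EE ρ m n v := by
  rw [EE_apply, map_sum]
  refine Finset.sum_bij (fun g _ => σ * g) (fun g hg => Gfin_mul hσ hg)
    (fun a _ b _ h => mul_left_cancel h) (fun b hb => ⟨σ⁻¹ * b, Gfin_mul (Gfin_inv hσ) hb, by simp⟩)
    (fun g _ => by rw [map_mul]; rfl)

theorem EE_right {m n : ℕ} {σ : Equiv.Perm ℕ} (hσ : σ ∈ Gfin m n) (v : V) :
    EE ρ m n (ρ σ v) = EE ρ m n v := by
  rw [EE_apply, EE_apply]
  refine Finset.sum_bij (fun g _ => g * σ) (fun g hg => Gfin_mul hg hσ)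
    (fun a _ b _ h => mul_right_cancel h)
    (fun b hb => ⟨b * σ⁻¹, Gfin_mul hb (Gfin_inv hσ), by simp⟩)
    (fun g _ => by rw [map_mul]; rfl)

theorem EE_fixed {m n : ℕ} {v : V} (hv : ∀ g ∈ Gfin m n, ρ g v = v) :
    EE ρ m n v = ((Gfin m n).card : K) • v := by
  rw [EE_apply, Finset.sum_congr rfl hv, Finset.sum_const, Nat.cast_smul_eq_nsmul]

theorem card_ne_zero' [CharZero K] (m n : ℕ) : ((Gfin m n).card : K) ≠ 0 := by
  rw [Nat.cast_ne_zero]
  exact (Finset.card_pos.2 ⟨1, one_mem_Gfin m n⟩).ne'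

theorem mkQ_EE (m n : ℕ) (v : V) :
    (Cm ρ m).mkQ (EE ρ m n v) = ((Gfin m n).card : K) • (Cm ρ m).mkQ v := by
  rw [EE_apply, map_sum, Finset.sum_congr rfl (fun g hg => mk_ρ (mem_Gfin.1 hg).1 v),
    Finset.sum_const, Nat.cast_smul_eq_nsmul]

theorem mem_Cm_of_EE [CharZero K] {m n : ℕ} {v : V} (hv : EE ρ m n v = 0) : v ∈ Cm ρ m := by
  have h := mkQ_EE ρ m n v
  rw [hv, map_zero] at h
  have h2 := (smul_eq_zero.1 h.symm).resolve_left (card_ne_zero' m n)
  rwa [Submodule.mkQ_apply, Submodule.Quotient.mk_eq_zero] at h2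

theorem EE_of_mem_Cm (hsm : ∀ v, ∃ S : Finset ℕ, Sp ρ v S) (m : ℕ) {v : V} (hv : v ∈ Cm ρ m) :
    ∃ r₀, ∀ r, r₀ ≤ r → EE ρ m r v = 0 := by
  classical
  unfold Cm at hv
  induction hv using Submodule.span_induction with
  | mem x hx =>
    obtain ⟨σ, w, hσ, rfl⟩ := hx
    obtain ⟨S, hS⟩ := hsm w
    set S' := S ∪ Finset.range m with hS'
    refine ⟨(S' ∪ S'.image σ).sup id + 1, fun r hr => ?_⟩
    obtain ⟨τ, hτ1, hτ2⟩ := extend_perm r S' σ σ.injective.injOn (by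
      intro j hj
      have h1 := Finset.le_sup (f := id) (Finset.mem_union_left (S'.image σ) hj)
      have h2 := Finset.le_sup (f := id)
        (Finset.mem_union_right S' (Finset.mem_image_of_mem σ hj))
      simp only [id] at h1 h2
      omega)
    have hτG : τ ∈ Gfin m r := by
      rw [mem_Gfin]
      refine ⟨fun j hj => ?_, hτ2⟩
      rw [hτ1 j (by simp [hS', hj]), hσ j hj]
    have hw : ρ τ w = ρ σ w := by
      have h1 : ρ (σ⁻¹ * τ) w = w := by
        apply hS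
        intro j hj
        rw [Equiv.Perm.mul_apply, Equiv.Perm.inv_eq_iff_eq, hτ1 j (by simp [hS', hj])]
      rw [map_mul] at h1
      have h2 : ρ σ (ρ σ⁻¹ (ρ τ w)) = ρ σ w := congrArg (ρ σ) h1
      rwa [Representation.self_inv_apply] at h2
    rw [map_sub, ← hw, EE_right ρ hτG, sub_self]
  | zero => exact ⟨0, fun r _ => map_zero _⟩
  | add x y _ _ hx hy =>
    obtain ⟨r1, h1⟩ := hx
    obtain ⟨r2, h2⟩ := hy
    exact ⟨max r1 r2, fun r hr => by
      rw [map_add, h1 r (le_of_max_le_left hr), h2 r (le_of_max_le_right hr), add_zero]⟩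
  | smul c x _ hx =>
    obtain ⟨r1, h1⟩ := hx
    exact ⟨r1, fun r hr => by rw [map_smul, h1 r hr, smul_zero]⟩

theorem EE_of_le_Cm (hsm : ∀ v, ∃ S : Finset ℕ, Sp ρ v S) (m : ℕ) (F : Submodule K V)
    [FiniteDimensional K F] (hF : F ≤ Cm ρ m) : ∃ r₀, ∀ r, r₀ ≤ r → ∀ v ∈ F, EE ρ m r v = 0 := by
  obtain ⟨s, hs⟩ := (Submodule.fg_iff_finiteDimensional F).2 inferInstance
  have h1 : ∀ v : s, ∃ r₀, ∀ r, r₀ ≤ r → EE ρ m r (v : V) = 0 := fun v =>
    EE_of_mem_Cm ρ hsm m (hF (hs ▸ Submodule.subset_span v.2))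
  choose r hr using h1
  refine ⟨s.attach.sup r, fun n hn v hv => ?_⟩
  rw [← hs] at hv
  induction hv using Submodule.span_induction with
  | mem x hx =>
    exact hr ⟨x, hx⟩ n ((Finset.le_sup (f := r) (Finset.mem_attach s ⟨x, hx⟩)).trans hn)
  | zero => exact map_zero _
  | add x y _ _ hx hy => rw [map_add, hx, hy, add_zero]
  | smul c x _ hx => rw [map_smul, hx, smul_zero]

end E

/-! ### the finite level -/

/-- homogeneous polynomials of degree `d` in the variables `x_j`, `j < n` -/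
noncomputable def An (K : Type*) [Field K] (n d : ℕ) : Submodule K (MvPolynomial ℕ K) :=
  Submodule.span K {f | ∃ β : ℕ →₀ ℕ, (∀ j, β j ≠ 0 → j < n) ∧ β.degree = d ∧
    f = monomial β (1 : K)}

theorem An_homog {n d : ℕ} {f : MvPolynomial ℕ K} (hf : f ∈ An K n d) : f.IsHomogeneous d := by
  have h : An K n d ≤ homogeneousSubmodule ℕ K d := by
    refine Submodule.span_le.2 ?_
    rintro _ ⟨β, _, hβ, rfl⟩
    exact isHomogeneous_monomial 1 hβ
  exact h hf

theorem An_mono {n n' d : ℕ} (h : n ≤ n') : An K n d ≤ An K n' d := by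
  apply Submodule.span_mono
  rintro _ ⟨β, h1, hβ, rfl⟩
  exact ⟨β, fun j hj => (h1 j hj).trans_le h, hβ, rfl⟩

theorem An_ρ {n d : ℕ} {σ : Equiv.Perm ℕ} (hσ : ∀ j, n ≤ j → σ j = j) {f : MvPolynomial ℕ K}
    (hf : f ∈ An K n d) : rename σ f ∈ An K n d := by
  unfold An at hf
  induction hf using Submodule.span_induction with
  | mem x hx =>
    obtain ⟨β, h1, hβ, rfl⟩ := hx
    rw [rename_monomial]
    apply Submodule.subset_span
    refine ⟨_, fun j hj => ?_, ?_, rfl⟩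
    · rw [← σ.apply_symm_apply j, Finsupp.mapDomain_apply σ.injective] at hj
      have h2 := h1 _ hj
      by_contra hcon
      have h3 := hσ j (not_lt.1 hcon)
      have h4 : σ.symm j = j := by
        rw [Equiv.symm_apply_eq, h3]
      omega
    · rw [Finsupp.degree_mapDomain, hβ]
  | zero => rw [map_zero]; exact Submodule.zero_mem _
  | add x y _ _ hx hy => rw [map_add]; exact Submodule.add_mem _ hx hy
  | smul c x _ hx => rw [map_smul]; exact Submodule.smul_mem _ c hx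

theorem An_fd (n d : ℕ) : FiniteDimensional K (An K n d) := by
  apply FiniteDimensional.span_of_finite
  have h1 : {β : ℕ →₀ ℕ | (∀ j, β j ≠ 0 → j < n) ∧ β.degree = d}.Finite := by
    classical
    refine (Finset.finite_toSet (Finset.finsuppAntidiag (Finset.range n) d)).subset ?_
    rintro β ⟨h1, h2⟩
    rw [Finset.mem_coe, Finset.mem_finsuppAntidiag']
    have h3 : β.support ⊆ Finset.range n := by
      intro j hj
      rw [Finset.mem_range]
      exact h1 j (Finsupp.mem_support_iff.1 hj)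
    exact ⟨h2, h3⟩
  refine (h1.image (fun β => monomial β (1 : K))).subset ?_
  rintro _ ⟨β, h2, h3, rfl⟩
  exact ⟨β, ⟨h2, h3⟩, rfl⟩

theorem exists_An {d : ℕ} {f : MvPolynomial ℕ K} (hf : f.IsHomogeneous d) : ∃ n, f ∈ An K n d := by
  obtain ⟨N, hN⟩ : ∃ N, ∀ j ∈ f.vars, j < N :=
    ⟨f.vars.sup id + 1, fun j hj => Nat.lt_succ_of_le (Finset.le_sup (f := id) hj)⟩
  refine ⟨N, ?_⟩
  have key : (∑ v ∈ f.support, monomial v (coeff v f)) ∈ An K N d := by
    apply Submodule.sum_mem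
    intro β hβ
    have h1 : monomial β (coeff β f) = coeff β f • monomial β (1 : K) := by
      rw [smul_monomial, smul_eq_mul, mul_one]
    rw [h1]
    apply Submodule.smul_mem
    apply Submodule.subset_span
    refine ⟨β, fun j hj => ?_, ?_, rfl⟩
    · apply hN
      rw [mem_vars_iff_mem_support]
      exact ⟨β, hβ, Finsupp.mem_support_iff.2 hj⟩
    · exact (hf.degree_eq_sum_deg_support hβ).symm
  rwa [← f.as_sum] at key

section QQ

variable (I : Ideal (MvPolynomial ℕ K)) (hI : PermInv I)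

/-- linear version of the quotient map -/
noncomputable def qm : MvPolynomial ℕ K →ₗ[K] (MvPolynomial ℕ K ⧸ I) :=
  (Ideal.Quotient.mkₐ K I).toLinearMap

theorem qm_apply (f : MvPolynomial ℕ K) : qm I f = Ideal.Quotient.mk I f := rfl

theorem exists_rep_low (m d n : ℕ) (hn : m + d ≤ n) {q : MvPolynomial ℕ K ⧸ I}
    (hq : q ∈ (An K n d).map (qm I)) :
    ∃ q' ∈ (An K (m + d) d).map (qm I), q - q' ∈ Cm (ρQ I hI) m ∧
      EE (ρQ I hI) m n q = EE (ρQ I hI) m n q' := by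
  classical
  obtain ⟨f, hf, rfl⟩ := hq
  simp only [SetLike.mem_coe] at hf
  unfold An at hf
  induction hf using Submodule.span_induction with
  | mem x hx =>
    obtain ⟨β, h1, hβ, rfl⟩ := hx
    have hcard : β.support.card ≤ d := by
      rw [← hβ, Finsupp.degree_apply, Finset.card_eq_sum_ones]
      apply Finset.sum_le_sum
      intro j hj
      exact Nat.one_le_iff_ne_zero.2 (Finsupp.mem_support_iff.1 hj)
    obtain ⟨σ, hσ1, hσ2, hσ3⟩ := exists_move m d n hn _ β.support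
      (fun j hj => h1 j (Finsupp.mem_support_iff.1 hj))
      ((Finset.card_filter_le _ _).trans hcard) rfl
    refine ⟨ρQ I hI σ (qm I (monomial β 1)), ?_, ?_, ?_⟩
    · rw [qm_apply, ρQ_mk, rename_monomial]
      refine ⟨_, Submodule.subset_span ⟨_, fun j hj => ?_, ?_, rfl⟩, rfl⟩
      · rw [← σ.apply_symm_apply j, Finsupp.mapDomain_apply σ.injective] at hj
        have := hσ3 _ (Finsupp.mem_support_iff.2 hj)
        simpa using this
      · rw [Finsupp.degree_mapDomain, hβ]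
    · rw [← neg_sub]
      exact Submodule.neg_mem _ (Submodule.subset_span ⟨σ, _, hσ1, rfl⟩)
    · rw [EE_right _ (mem_Gfin.2 ⟨hσ1, hσ2⟩)]
  | zero => exact ⟨0, Submodule.zero_mem _, by simp, by simp⟩
  | add x y _ _ hx hy =>
    obtain ⟨x', h1, h2, h3⟩ := hx
    obtain ⟨y', h1', h2', h3'⟩ := hy
    refine ⟨x' + y', Submodule.add_mem _ h1 h1', ?_, ?_⟩
    · rw [map_add, add_sub_add_comm]
      exact Submodule.add_mem _ h2 h2'
    · rw [map_add, map_add, map_add, h3, h3']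
  | smul c x _ hx =>
    obtain ⟨x', h1, h2, h3⟩ := hx
    refine ⟨c • x', Submodule.smul_mem _ c h1, ?_, ?_⟩
    · rw [map_smul, ← smul_sub]
      exact Submodule.smul_mem _ c h2
    · rw [map_smul, map_smul, map_smul, h3]

theorem stable_inj [CharZero K] (m d : ℕ) :
    ∃ n₁, ∀ n, n₁ ≤ n → ∀ q ∈ (An K n d).map (qm I), q ∈ Cm (ρQ I hI) m →
      (∀ g ∈ Gfin m n, ρQ I hI g q = q) → q = 0 := by
  have := An_fd (K := K) (m + d) d
  have hfd : FiniteDimensional K ↥((An K (m + d) d).map (qm I) ⊓ Cm (ρQ I hI) m) :=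
    Submodule.finiteDimensional_of_le (inf_le_left : _ ≤ (An K (m + d) d).map (qm I))
  obtain ⟨r₀, hr₀⟩ := EE_of_le_Cm (ρQ I hI) (eqM_Q I hI).smooth m
    ((An K (m + d) d).map (qm I) ⊓ Cm (ρQ I hI) m) inf_le_right
  refine ⟨max r₀ (m + d), fun n hn q hq hqC hqf => ?_⟩
  obtain ⟨q', h1, h2, h3⟩ := exists_rep_low I hI m d n (le_of_max_le_right hn) hq
  have h4 : q' ∈ Cm (ρQ I hI) m := by
    have := Submodule.sub_mem _ hqC h2
    simpa using this
  rw [hr₀ n (le_of_max_le_left hn) q' ⟨h1, h4⟩, EE_fixed _ hqf] at h3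
  exact (smul_eq_zero.1 h3).resolve_left (card_ne_zero' m n)

end QQ

section main

variable (I J : Ideal (MvPolynomial ℕ K)) (hI : PermInv I) (hJ : PermInv J)

theorem incl_ρ (σ : Equiv.Perm ℕ) (n : NN I J) :
    incl I J (ρN I J hI hJ σ n) = ρQ I hI σ (incl I J n) := rfl

theorem incl_Cm (m : ℕ) {n : NN I J} (hn : n ∈ Cm (ρN I J hI hJ) m) :
    incl I J n ∈ Cm (ρQ I hI) m := by
  unfold Cm at hn
  induction hn using Submodule.span_induction with
  | mem x hx =>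
    obtain ⟨σ, w, hσ, rfl⟩ := hx
    exact Submodule.subset_span ⟨σ, incl I J w, hσ, by rw [map_sub, incl_ρ]⟩
  | zero => rw [map_zero]; exact Submodule.zero_mem _
  | add x y _ _ hx hy => rw [map_add]; exact Submodule.add_mem _ hx hy
  | smul c x _ hx => rw [map_smul]; exact Submodule.smul_mem _ c hx

/-- the image of `J ∩ K[X_n]_d` in `J/I` -/
noncomputable def Nnd (n d : ℕ) : Submodule K (NN I J) :=
  ((An K n d).map (qm I)).comap (incl I J) ⊓
    { carrier := {x | ∃ f ∈ J, f ∈ An K n d ∧ Ideal.Quotient.mk I f = x}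
      add_mem' := by
        rintro a b ⟨f, hf, hfd, hfa⟩ ⟨g, hg, hgd, hga⟩
        exact ⟨f + g, J.add_mem hf hg, Submodule.add_mem _ hfd hgd, by
          rw [map_add, hfa, hga]; rfl⟩
      zero_mem' := ⟨0, J.zero_mem, Submodule.zero_mem _, by simp⟩
      smul_mem' := by
        rintro c a ⟨f, hf, hfd, hfa⟩
        refine ⟨c • f, ?_, Submodule.smul_mem _ c hfd, ?_⟩
        · rw [smul_eq_C_mul]; exact J.mul_mem_left _ hf
        · change Ideal.Quotient.mk I (c • f) = c • (a : MvPolynomial ℕ K ⧸ I)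
          rw [← hfa]
          rfl }

theorem mem_Nnd {n d : ℕ} {x : NN I J} :
    x ∈ Nnd I J n d ↔ ∃ f ∈ J, f ∈ An K n d ∧ Ideal.Quotient.mk I f = x := by
  constructor
  · intro h; exact h.2
  · rintro ⟨f, hf, hfd, hx⟩
    exact ⟨⟨f, hfd, hx⟩, ⟨f, hf, hfd, hx⟩⟩

theorem Nnd_ρ {n d : ℕ} {σ : Equiv.Perm ℕ} (hσ : ∀ j, n ≤ j → σ j = j) {x : NN I J}
    (hx : x ∈ Nnd I J n d) : ρN I J hI hJ σ x ∈ Nnd I J n d := by
  rw [mem_Nnd] at *
  obtain ⟨f, hf, hfd, hx⟩ := hx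
  refine ⟨rename σ f, hJ σ f hf, An_ρ hσ hfd, ?_⟩
  rw [coe_ρN, ← hx, ρQ_mk]

theorem finite_level [CharZero K] (m : ℕ) {ι : Type*} [Fintype ι] (a : ι → K)
    (τ : ι → Equiv.Perm ℕ) (R : ℕ) (hR : ∀ i k, R ≤ k → τ i k = k) (d : ℕ)
    (hfd : FiniteDimensional K ((Ndeg I J d).map
      ((Cm (ρN I J hI hJ) m).mkQ ∘ₗ Th (ρN I J hI hJ) a τ))) :
    ∃ n₀, ∀ n, n₀ ≤ n → Module.finrank K ((Nnd I J n d).map
        (EE (ρN I J hI hJ) m n ∘ₗ Th (ρN I J hI hJ) a τ)) =
      Module.finrank K ((Ndeg I J d).map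
        ((Cm (ρN I J hI hJ) m).mkQ ∘ₗ Th (ρN I J hI hJ) a τ)) := by
  classical
  set ρ := ρN I J hI hJ with hρ
  obtain ⟨n₁, hn₁⟩ := stable_inj I hI m d
  -- exhaustion
  obtain ⟨s, hs⟩ := (Submodule.fg_iff_finiteDimensional _).2 hfd
  have h1 : ∀ v : s, ∃ n, (v : NN I J ⧸ Cm ρ m) ∈ (Nnd I J n d).map ((Cm ρ m).mkQ ∘ₗ Th ρ a τ) := by
    intro v
    have hv : (v : NN I J ⧸ Cm ρ m) ∈ (Ndeg I J d).map ((Cm ρ m).mkQ ∘ₗ Th ρ a τ) := by
      rw [← hs]; exact Submodule.subset_span v.2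
    obtain ⟨x, ⟨f, hf, hfd, hx⟩, hxv⟩ := hv
    obtain ⟨n, hn⟩ := exists_An hfd
    exact ⟨n, x, mem_Nnd I J |>.2 ⟨f, hf, hn, hx⟩, hxv⟩
  choose n₂ hn₂ using h1
  refine ⟨max (max n₁ R) (s.attach.sup n₂), fun n hn => ?_⟩
  have hnn₁ : n₁ ≤ n := (le_max_left _ _).trans ((le_max_left _ _).trans hn)
  have hnR : R ≤ n := (le_max_right _ _).trans ((le_max_left _ _).trans hn)
  have hmono : ∀ {n n'}, n ≤ n' → Nnd I J n d ≤ Nnd I J n' d := by
    intro n n' h x hx
    rw [mem_Nnd] at *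
    obtain ⟨f, hf, hfd, hx⟩ := hx
    exact ⟨f, hf, An_mono h hfd, hx⟩
  have halpha : (Nnd I J n d).map ((Cm ρ m).mkQ ∘ₗ Th ρ a τ) =
      (Ndeg I J d).map ((Cm ρ m).mkQ ∘ₗ Th ρ a τ) := by
    apply le_antisymm
    · apply Submodule.map_mono
      intro x hx
      rw [mem_Nnd] at hx
      obtain ⟨f, hf, hfd, hx⟩ := hx
      exact ⟨f, hf, An_homog hfd, hx⟩
    · rw [← hs, Submodule.span_le]
      intro v hv
      have h2 : n₂ ⟨v, hv⟩ ≤ n := ((Finset.le_sup (f := n₂) (Finset.mem_attach s ⟨v, hv⟩)).trans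
        (le_max_right _ _)).trans hn
      exact Submodule.map_mono (hmono h2) (hn₂ ⟨v, hv⟩)
  rw [← halpha]
  -- injectivity of mkQ on the invariants
  have hmap : ((Nnd I J n d).map (EE ρ m n ∘ₗ Th ρ a τ)).map (Cm ρ m).mkQ =
      (Nnd I J n d).map ((Cm ρ m).mkQ ∘ₗ Th ρ a τ) := by
    apply le_antisymm
    · rintro _ ⟨_, ⟨x, hx, rfl⟩, rfl⟩
      rw [LinearMap.comp_apply, mkQ_EE]
      exact Submodule.smul_mem _ _ ⟨x, hx, rfl⟩
    · rintro _ ⟨x, hx, rfl⟩
      refine ⟨EE ρ m n (Th ρ a τ (((Gfin m n).card : K)⁻¹ • x)),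
        ⟨_, Submodule.smul_mem _ _ hx, rfl⟩, ?_⟩
      rw [mkQ_EE, map_smul, map_smul, smul_smul, mul_inv_cancel₀ (card_ne_zero' m n), one_smul]
      rfl
  rw [← hmap]
  have hinj : Function.Injective
      ((Cm ρ m).mkQ.domRestrict ((Nnd I J n d).map (EE ρ m n ∘ₗ Th ρ a τ))) := by
    rw [injective_iff_map_eq_zero]
    rintro ⟨_, ⟨x, hx, rfl⟩⟩ h0
    apply Subtype.ext
    rw [LinearMap.domRestrict_apply, Submodule.mkQ_apply, Submodule.Quotient.mk_eq_zero] at h0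
    change (EE ρ m n ∘ₗ Th ρ a τ) x = 0
    apply incl_inj I J
    rw [map_zero]
    have hTh : Th ρ a τ x ∈ Nnd I J n d := by
      rw [Th_apply]
      exact Submodule.sum_mem _ fun i _ => Submodule.smul_mem _ _
        (Nnd_ρ I J hI hJ (fun j hj => hR i j (hnR.trans hj)) hx)
    have hEE : (EE ρ m n ∘ₗ Th ρ a τ) x ∈ Nnd I J n d := by
      rw [LinearMap.comp_apply, EE_apply]
      exact Submodule.sum_mem _ fun g hg => Nnd_ρ I J hI hJ (mem_Gfin.1 hg).2 hTh
    apply hn₁ n hnn₁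
    · rw [mem_Nnd] at hEE
      obtain ⟨f, _, hfd, hx⟩ := hEE
      exact ⟨f, hfd, hx⟩
    · exact incl_Cm I J hI hJ m h0
    · intro g hg
      rw [← incl_ρ I J hI hJ, LinearMap.comp_apply]
      congr 1
      exact EE_left ρ hg _
  rw [← LinearMap.range_domRestrict ((Nnd I J n d).map (EE ρ m n ∘ₗ Th ρ a τ)) (Cm ρ m).mkQ,
    LinearMap.finrank_range_of_inj hinj]

end main

end MP7f
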