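import Mathlib

open scoped BigOperators

namespace MP7f

/-- A power series over `ℚ` is rational if it is the expansion of `p/q`, `q(0) ≠ 0`. -/
def IsRat (F : PowerSeries ℚ) : Prop :=
  ∃ p q : Polynomial ℚ, q.coeff 0 ≠ 0 ∧ (q : PowerSeries ℚ) * F = (p : PowerSeries ℚ)

theorem isRat_poly (p : Polynomial ℚ) : IsRat (p : PowerSeries ℚ) :=
  ⟨p, 1, by simp, by simp⟩

theorem isRat_zero : IsRat 0 := by simpa using isRat_poly 0

theorem IsRat.add {F G : PowerSeries ℚ} (hF : IsRat F) (hG : IsRat G) : IsRat (F + G) := by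
  obtain ⟨p, q, hq, h⟩ := hF
  obtain ⟨p', q', hq', h'⟩ := hG
  refine ⟨p * q' + p' * q, q * q', by simp [Polynomial.mul_coeff_zero, hq, hq'], ?_⟩
  push_cast
  rw [← h, ← h']; ring

theorem IsRat.poly_mul {F : PowerSeries ℚ} (hF : IsRat F) (r : Polynomial ℚ) :
    IsRat ((r : PowerSeries ℚ) * F) := by
  obtain ⟨p, q, hq, h⟩ := hF
  refine ⟨p * r, q, hq, ?_⟩
  push_cast
  rw [← h]; ring

theorem IsRat.neg {F : PowerSeries ℚ} (hF : IsRat F) : IsRat (-F) := by
  obtain ⟨p, q, hq, h⟩ := hF
  refine ⟨-p, q, hq, ?_⟩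
  push_cast
  rw [← h]; ring

theorem IsRat.sub {F G : PowerSeries ℚ} (hF : IsRat F) (hG : IsRat G) : IsRat (F - G) := by
  rw [sub_eq_add_neg]; exact hF.add hG.neg

theorem IsRat.sum {ι : Type*} (s : Finset ι) (F : ι → PowerSeries ℚ)
    (h : ∀ i ∈ s, IsRat (F i)) : IsRat (∑ i ∈ s, F i) := by
  classical
  induction s using Finset.induction_on with
  | empty => simpa using isRat_zero
  | insert a s ha ih =>
    rw [Finset.sum_insert ha]
    exact (h a (Finset.mem_insert_self _ _)).add
      (ih fun i hi => h i (Finset.mem_insert_of_mem hi))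

theorem IsRat.of_mul {F : PowerSeries ℚ} (r : Polynomial ℚ) (hr : r.coeff 0 ≠ 0)
    (h : IsRat ((r : PowerSeries ℚ) * F)) : IsRat F := by
  obtain ⟨p, q, hq, h⟩ := h
  refine ⟨p, q * r, by simp [Polynomial.mul_coeff_zero, hq, hr], ?_⟩
  push_cast
  rw [← h]; ring

/-- weighted degree -/
def wt {k : ℕ} (w : Fin k → ℕ) (α : Fin k → ℕ) : ℕ := ∑ i, w i * α i

theorem finite_wt {k : ℕ} (w : Fin k → ℕ) (hw : ∀ i, 0 < w i) (d : ℕ) :
    {α : Fin k → ℕ | wt w α = d}.Finite := by
  refine (Set.Finite.pi (fun _ : Fin k => Set.finite_Iic d)).subset ?_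
  intro α hα
  simp only [Set.mem_setOf_eq] at hα
  intro i _
  simp only [Set.mem_Iic]
  calc α i ≤ w i * α i := Nat.le_mul_of_pos_left _ (hw i)
    _ ≤ ∑ j, w j * α j := Finset.single_le_sum (f := fun j => w j * α j)
        (fun _ _ => Nat.zero_le _) (Finset.mem_univ i)
    _ = d := hα

theorem finite_wt' {k : ℕ} (w : Fin k → ℕ) (hw : ∀ i, 0 < w i) (c : ℕ) (d : ℕ) :
    {α : Fin k → ℕ | wt w α + c = d}.Finite := by
  refine (finite_wt w hw (d - c)).subset ?_
  intro α hα
  simp only [Set.mem_setOf_eq] at *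
  omega

/-- the counting series of the complement of `L` -/
noncomputable def cs {k : ℕ} (w : Fin k → ℕ) (L : Set (Fin k → ℕ)) : PowerSeries ℚ :=
  PowerSeries.mk fun d => (({α | α ∉ L ∧ wt w α = d} : Set (Fin k → ℕ)).ncard : ℚ)

theorem wt_cons {k : ℕ} (w : Fin (k + 1) → ℕ) (a : ℕ) (α : Fin k → ℕ) :
    wt w (Fin.cons a α) = w 0 * a + wt (fun i => w i.succ) α := by
  simp [wt, Fin.sum_univ_succ]

theorem wt_add {k : ℕ} (w : Fin k → ℕ) (α β : Fin k → ℕ) :
    wt w (α + β) = wt w α + wt w β := by
  simp [wt, mul_add, Finset.sum_add_distrib]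

theorem wt_single {k : ℕ} (w : Fin k → ℕ) (i : Fin k) (a : ℕ) :
    wt w (Pi.single i a) = w i * a := by
  classical
  simp [wt, Pi.single_apply]

/-- shifting -/
def shift {k : ℕ} (L : Set (Fin (k + 1) → ℕ)) : Set (Fin (k + 1) → ℕ) :=
  {α | α + Pi.single 0 1 ∈ L}

theorem isUpperSet_shift {k : ℕ} {L : Set (Fin (k + 1) → ℕ)} (hL : IsUpperSet L) :
    IsUpperSet (shift L) := by
  intro α β h hα
  exact hL (add_le_add_left h _) hα

theorem subset_shift {k : ℕ} {L : Set (Fin (k + 1) → ℕ)} (hL : IsUpperSet L) :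
    L ⊆ shift L := by
  intro α hα
  exact hL (le_add_of_nonneg_right (by intro i; exact Nat.zero_le _)) hα

theorem cs_rec {k : ℕ} (w : Fin (k + 1) → ℕ) (hw : ∀ i, 0 < w i)
    (L : Set (Fin (k + 1) → ℕ)) :
    cs w L = cs (fun i => w i.succ) {α | (Fin.cons 0 α : Fin (k + 1) → ℕ) ∈ L} +
      ((Polynomial.X ^ (w 0) : Polynomial ℚ) : PowerSeries ℚ) * cs w (shift L) := by
  ext d
  simp only [cs, map_add, PowerSeries.coeff_mk, Polynomial.coe_pow, Polynomial.coe_X,
    PowerSeries.coeff_X_pow_mul', PowerSeries.coeff_mk]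
  have hfin : {α : Fin (k + 1) → ℕ | α ∉ L ∧ wt w α = d}.Finite :=
    (finite_wt w hw d).subset fun α h => h.2
  -- split
  have hsplit : {α : Fin (k + 1) → ℕ | α ∉ L ∧ wt w α = d} =
      {α : Fin (k + 1) → ℕ | α 0 = 0 ∧ α ∉ L ∧ wt w α = d} ∪
      {α : Fin (k + 1) → ℕ | α 0 ≠ 0 ∧ α ∉ L ∧ wt w α = d} := by
    ext α
    simp only [Set.mem_setOf_eq, Set.mem_union]
    tauto
  rw [hsplit, Set.ncard_union_eq _ (hfin.subset fun α h => h.2) (hfin.subset fun α h => h.2)]
  · push_cast
    congr 1
    · congr 1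
      symm
      refine Set.ncard_congr (fun α _ => (Fin.cons 0 α : Fin (k + 1) → ℕ)) ?_ ?_ ?_
      · intro α hα
        simp only [Set.mem_setOf_eq] at hα ⊢
        refine ⟨by simp, hα.1, ?_⟩
        rw [wt_cons, ← hα.2]; simp
      · intro α β _ _ h
        exact (Fin.cons_injective2 (α := fun _ => ℕ) h).2
      · intro α hα
        simp only [Set.mem_setOf_eq] at hα
        refine ⟨Fin.tail α, ?_, ?_⟩
        · simp only [Set.mem_setOf_eq]
          have h1 : (Fin.cons 0 (Fin.tail α) : Fin (k + 1) → ℕ) = α := by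
            rw [← hα.1]; exact Fin.cons_self_tail α
          refine ⟨by rw [h1]; exact hα.2.1, ?_⟩
          have h2 := wt_cons w 0 (Fin.tail α)
          rw [h1, hα.2.2] at h2
          omega
        · rw [← hα.1]; exact Fin.cons_self_tail α
    · split_ifs with hd
      · congr 1
        symm
        refine Set.ncard_congr (fun α _ => α + Pi.single 0 1) ?_ ?_ ?_
        · intro α hα
          simp only [Set.mem_setOf_eq, shift] at hα ⊢
          refine ⟨by simp, hα.1, ?_⟩
          rw [wt_add, wt_single, hα.2]; omega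
        · intro α β _ _ h
          exact add_right_cancel h
        · intro α hα
          simp only [Set.mem_setOf_eq] at hα
          have h1 : (α - Pi.single 0 1) + Pi.single 0 1 = α := by
            funext i
            by_cases hi : i = 0
            · subst hi; simp; omega
            · simp [hi]
          refine ⟨α - Pi.single 0 1, ?_, h1⟩
          simp only [Set.mem_setOf_eq, shift, h1]
          refine ⟨hα.2.1, ?_⟩
          have h2 := wt_add w (α - Pi.single 0 1) (Pi.single 0 1)
          rw [h1, wt_single, hα.2.2] at h2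
          omega
      · have : {α : Fin (k + 1) → ℕ | α 0 ≠ 0 ∧ α ∉ L ∧ wt w α = d} = ∅ := by
          ext α
          simp only [Set.mem_setOf_eq, Set.mem_empty_iff_false, iff_false, not_and]
          intro h0 _ h2
          have h3 : w 0 * α 0 ≤ wt w α := Finset.single_le_sum (f := fun j => w j * α j)
            (fun _ _ => Nat.zero_le _) (Finset.mem_univ 0)
          have h4 : w 0 ≤ w 0 * α 0 := Nat.le_mul_of_pos_right _ (Nat.pos_of_ne_zero h0)
          omega
        rw [this]; simp
  · rw [Set.disjoint_left]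
    intro α h1 h2
    exact h2.1 h1.1

theorem isRat_cs : ∀ (k : ℕ) (w : Fin k → ℕ), (∀ i, 0 < w i) → ∀ L : Set (Fin k → ℕ),
    IsUpperSet L → IsRat (cs w L)
  | 0, w, _, L, _ => by
    have : cs w L = (Polynomial.C ((({α | α ∉ L ∧ wt w α = 0} : Set (Fin 0 → ℕ)).ncard : ℚ)) :
        PowerSeries ℚ) := by
      ext d
      simp only [cs, PowerSeries.coeff_mk, Polynomial.coeff_coe, Polynomial.coeff_C]
      split_ifs with h
      · subst h; rfl
      · have : {α : Fin 0 → ℕ | α ∉ L ∧ wt w α = d} = ∅ := by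
          ext α
          simp only [Set.mem_setOf_eq, Set.mem_empty_iff_false, iff_false, not_and]
          intro _ h2
          apply h
          rw [← h2]; simp [wt]
        rw [this]; simp
    rw [this]; exact isRat_poly _
  | k + 1, w, hw, L, hL => by
    -- stabilisation
    have hup : ∀ j, IsUpperSet (shift^[j] L) := by
      intro j
      induction j with
      | zero => exact hL
      | succ j ih => rw [Function.iterate_succ_apply']; exact isUpperSet_shift ih
    have hmono : Monotone fun j => shift^[j] L := by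
      apply monotone_nat_of_le_succ
      intro j
      rw [Function.iterate_succ_apply']
      exact subset_shift (hup j)
    have hstab : ∃ j, shift^[j + 1] L = shift^[j] L := by
      by_contra hcon
      push Not at hcon
      have : ∀ j, ∃ α, α ∈ shift^[j + 1] L ∧ α ∉ shift^[j] L := by
        intro j
        by_contra h
        push Not at h
        exact hcon j (Set.Subset.antisymm h (hmono (Nat.le_succ j)))
      choose α hα1 hα2 using this
      obtain ⟨i, j, hij, hle⟩ := wellQuasiOrdered_le α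
      exact hα2 j (hup j hle (hmono hij (hα1 i)))
    obtain ⟨j, hj⟩ := hstab
    have hbase : IsRat (cs w (shift^[j] L)) := by
      refine IsRat.of_mul (1 - Polynomial.X ^ (w 0)) ?_ ?_
      · rw [Polynomial.coeff_sub, Polynomial.coeff_one_zero, Polynomial.coeff_X_pow,
          if_neg (Nat.ne_of_lt (hw 0))]
        norm_num
      · have h1 := cs_rec w hw (shift^[j] L)
        rw [← Function.iterate_succ_apply' shift, hj] at h1
        have h2 : ((1 - Polynomial.X ^ (w 0) : Polynomial ℚ) : PowerSeries ℚ) *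
            cs w (shift^[j] L) = cs (fun i => w i.succ)
              {α | (Fin.cons 0 α : Fin (k + 1) → ℕ) ∈ shift^[j] L} := by
          push_cast
          rw [sub_mul, one_mul]
          nth_rewrite 1 [h1]
          push_cast
          ring
        rw [h2]
        apply isRat_cs k _ (fun i => hw _)
        intro α β h hα
        exact hup j (Fin.cons_le_cons.2 ⟨le_rfl, h⟩) hα
    have hdown : ∀ i ≤ j, IsRat (cs w (shift^[j - i] L)) := by
      intro i
      induction i with
      | zero => intro _; simpa using hbase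
      | succ i ih =>
        intro hi
        have h1 := cs_rec w hw (shift^[j - (i + 1)] L)
        rw [← Function.iterate_succ_apply' shift] at h1
        have h3 : (j - (i + 1)).succ = j - i := by omega
        rw [h3] at h1
        rw [h1]
        refine IsRat.add ?_ ((ih (by omega)).poly_mul _)
        apply isRat_cs k _ (fun i => hw _)
        intro α β h hα
        exact hup _ (Fin.cons_le_cons.2 ⟨le_rfl, h⟩) hα
    simpa using hdown j le_rfl

section LA

variable {K M : Type*} [Field K] [AddCommGroup M] [Module K M]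

theorem finrank_sup_span_singleton' {p : Submodule K M} [FiniteDimensional K p] {x : M}
    (hx : x ∉ p) : Module.finrank K ↥(p ⊔ Submodule.span K {x}) = Module.finrank K p + 1 := by
  have h := Submodule.finrank_sup_add_finrank_inf_eq p (Submodule.span K {x})
  have hx0 : x ≠ 0 := fun h0 => hx (h0 ▸ p.zero_mem)
  have h1 : p ⊓ Submodule.span K {x} = ⊥ := by
    rw [Submodule.eq_bot_iff]
    intro y hy
    obtain ⟨c, rfl⟩ := Submodule.mem_span_singleton.1 hy.2
    by_cases hc : c = 0
    · simp [hc]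
    · exact absurd ((Submodule.smul_mem_iff p hc).1 hy.1) hx
  rw [h1, finrank_bot, finrank_span_singleton hx0, add_zero] at h
  exact h

theorem finrank_sup_span {ι : Type*} [LinearOrder ι] (U : Submodule K M)
    [FiniteDimensional K U] (v : ι → M) (s : Finset ι) :
    Module.finrank K ↥(U ⊔ Submodule.span K (v '' (s : Set ι))) = Module.finrank K U +
      ({a ∈ (s : Set ι) | v a ∉ U ⊔ Submodule.span K (v '' {b ∈ (s : Set ι) | b < a})}).ncard := by
  classical
  induction s using Finset.induction_on_max with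
  | empty =>
    rw [Finset.coe_empty, Set.image_empty, Submodule.span_empty, sup_bot_eq]; simp
  | insert a s ha ih =>
    have hnot : a ∉ s := fun h => lt_irrefl _ (ha a h)
    have hset1 : {b ∈ (↑(insert a s) : Set ι) | b < a} = (s : Set ι) := by
      ext b
      simp only [Finset.coe_insert, Set.mem_insert_iff, Finset.mem_coe, Set.mem_setOf_eq]
      constructor
      · rintro ⟨rfl | h, h2⟩
        · exact absurd h2 (lt_irrefl _)
        · exact h
      · intro h
        exact ⟨Or.inr h, ha b h⟩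
    have hset2 : ∀ c ∈ s, {b ∈ (↑(insert a s) : Set ι) | b < c} = {b ∈ (s : Set ι) | b < c} := by
      intro c hc
      ext b
      simp only [Finset.coe_insert, Set.mem_insert_iff, Finset.mem_coe, Set.mem_setOf_eq]
      constructor
      · rintro ⟨rfl | h, h2⟩
        · exact absurd (h2.trans (ha c hc)) (lt_irrefl _)
        · exact ⟨h, h2⟩
      · rintro ⟨h, h2⟩
        exact ⟨Or.inr h, h2⟩
    have : FiniteDimensional K (Submodule.span K (v '' (s : Set ι))) :=
      FiniteDimensional.span_of_finite K ((Finset.finite_toSet s).image v)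
    have himg : v '' (↑(insert a s) : Set ι) = insert (v a) (v '' (s : Set ι)) := by
      rw [Finset.coe_insert, Set.image_insert_eq]
    have hsup : U ⊔ Submodule.span K (v '' (↑(insert a s) : Set ι)) =
        (U ⊔ Submodule.span K (v '' (s : Set ι))) ⊔ Submodule.span K {v a} := by
      rw [himg, Submodule.span_insert, sup_assoc, sup_comm (Submodule.span K {v a})]
    by_cases hv : v a ∈ U ⊔ Submodule.span K (v '' (s : Set ι))
    · have h1 : (U ⊔ Submodule.span K (v '' (s : Set ι))) ⊔ Submodule.span K {v a} =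
          U ⊔ Submodule.span K (v '' (s : Set ι)) := by
        rw [sup_eq_left, Submodule.span_singleton_le_iff_mem]; exact hv
      rw [hsup, h1, ih]
      congr 2
      ext c
      constructor
      · rintro ⟨hc, h2⟩
        refine ⟨Finset.mem_coe.2 (Finset.mem_insert_of_mem (Finset.mem_coe.1 hc)), ?_⟩
        rwa [hset2 c hc]
      · rintro ⟨hc, h2⟩
        rcases Finset.mem_insert.1 (Finset.mem_coe.1 hc) with rfl | hc
        · rw [hset1] at h2; exact absurd hv h2
        · rw [hset2 c hc] at h2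
          exact ⟨hc, h2⟩
    · rw [hsup, finrank_sup_span_singleton' hv, ih, add_assoc]
      congr 1
      have hfin : {c ∈ (s : Set ι) | v c ∉ U ⊔ Submodule.span K
          (v '' {b ∈ (s : Set ι) | b < c})}.Finite := (Finset.finite_toSet s).subset fun c h => h.1
      have : {c ∈ (↑(insert a s) : Set ι) | v c ∉ U ⊔ Submodule.span K
          (v '' {b ∈ (↑(insert a s) : Set ι) | b < c})} = insert a
          {c ∈ (s : Set ι) | v c ∉ U ⊔ Submodule.span K (v '' {b ∈ (s : Set ι) | b < c})} := by
        ext c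
        rw [Set.mem_insert_iff]
        constructor
        · rintro ⟨hc, h2⟩
          rcases Finset.mem_insert.1 (Finset.mem_coe.1 hc) with rfl | hc
          · exact Or.inl rfl
          · rw [hset2 c hc] at h2
            exact Or.inr ⟨hc, h2⟩
        · rintro (rfl | ⟨hc, h2⟩)
          · refine ⟨Finset.mem_coe.2 (Finset.mem_insert_self _ _), ?_⟩
            rw [hset1]; exact hv
          · refine ⟨Finset.mem_coe.2 (Finset.mem_insert_of_mem (Finset.mem_coe.1 hc)), ?_⟩
            rwa [hset2 c hc]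
      rw [this, Set.ncard_insert_of_notMem _ hfin]
      intro h
      exact hnot h.1

variable {k t : ℕ}

/-- indices in degree `d` -/
def Idx (w : Fin k → ℕ) (δ : Fin t → ℕ) (d : ℕ) : Set (Lex (Fin k → ℕ) ×ₗ Fin t) :=
  {a | wt w (ofLex (ofLex a).1) + δ (ofLex a).2 = d}

theorem finite_Idx (w : Fin k → ℕ) (hw : ∀ i, 0 < w i) (δ : Fin t → ℕ) (d : ℕ) :
    (Idx w δ d).Finite := by
  have h1 : (⋃ s : Fin t, (fun α : Fin k → ℕ => (toLex (toLex α, s) : Lex (Fin k → ℕ) ×ₗ Fin t)) ''
      {α | wt w α + δ s = d}).Finite :=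
    Set.finite_iUnion fun s => (finite_wt' w hw (δ s) d).image _
  refine h1.subset ?_
  intro a ha
  rw [Set.mem_iUnion]
  exact ⟨(ofLex a).2, ofLex (ofLex a).1, ha, rfl⟩

/-- span of the generators in degree `d` -/
def Md (w : Fin k → ℕ) (δ : Fin t → ℕ) (v : (Fin k → ℕ) → Fin t → M) (K : Type*) [Field K]
    [Module K M] (d : ℕ) : Submodule K M :=
  Submodule.span K {m | ∃ α s, wt w α + δ s = d ∧ m = v α s}

/-- `v` as function on the lexicographic type -/
def vv (v : (Fin k → ℕ) → Fin t → M) (a : Lex (Fin k → ℕ) ×ₗ Fin t) : M :=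
  v (ofLex (ofLex a).1) (ofLex a).2

theorem Md_eq (w : Fin k → ℕ) (δ : Fin t → ℕ) (v : (Fin k → ℕ) → Fin t → M) (d : ℕ) :
    Md w δ v K d = Submodule.span K (vv v '' Idx w δ d) := by
  unfold Md
  congr 1
  ext m
  constructor
  · rintro ⟨α, s, h, rfl⟩
    exact ⟨toLex (toLex α, s), h, rfl⟩
  · rintro ⟨a, h, rfl⟩
    exact ⟨_, _, h, rfl⟩

theorem finite_Md (w : Fin k → ℕ) (hw : ∀ i, 0 < w i) (δ : Fin t → ℕ)
    (v : (Fin k → ℕ) → Fin t → M) (d : ℕ) : FiniteDimensional K (Md w δ v K d) := by
  rw [Md_eq]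
  exact FiniteDimensional.span_of_finite K ((finite_Idx w hw δ d).image _)

/-- redundant exponents -/
def Red (w : Fin k → ℕ) (δ : Fin t → ℕ) (v : (Fin k → ℕ) → Fin t → M) (U : ℕ → Submodule K M)
    (s : Fin t) : Set (Fin k → ℕ) :=
  {α | vv v (toLex (toLex α, s)) ∈ U (wt w α + δ s) ⊔
    Submodule.span K (vv v '' {b ∈ Idx w δ (wt w α + δ s) | b < toLex (toLex α, s)})}

theorem shift_gen (T : Fin k → M →ₗ[K] M) (v : (Fin k → ℕ) → Fin t → M)
    (hT : ∀ i α s, T i (v α s) = v (α + Pi.single i 1) s) (w : Fin k → ℕ) (δ : Fin t → ℕ)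
    (U : ℕ → Submodule K M) (hTU : ∀ i d, (U d).map (T i) ≤ U (d + w i)) (s : Fin t)
    (α : Fin k → ℕ) (hα : α ∈ Red w δ v U s) (i : Fin k) :
    α + Pi.single i 1 ∈ Red w δ v U s := by
  unfold Red at *
  simp only [Set.mem_setOf_eq] at *
  have h1 : vv v (toLex (toLex (α + Pi.single i 1), s)) = T i (vv v (toLex (toLex α, s))) := by
    rw [vv, vv, hT]; rfl
  have h2 : wt w (α + Pi.single i 1) + δ s = (wt w α + δ s) + w i := by
    rw [wt_add, wt_single]; ring
  rw [h1, h2]
  have h3 : T i (vv v (toLex (toLex α, s))) ∈ (U (wt w α + δ s) ⊔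
    Submodule.span K (vv v '' {b ∈ Idx w δ (wt w α + δ s) | b < toLex (toLex α, s)})).map (T i) :=
    Submodule.mem_map_of_mem hα
  revert h3
  apply SetLike.le_def.1
  rw [Submodule.map_sup]
  refine sup_le_sup (hTU i _) ?_
  rw [Submodule.map_span]
  apply Submodule.span_mono
  rintro _ ⟨_, ⟨b, ⟨hb1, hb2⟩, rfl⟩, rfl⟩
  refine ⟨toLex (toLex (ofLex (ofLex b).1 + Pi.single i 1), (ofLex b).2), ⟨?_, ?_⟩, ?_⟩
  · simp only [Idx, Set.mem_setOf_eq, ofLex_toLex] at hb1 ⊢
    rw [wt_add, wt_single, ← hb1]; ring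
  · rw [Prod.Lex.lt_iff] at hb2 ⊢
    simp only [ofLex_toLex] at hb2 ⊢
    rcases hb2 with h | ⟨h, h'⟩
    · left
      exact add_lt_add_left h (toLex (Pi.single i 1))
    · right
      refine ⟨?_, h'⟩
      have h4 : ofLex (ofLex b).1 = α := by rw [h]; rfl
      rw [h4]
  · rw [vv, vv, hT]; rfl

theorem isUpperSet_Red (T : Fin k → M →ₗ[K] M) (v : (Fin k → ℕ) → Fin t → M)
    (hT : ∀ i α s, T i (v α s) = v (α + Pi.single i 1) s) (w : Fin k → ℕ) (δ : Fin t → ℕ)
    (U : ℕ → Submodule K M) (hTU : ∀ i d, (U d).map (T i) ≤ U (d + w i)) (s : Fin t) :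
    IsUpperSet (Red w δ v U s) := by
  have key : ∀ (n : ℕ) (γ : Fin k → ℕ), ∑ i, γ i = n → ∀ α ∈ Red w δ v U s,
      α + γ ∈ Red w δ v U s := by
    intro n
    induction n with
    | zero =>
      intro γ hγ α hα
      have : γ = 0 := by
        funext i
        exact (Finset.sum_eq_zero_iff.1 hγ) i (Finset.mem_univ i)
      simpa [this] using hα
    | succ n ih =>
      intro γ hγ α hα
      have : ∃ i, γ i ≠ 0 := by
        by_contra hcon
        push Not at hcon
        simp [hcon] at hγ
      obtain ⟨i, hi⟩ := this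
      have h1 : (γ - Pi.single i 1) + Pi.single i 1 = γ := by
        funext j
        by_cases hj : j = i
        · subst hj; simp; omega
        · simp [hj]
      have h2 : ∑ j, (γ - Pi.single i 1 : Fin k → ℕ) j = n := by
        have : ∑ j, ((γ - Pi.single i 1) + Pi.single i 1 : Fin k → ℕ) j = n + 1 := by
          rw [h1, hγ]
        simp only [Pi.add_apply, Finset.sum_add_distrib] at this
        rw [Finset.sum_pi_single'] at this
        simp only [Finset.mem_univ, if_true] at this
        omega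
      have h3 := shift_gen T v hT w δ U hTU s _ (ih _ h2 α hα) i
      rwa [add_assoc, h1] at h3
  intro α β h hα
  have := key _ (β - α) rfl α hα
  rwa [add_tsub_cancel_of_le h] at this

theorem finrank_Md (w : Fin k → ℕ) (hw : ∀ i, 0 < w i) (δ : Fin t → ℕ)
    (v : (Fin k → ℕ) → Fin t → M) (U : ℕ → Submodule K M) (hU : ∀ d, U d ≤ Md w δ v K d)
    (d : ℕ) :
    Module.finrank K (Md w δ v K d) = Module.finrank K (U d) +
      ∑ s : Fin t, ({α | α ∉ Red w δ v U s ∧ wt w α + δ s = d} : Set (Fin k → ℕ)).ncard := by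
  classical
  have := finite_Md (K := K) w hw δ v d
  have : FiniteDimensional K (U d) := Submodule.finiteDimensional_of_le (hU d)
  have h1 := finrank_sup_span (U d) (vv v) (finite_Idx w hw δ d).toFinset
  rw [Set.Finite.coe_toFinset, ← Md_eq, sup_eq_right.2 (hU d)] at h1
  rw [h1]
  congr 1
  have h2 : {a ∈ Idx w δ d | vv v a ∉ U d ⊔ Submodule.span K (vv v '' {b ∈ Idx w δ d | b < a})} =
      ⋃ s : Fin t, (fun α : Fin k → ℕ => (toLex (toLex α, s) : Lex (Fin k → ℕ) ×ₗ Fin t)) ''
        {α | α ∉ Red w δ v U s ∧ wt w α + δ s = d} := by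
    ext a
    rw [Set.mem_iUnion]
    constructor
    · rintro ⟨ha, hb⟩
      refine ⟨(ofLex a).2, ofLex (ofLex a).1, ⟨?_, ha⟩, rfl⟩
      intro hr
      apply hb
      have hd : wt w (ofLex (ofLex a).1) + δ (ofLex a).2 = d := ha
      have hr' := hr
      simp only [Red, Set.mem_setOf_eq] at hr'
      rw [hd] at hr'
      exact hr'
    · rintro ⟨s, α, ⟨ha, hb⟩, rfl⟩
      refine ⟨hb, ?_⟩
      intro hr
      apply ha
      simp only [Red, Set.mem_setOf_eq]
      rw [hb]
      exact hr
  rw [h2]
  have hfin : ∀ s : Fin t, ((fun α : Fin k → ℕ => (toLex (toLex α, s) : Lex (Fin k → ℕ) ×ₗ Fin t))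
      '' {α | α ∉ Red w δ v U s ∧ wt w α + δ s = d}).Finite := fun s =>
    ((finite_wt' w hw (δ s) d).subset fun α h => h.2).image _
  rw [Set.ncard_iUnion_of_finite hfin, finsum_eq_sum_of_fintype]
  · refine Finset.sum_congr rfl fun s _ => ?_
    rw [Set.ncard_image_of_injective]
    intro α β h
    have h' := congrArg (fun a => ofLex (ofLex a).1) h
    exact h'
  · intro s s' hss
    rw [Function.onFun, Set.disjoint_left]
    rintro a ⟨α, _, rfl⟩ ⟨β, _, hb⟩
    exact hss (congrArg (fun a => (ofLex a).2) hb).symm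

/-- **Hilbert–Serre** in operator form. -/
theorem HS (w : Fin k → ℕ) (hw : ∀ i, 0 < w i) (δ : Fin t → ℕ)
    (v : (Fin k → ℕ) → Fin t → M) (T : Fin k → M →ₗ[K] M)
    (hT : ∀ i α s, T i (v α s) = v (α + Pi.single i 1) s)
    (U : ℕ → Submodule K M) (hU : ∀ d, U d ≤ Md w δ v K d)
    (hTU : ∀ i d, (U d).map (T i) ≤ U (d + w i)) :
    IsRat (PowerSeries.mk fun d => (Module.finrank K (U d) : ℚ)) := by
  have key : ∀ U : ℕ → Submodule K M, (∀ i d, (U d).map (T i) ≤ U (d + w i)) →
      IsRat (PowerSeries.mk fun d => ((∑ s : Fin t, ({α | α ∉ Red w δ v U s ∧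
        wt w α + δ s = d} : Set (Fin k → ℕ)).ncard : ℕ) : ℚ)) := by
    intro U hTU
    have h1 : (PowerSeries.mk fun d => ((∑ s : Fin t, ({α | α ∉ Red w δ v U s ∧
        wt w α + δ s = d} : Set (Fin k → ℕ)).ncard : ℕ) : ℚ)) =
        ∑ s : Fin t, ((Polynomial.X ^ (δ s) : Polynomial ℚ) : PowerSeries ℚ) *
          cs w (Red w δ v U s) := by
      ext d
      rw [map_sum, PowerSeries.coeff_mk]
      push_cast
      refine Finset.sum_congr rfl fun s _ => ?_
      rw [PowerSeries.coeff_X_pow_mul', cs, PowerSeries.coeff_mk]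
      split_ifs with h
      · congr 3
        funext α
        apply propext
        refine and_congr Iff.rfl ?_
        omega
      · have : {α | α ∉ Red w δ v U s ∧ wt w α + δ s = d} = (∅ : Set (Fin k → ℕ)) := by
          ext α
          simp only [Set.mem_setOf_eq, Set.mem_empty_iff_false, iff_false, not_and]
          intro _ h2
          omega
        rw [this]; simp
    rw [h1]
    exact IsRat.sum _ _ fun s _ => (isRat_cs k w hw _
      (isUpperSet_Red T v hT w δ U hTU s)).poly_mul _
  have h1 := key U hTU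
  have h2 := key (fun _ => ⊥) (by intro i d; simp)
  have h3 : (PowerSeries.mk fun d => (Module.finrank K (U d) : ℚ)) =
      (PowerSeries.mk fun d => ((∑ s : Fin t, ({α | α ∉ Red w δ v (fun _ => (⊥ : Submodule K M)) s ∧
        wt w α + δ s = d} : Set (Fin k → ℕ)).ncard : ℕ) : ℚ)) -
      (PowerSeries.mk fun d => ((∑ s : Fin t, ({α | α ∉ Red w δ v U s ∧
        wt w α + δ s = d} : Set (Fin k → ℕ)).ncard : ℕ) : ℚ)) := by
    ext d
    rw [map_sub]
    simp only [PowerSeries.coeff_mk]
    have e1 := finrank_Md w hw δ v U hU d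
    have e2 := finrank_Md w hw δ v (fun _ => (⊥ : Submodule K M)) (fun _ => bot_le) d
    rw [e1] at e2
    simp only [finrank_bot, zero_add] at e2
    rw [← e2]
    push_cast
    ring
  rw [h3]
  exact h2.sub h1

end LA

section LA2

variable {K M : Type*} [Field K] [AddCommGroup M] [Module K M]

/-- Interface form of Hilbert–Serre. -/
theorem HS' {ι S : Type*} [Finite ι] [Finite S] (w : ι → ℕ) (hw : ∀ i, 0 < w i)
    (T : ι → M →ₗ[K] M) (hT : ∀ i j m, T i (T j m) = T j (T i m)) (γ : S → M) (δ : S → ℕ) :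
    ∃ Md : ℕ → Submodule K M, (∀ s, γ s ∈ Md (δ s)) ∧
      (∀ i d, (Md d).map (T i) ≤ Md (d + w i)) ∧ (∀ d, FiniteDimensional K (Md d)) ∧
      ∀ U : ℕ → Submodule K M, (∀ d, U d ≤ Md d) → (∀ i d, (U d).map (T i) ≤ U (d + w i)) →
        IsRat (PowerSeries.mk fun d => (Module.finrank K (U d) : ℚ)) := by
  classical
  have := Fintype.ofFinite ι
  have := Fintype.ofFinite S
  let e := Fintype.equivFin ι
  let f := Fintype.equivFin S
  let T' : Fin (Fintype.card ι) → Module.End K M := fun i => T (e.symm i)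
  have hcomm : ∀ i j, Commute (T' i) (T' j) := by
    intro i j
    apply LinearMap.ext
    intro m
    exact hT _ _ m
  have hc : ∀ (α : Fin (Fintype.card ι) → ℕ) (s : Finset (Fin (Fintype.card ι))),
      (s : Set (Fin (Fintype.card ι))).Pairwise
      (Function.onFun Commute fun i => T' i ^ α i) := fun α s i _ j _ _ =>
    (hcomm i j).pow_pow _ _
  let v : (Fin (Fintype.card ι) → ℕ) → Fin (Fintype.card S) → M := fun α s =>
    (Finset.univ.noncommProd (fun i => T' i ^ α i) (hc α _)) (γ (f.symm s))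
  have hv0 : ∀ s, v 0 s = γ (f.symm s) := by
    intro s
    have : Finset.univ.noncommProd (fun i => T' i ^ (0 : Fin (Fintype.card ι) → ℕ) i)
        (hc 0 _) = 1 := by
      apply Finset.noncommProd_eq_pow_card _ _ _ 1 (fun i _ => by simp) |>.trans
      simp
    simp only [v, this]
    rfl
  have hv : ∀ i α s, T' i (v α s) = v (α + Pi.single i 1) s := by
    intro i α s
    have h1 : ∀ α : Fin (Fintype.card ι) → ℕ,
        Finset.univ.noncommProd (fun i => T' i ^ α i) (hc α _) =
        T' i ^ α i * (Finset.univ.erase i).noncommProd (fun i => T' i ^ α i) (hc α _) := by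
      intro α
      exact (Finset.mul_noncommProd_erase _ (Finset.mem_univ i) _ _).symm
    have h2 : (Finset.univ.erase i).noncommProd (fun j => T' j ^ α j) (hc α _) =
        (Finset.univ.erase i).noncommProd (fun j => T' j ^ (α + Pi.single i 1 : Fin (Fintype.card ι) → ℕ) j)
          (hc (α + Pi.single i 1) _) := by
      apply Finset.noncommProd_congr rfl
      intro j hj
      have hji : j ≠ i := Finset.ne_of_mem_erase hj
      simp [hji]
    simp only [v]
    rw [h1 α, h1 (α + Pi.single i 1), h2, Pi.add_apply, Pi.single_eq_same, pow_succ' (T' i),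
      mul_assoc]
    rfl
  let w' : Fin (Fintype.card ι) → ℕ := fun i => w (e.symm i)
  have hw' : ∀ i, 0 < w' i := fun i => hw _
  let δ' : Fin (Fintype.card S) → ℕ := fun s => δ (f.symm s)
  refine ⟨Md w' δ' v K, ?_, ?_, ?_, ?_⟩
  · intro s
    apply Submodule.subset_span
    refine ⟨0, f s, by simp [wt, δ'], ?_⟩
    rw [hv0]; simp
  · intro i d
    rw [Md, Submodule.map_span, Submodule.span_le]
    rintro _ ⟨_, ⟨α, s, h, rfl⟩, rfl⟩
    apply Submodule.subset_span
    refine ⟨α + Pi.single (e i) 1, s, ?_, ?_⟩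
    · rw [wt_add, wt_single]
      simp only [w', Equiv.symm_apply_apply, mul_one]
      rw [← h]; ring
    · rw [← hv]
      simp [T']
  · intro d
    exact finite_Md w' hw' δ' v d
  · intro U hU hTU
    exact HS w' hw' δ' v T' hv U hU (fun i d => hTU _ _)

end LA2

end MP7f
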