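import Pool.Agent.W_MP_7f6900_al.Ops

open MvPolynomial

namespace MP7f

variable {K : Type*} [Field K]

/-- the operator of a finite family of group elements with coefficients -/
noncomputable def Th {N : Type*} [AddCommGroup N] [Module K N] {ι : Type*} [Fintype ι]
    (ρ : Representation K (Equiv.Perm ℕ) N) (a : ι → K) (σ : ι → Equiv.Perm ℕ) : N →ₗ[K] N :=
  ∑ i, a i • ρ (σ i)

theorem Th_apply {N : Type*} [AddCommGroup N] [Module K N] {ι : Type*} [Fintype ι]
    (ρ : Representation K (Equiv.Perm ℕ) N) (a : ι → K) (σ : ι → Equiv.Perm ℕ) (n : N) :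
    Th ρ a σ n = ∑ i, a i • ρ (σ i) n := by
  simp [Th]

/-- the inclusion of `J/I` in `A/I` as a `K`-linear map -/
noncomputable def incl (I J : Ideal (MvPolynomial ℕ K)) :
    NN I J →ₗ[K] (MvPolynomial ℕ K ⧸ I) := (NN I J).subtype.restrictScalars K

theorem incl_inj (I J : Ideal (MvPolynomial ℕ K)) : Function.Injective (incl I J) :=
  Subtype.coe_injective

theorem rational_step (I : Ideal (MvPolynomial ℕ K)) (hI : PermInv I) (hhom : Homog I) {D : ℕ}
    (hmin : MinRel I D) (m : ℕ) {ι : Type*} [Fintype ι] (a : ι → K) (τ : ι → Equiv.Perm ℕ)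
    (R : ℕ) (hR : ∀ i k, R ≤ k → τ i k = k) :
    (∀ d, FiniteDimensional K ((Ndeg I (Jn I D) d).map
      ((Cm (ρN I (Jn I D) hI (Jn_perm hI D)) m).mkQ ∘ₗ
        Th (ρN I (Jn I D) hI (Jn_perm hI D)) a τ))) ∧
    IsRat (PowerSeries.mk fun d => (Module.finrank K ((Ndeg I (Jn I D) d).map
      ((Cm (ρN I (Jn I D) hI (Jn_perm hI D)) m).mkQ ∘ₗ
        Th (ρN I (Jn I D) hI (Jn_perm hI D)) a τ)) : ℚ)) := by
  classical
  set J := Jn I D with hJdef
  have hJ : PermInv J := Jn_perm hI D
  set ρ := ρN I J hI hJ with hρdef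
  have hE : EqM ρ := eqM_N I J hI hJ
  obtain ⟨G, hGW, hGJ⟩ := exists_finite_gen hI D
  have hGJ' : ∀ s ∈ G, s ∈ J := by
    intro s hs
    exact (le_sup_right : _ ≤ I ⊔ Ideal.span (Wh I D)) (Ideal.subset_span (hGW hs))
  choose δ hδ using fun s : G => (hGW s.2).1
  let g : G → NN I J := fun s => ⟨Ideal.Quotient.mk I s, mem_NN.2 ⟨s, hGJ' s s.2, rfl⟩⟩
  -- support bound
  let Tb : ℕ := G.sup (fun s => s.vars.sup id + 1)
  have hSpg : ∀ s, Sp ρ (g s) (Finset.range Tb) := by
    intro s σ hσ
    apply Subtype.ext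
    rw [hρdef, coe_ρN]
    change ρQ I hI σ (Ideal.Quotient.mk I s) = Ideal.Quotient.mk I s
    rw [ρQ_mk, rename_congr_vars (τ := id)]
    · simp
    · intro j hj
      apply hσ
      rw [Finset.mem_range]
      have h1 : j ≤ (s : MvPolynomial ℕ K).vars.sup id := Finset.le_sup (f := id) hj
      have h2 : (s : MvPolynomial ℕ K).vars.sup id + 1 ≤ Tb :=
        Finset.le_sup (f := fun s : MvPolynomial ℕ K => s.vars.sup id + 1) s.2
      omega
  have hgdeg : ∀ s, g s ∈ Ndeg I J (δ s) := fun s => ⟨s, hGJ' s s.2, hδ s, rfl⟩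
  -- generation
  have hgen : ∀ d, Ndeg I J d ≤ Submodule.span K {n | ∃ (β : ℕ →₀ ℕ) (σ : Equiv.Perm ℕ) (s : G),
      β.degree + δ s = d ∧ n = monomial β (1 : K) • ρ σ (g s)} := by
    rintro d n ⟨f, hf, hfd, hfn⟩
    rw [hJdef, hGJ] at hf
    obtain ⟨x, hx, b, hb, hxb⟩ := Submodule.mem_sup.1 hf
    have horb : orb (G : Set (MvPolynomial ℕ K)) =
        Set.range (fun i : Equiv.Perm ℕ × G => rename i.1 (i.2 : MvPolynomial ℕ K)) := by
      ext y
      constructor
      · rintro ⟨σ, s, hs, rfl⟩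
        exact ⟨(σ, ⟨s, hs⟩), rfl⟩
      · rintro ⟨⟨σ, s⟩, rfl⟩
        exact ⟨σ, s, s.2, rfl⟩
    rw [horb] at hb
    have h1 := component_span (fun i : Equiv.Perm ℕ × G => rename i.1 (i.2 : MvPolynomial ℕ K))
      (fun i => δ i.2) (fun i => (hδ i.2).rename_isHomogeneous) d hb
    have h2 : Ideal.Quotient.mk I f = Ideal.Quotient.mk I (homogeneousComponent d b) := by
      have h3 : f = homogeneousComponent d f := by
        rw [homogeneousComponent_eq_self]
        exact (mem_homogeneousSubmodule _ _).2 hfd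
      have h4 : Ideal.Quotient.mk I (homogeneousComponent d x) = 0 :=
        Ideal.Quotient.eq_zero_iff_mem.2 (hhom x hx d)
      rw [h3, ← hxb, map_add, map_add, h4, zero_add]
    have h5 : incl I J n ∈ (Submodule.span K {n | ∃ (β : ℕ →₀ ℕ) (σ : Equiv.Perm ℕ) (s : G),
        β.degree + δ s = d ∧ n = monomial β (1 : K) • ρ σ (g s)}).map (incl I J) := by
      have h6 : incl I J n = (Ideal.Quotient.mkₐ K I).toLinearMap (homogeneousComponent d b) := by
        change (n : MvPolynomial ℕ K ⧸ I) = Ideal.Quotient.mk I (homogeneousComponent d b)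
        rw [← hfn, h2]
      rw [h6]
      have h7 := Submodule.mem_map_of_mem (f := (Ideal.Quotient.mkₐ K I).toLinearMap) h1
      rw [Submodule.map_span] at h7 ⊢
      revert h7
      apply SetLike.le_def.1
      apply Submodule.span_mono
      rintro _ ⟨_, ⟨β, ⟨σ, s⟩, hd, rfl⟩, rfl⟩
      refine ⟨monomial β (1 : K) • ρ σ (g s), ⟨β, σ, s, hd, rfl⟩, ?_⟩
      rfl
    rw [Submodule.mem_map] at h5
    obtain ⟨n', hn', hnn⟩ := h5
    rwa [incl_inj I J hnn] at hn'
  -- degrees of the operators
  have hcg : ∀ (i : Fin D) (s : G), cop hmin i (g s) ∈ Ndeg I J (δ s + (D - i)) := by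
    intro i s
    obtain ⟨j, hj⟩ := (hGW s.2).2
    refine ⟨(mono j).coeff i * (s : MvPolynomial ℕ K), J.mul_mem_left _ (hGJ' s s.2), ?_, ?_⟩
    · rw [add_comm]
      exact (mono_coeff j i i.2.le).mul (hδ s)
    · exact (cop_gen hmin i hj (g s) rfl).symm
  have hnice : NiceData ρ D (cop hmin) (Ndeg I J) := by
    refine ⟨fun i σ n => cop_ρ hmin hI i σ n, cop_comm hmin, fun k n => cop_rel hmin k n, ?_, ?_⟩
    · intro i d n hn
      have h1 := hgen d hn
      clear hn
      induction h1 using Submodule.span_induction with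
      | mem x hx =>
        obtain ⟨β, σ, s, hd, rfl⟩ := hx
        rw [map_smul, ← cop_ρ hmin hI]
        have h2 := Ndeg_smul I J _ _ (monomial β (1 : K)) (isHomogeneous_monomial 1 rfl) _
          (Ndeg_ρ I J hI hJ _ σ _ (hcg i s))
        have h3 : δ s + (D - i) + β.degree = d + (D - i) := by omega
        rwa [h3] at h2
      | zero => rw [map_zero]; exact Submodule.zero_mem _
      | add x y _ _ hx hy => rw [map_add]; exact Submodule.add_mem _ hx hy
      | smul c x _ hx =>
        have : cop hmin i (c • x) = c • cop hmin i x :=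
          ((cop hmin i).restrictScalars K).map_smul c x
        rw [this]; exact Submodule.smul_mem _ c hx
    · intro k d n hn
      exact Ndeg_smul I J _ _ _ (isHomogeneous_X K k) _ hn
  refine thmA hE hnice g δ Tb hSpg hgen m (Th ρ a τ) R ?_ ?_ ?_ ?_
  · intro i n
    rw [Th_apply, Th_apply, map_sum]
    refine Finset.sum_congr rfl fun l _ => ?_
    rw [hnice.c_ρ]
    exact (((cop hmin i).restrictScalars K).map_smul _ _).symm
  · intro k hk i n
    rw [Th_apply, Th_apply, Finset.smul_sum]
    refine Finset.sum_congr rfl fun l _ => ?_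
    rw [hE.smul, map_pow, rename_X, hR l k hk, smul_comm]
  · intro n S hS
    rw [Th_apply]
    have : ∀ s : Finset ι, Sp ρ (∑ i ∈ s, a i • ρ (τ i) n) (S ∪ Finset.range R) := by
      intro s
      induction s using Finset.induction_on with
      | empty =>
        intro σ _
        simp
      | insert i s hi ih =>
        rw [Finset.sum_insert hi]
        refine Sp.add (Sp.csmul _ ((hS.ren (τ i)).mono ?_)) ih
        intro x hx
        obtain ⟨y, hy, rfl⟩ := Finset.mem_image.1 hx
        rw [Finset.mem_union, Finset.mem_range]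
        by_cases hyR : y < R
        · right
          by_contra hcon
          have h8 := hR i _ (not_lt.1 hcon)
          have h9 := (τ i).injective h8
          omega
        · left
          rwa [hR i y (not_lt.1 hyR)]
    exact this _
  · intro d n hn
    rw [Th_apply]
    exact Submodule.sum_mem _ fun i _ => Submodule.smul_mem _ _ (Ndeg_ρ I J hI hJ d _ n hn)

end MP7f
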