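import Pool.Agent.W_MP_7f6900_al.Concrete

open MvPolynomial

namespace MP7f

variable {K : Type*} [Field K]

/-- `P` is the relation with leading coefficient `q` -/
def RelP (I : Ideal (MvPolynomial ℕ K)) (D : ℕ) (q : MvPolynomial ℕ K ⧸ I)
    (P : Polynomial (MvPolynomial ℕ K ⧸ I)) : Prop :=
  P.natDegree ≤ D ∧ (∀ k, P.eval (Ideal.Quotient.mk I (X k)) = 0) ∧ P.coeff D = q

variable {I : Ideal (MvPolynomial ℕ K)} {D : ℕ}

theorem RelP.unique (hmin : MinRel I D) {q : MvPolynomial ℕ K ⧸ I}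
    {P P' : Polynomial (MvPolynomial ℕ K ⧸ I)} (h : RelP I D q P) (h' : RelP I D q P') :
    P = P' := by
  have h1 : (P - P').natDegree ≤ D := (Polynomial.natDegree_sub_le _ _).trans (max_le h.1 h'.1)
  have h2 : (P - P').coeff D = 0 := by rw [Polynomial.coeff_sub, h.2.2, h'.2.2, sub_self]
  have h3 : ∀ k, (P - P').eval (Ideal.Quotient.mk I (X k)) = 0 := fun k => by
    rw [Polynomial.eval_sub, h.2.1, h'.2.1, sub_self]
  by_cases hlt : (P - P').natDegree < D
  · exact sub_eq_zero.1 (hmin _ h3 hlt)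
  · have h4 : (P - P').natDegree = D := le_antisymm h1 (not_lt.1 hlt)
    rw [← h4, Polynomial.coeff_natDegree, Polynomial.leadingCoeff_eq_zero] at h2
    exact sub_eq_zero.1 h2

theorem RelP.add {q q' : MvPolynomial ℕ K ⧸ I}
    {P P' : Polynomial (MvPolynomial ℕ K ⧸ I)} (h : RelP I D q P) (h' : RelP I D q' P') :
    RelP I D (q + q') (P + P') :=
  ⟨(Polynomial.natDegree_add_le _ _).trans (max_le h.1 h'.1),
    fun k => by rw [Polynomial.eval_add, h.2.1, h'.2.1, add_zero],
    by rw [Polynomial.coeff_add, h.2.2, h'.2.2]⟩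

theorem RelP.mul (a : MvPolynomial ℕ K ⧸ I) {q : MvPolynomial ℕ K ⧸ I}
    {P : Polynomial (MvPolynomial ℕ K ⧸ I)} (h : RelP I D q P) :
    RelP I D (a * q) (Polynomial.C a * P) :=
  ⟨(Polynomial.natDegree_C_mul_le _ _).trans h.1,
    fun k => by rw [Polynomial.eval_mul, h.2.1, mul_zero],
    by rw [Polynomial.coeff_C_mul, h.2.2]⟩

theorem NN_mul {J : Ideal (MvPolynomial ℕ K)} (a : MvPolynomial ℕ K ⧸ I)
    {q : MvPolynomial ℕ K ⧸ I} (h : q ∈ NN I J) : a * q ∈ NN I J := by
  obtain ⟨f, rfl⟩ := Ideal.Quotient.mk_surjective a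
  obtain ⟨g, hg, rfl⟩ := mem_NN.1 h
  rw [← map_mul]
  exact mem_NN.2 ⟨_, J.mul_mem_left _ hg, rfl⟩

/-- the monic polynomial `∏ (T - x_{j i})` over `A` -/
noncomputable def mono {D : ℕ} (j : Fin D → ℕ) : Polynomial (MvPolynomial ℕ K) :=
  ∏ i, (Polynomial.X - Polynomial.C (X (j i)))

theorem mono_monic {D : ℕ} (j : Fin D → ℕ) : (mono j : Polynomial (MvPolynomial ℕ K)).Monic :=
  Polynomial.monic_prod_of_monic _ _ fun _ _ => Polynomial.monic_X_sub_C _

theorem mono_natDegree {D : ℕ} (j : Fin D → ℕ) :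
    (mono j : Polynomial (MvPolynomial ℕ K)).natDegree = D := by
  rw [mono, Polynomial.natDegree_prod_of_monic _ _ fun _ _ => Polynomial.monic_X_sub_C _]
  simp

theorem mono_eval {D : ℕ} (j : Fin D → ℕ) (k : ℕ) :
    (mono j : Polynomial (MvPolynomial ℕ K)).eval (X k) = dprod j k := by
  rw [mono, Polynomial.eval_prod, dprod]
  simp

theorem mono_coeff {D : ℕ} (j : Fin D → ℕ) (i : ℕ) (hi : i ≤ D) :
    ((mono j : Polynomial (MvPolynomial ℕ K)).coeff i).IsHomogeneous (D - i) := by
  induction D generalizing i with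
  | zero =>
    have : i = 0 := by omega
    subst this
    simp [mono, isHomogeneous_one]
  | succ D ih =>
    have h1 : (mono j : Polynomial (MvPolynomial ℕ K)) =
        (Polynomial.X - Polynomial.C (X (j 0))) * mono (fun i => j i.succ) := by
      rw [mono, Fin.prod_univ_succ]; rfl
    rw [h1, sub_mul, Polynomial.coeff_sub, Polynomial.coeff_C_mul]
    rcases i with _ | i
    · rw [Polynomial.coeff_X_mul_zero, zero_sub]
      have := (isHomogeneous_X K (j 0)).mul (ih (fun i => j i.succ) 0 (by omega))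
      rw [show D + 1 - 0 = 1 + (D - 0) by omega]
      exact this.neg
    · rw [Polynomial.coeff_X_mul]
      apply IsHomogeneous.sub
      · have := ih (fun i => j i.succ) i (by omega)
        rwa [show D + 1 - (i + 1) = D - i by omega]
      · by_cases hi' : i + 1 ≤ D
        · have := (isHomogeneous_X K (j 0)).mul (ih (fun i => j i.succ) (i + 1) hi')
          rwa [show D + 1 - (i + 1) = 1 + (D - (i + 1)) by omega]
        · rw [Polynomial.coeff_eq_zero_of_natDegree_lt, mul_zero]
          · exact isHomogeneous_zero _ _ _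
          · rw [mono_natDegree]; omega

theorem RelP_gen {w : MvPolynomial ℕ K} {j : Fin D → ℕ} (hj : ∀ k, dprod j k * w ∈ I) :
    RelP I D (Ideal.Quotient.mk I w)
      (Polynomial.C (Ideal.Quotient.mk I w) * (mono j).map (Ideal.Quotient.mk I)) := by
  refine ⟨?_, ?_, ?_⟩
  · refine (Polynomial.natDegree_C_mul_le _ _).trans (Polynomial.natDegree_map_le.trans ?_)
    rw [mono_natDegree]
  · intro k
    rw [Polynomial.eval_mul, Polynomial.eval_C, Polynomial.eval_map_apply, mono_eval, ← map_mul,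
      mul_comm, Ideal.Quotient.eq_zero_iff_mem]
    exact hj k
  · rw [Polynomial.coeff_C_mul, Polynomial.coeff_map]
    have : (mono j : Polynomial (MvPolynomial ℕ K)).coeff D = 1 := by
      have := (mono_monic (K := K) j).coeff_natDegree
      rwa [mono_natDegree] at this
    rw [this, map_one, mul_one]

theorem exists_RelP {q : MvPolynomial ℕ K ⧸ I} (hq : q ∈ NN I (Jn I D)) :
    ∃ P, RelP I D q P ∧ ∀ i, P.coeff i ∈ NN I (Jn I D) := by
  obtain ⟨f, hf, rfl⟩ := mem_NN.1 hq
  obtain ⟨a, ha, b, hb, rfl⟩ := Submodule.mem_sup.1 hf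
  rw [map_add, Ideal.Quotient.eq_zero_iff_mem.2 ha, zero_add]
  clear hq hf
  induction hb using Submodule.span_induction with
  | mem x hx =>
    obtain ⟨j, hj⟩ := hx.2
    refine ⟨_, RelP_gen hj, fun i => ?_⟩
    rw [Polynomial.coeff_C_mul, mul_comm]
    apply NN_mul
    exact mem_NN.2 ⟨x, (le_sup_right : _ ≤ I ⊔ Ideal.span (Wh I D)) (Ideal.subset_span hx), rfl⟩
  | zero =>
    refine ⟨0, ⟨by simp, by simp, by simp⟩, fun i => by simp⟩
  | add x y _ _ hx hy =>
    obtain ⟨P, hP, hPc⟩ := hx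
    obtain ⟨P', hP', hPc'⟩ := hy
    refine ⟨P + P', by rw [map_add]; exact hP.add hP', fun i => ?_⟩
    rw [Polynomial.coeff_add]
    exact Submodule.add_mem _ (hPc i) (hPc' i)
  | smul c x _ hx =>
    obtain ⟨P, hP, hPc⟩ := hx
    refine ⟨_, by rw [smul_eq_mul, map_mul]; exact hP.mul _, fun i => ?_⟩
    rw [Polynomial.coeff_C_mul]
    exact NN_mul _ (hPc i)

/-- the chosen relation -/
noncomputable def PP (n : NN I (Jn I D)) : Polynomial (MvPolynomial ℕ K ⧸ I) :=
  (exists_RelP n.2).choose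

theorem PP_rel (n : NN I (Jn I D)) : RelP I D n (PP n) := (exists_RelP n.2).choose_spec.1

theorem PP_coeff (n : NN I (Jn I D)) (i : ℕ) : (PP n).coeff i ∈ NN I (Jn I D) :=
  (exists_RelP n.2).choose_spec.2 i

/-- the operators `c_i` -/
noncomputable def cop (hmin : MinRel I D) (i : Fin D) :
    NN I (Jn I D) →ₗ[MvPolynomial ℕ K] NN I (Jn I D) where
  toFun n := ⟨(PP n).coeff i, PP_coeff n i⟩
  map_add' a b := by
    apply Subtype.ext
    have h : PP (a + b) = PP a + PP b := (PP_rel (a + b)).unique hmin ((PP_rel a).add (PP_rel b))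
    simp [h]
  map_smul' f a := by
    apply Subtype.ext
    have h : PP (f • a) = Polynomial.C (Ideal.Quotient.mk I f) * PP a :=
      (PP_rel (f • a)).unique hmin ((PP_rel a).mul (Ideal.Quotient.mk I f))
    simp only [h, Polynomial.coeff_C_mul, RingHom.id_apply]
    rfl

theorem coe_cop (hmin : MinRel I D) (i : Fin D) (n : NN I (Jn I D)) :
    ((cop hmin i n : NN I (Jn I D)) : MvPolynomial ℕ K ⧸ I) = (PP n).coeff i := rfl

theorem cop_gen (hmin : MinRel I D) (i : Fin D) {w : MvPolynomial ℕ K} {j : Fin D → ℕ}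
    (hj : ∀ k, dprod j k * w ∈ I) (n : NN I (Jn I D)) (hn : (n : MvPolynomial ℕ K ⧸ I) =
      Ideal.Quotient.mk I w) :
    ((cop hmin i n : NN I (Jn I D)) : MvPolynomial ℕ K ⧸ I) =
      Ideal.Quotient.mk I ((mono j).coeff i * w) := by
  have h : PP n = _ := (PP_rel n).unique hmin (hn ▸ RelP_gen hj)
  rw [coe_cop, h, Polynomial.coeff_C_mul, Polynomial.coeff_map, hn, ← map_mul, mul_comm]

theorem cop_unique (hmin : MinRel I D) (i : Fin D) (n : NN I (Jn I D))
    (P : Polynomial (MvPolynomial ℕ K ⧸ I)) (hP : RelP I D n P) :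
    ((cop hmin i n : NN I (Jn I D)) : MvPolynomial ℕ K ⧸ I) = P.coeff i := by
  have h : PP n = P := (PP_rel n).unique hmin hP
  rw [coe_cop, h]

theorem PP_eval (n : NN I (Jn I D)) (k : ℕ) :
    (Ideal.Quotient.mk I (X k)) ^ D * (n : MvPolynomial ℕ K ⧸ I) +
      ∑ i : Fin D, (Ideal.Quotient.mk I (X k)) ^ (i : ℕ) * (PP n).coeff i = 0 := by
  have h := (PP_rel n).2.1 k
  rw [Polynomial.eval_eq_sum_range' (n := D + 1) (Nat.lt_succ_of_le (PP_rel n).1),
    Finset.sum_range_succ, (PP_rel n).2.2, add_comm, Finset.sum_range] at h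
  rw [← h]
  congr 1
  · ring
  · refine Finset.sum_congr rfl fun i _ => ?_
    ring

theorem cop_rel (hmin : MinRel I D) (k : ℕ) (n : NN I (Jn I D)) :
    (X k : MvPolynomial ℕ K) ^ D • n +
      ∑ i : Fin D, (X k : MvPolynomial ℕ K) ^ (i : ℕ) • cop hmin i n = 0 := by
  apply Subtype.ext
  have h := PP_eval n k
  rw [Submodule.coe_add, Submodule.coe_sum, Submodule.coe_zero]
  rw [← h]
  rfl

theorem cop_comm (hmin : MinRel I D) (i j : Fin D) (n : NN I (Jn I D)) :
    cop hmin i (cop hmin j n) = cop hmin j (cop hmin i n) := by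
  -- apply `cop j` to the relation of `n`
  have hP : RelP I D ((cop hmin j n : NN I (Jn I D)) : MvPolynomial ℕ K ⧸ I)
      (Polynomial.monomial D ((cop hmin j n : NN I (Jn I D)) : MvPolynomial ℕ K ⧸ I) +
        ∑ i : Fin D, Polynomial.monomial (i : ℕ)
          ((cop hmin j (cop hmin i n) : NN I (Jn I D)) : MvPolynomial ℕ K ⧸ I)) := by
    refine ⟨?_, ?_, ?_⟩
    · refine (Polynomial.natDegree_add_le _ _).trans (max_le (Polynomial.natDegree_monomial_le _)
        ((Polynomial.natDegree_sum_le _ _).trans ?_))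
      rw [Finset.fold_max_le]
      exact ⟨by omega, fun i _ => (Polynomial.natDegree_monomial_le _).trans i.2.le⟩
    · intro k
      have h := congrArg (cop hmin j) (cop_rel hmin k n)
      rw [map_add, map_sum, map_zero, map_smul] at h
      simp only [map_smul] at h
      have h' := congrArg (fun x : NN I (Jn I D) => (x : MvPolynomial ℕ K ⧸ I)) h
      simp only [Submodule.coe_add, Submodule.coe_sum, Submodule.coe_zero] at h'
      rw [Polynomial.eval_add, Polynomial.eval_monomial, Polynomial.eval_finsetSum]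
      rw [← h']
      congr 1
      · rw [mul_comm, ← map_pow]; rfl
      · refine Finset.sum_congr rfl fun i _ => ?_
        rw [Polynomial.eval_monomial, mul_comm, ← map_pow]; rfl
    · rw [Polynomial.coeff_add, Polynomial.coeff_monomial, if_pos rfl,
        Polynomial.finsetSum_coeff, Finset.sum_eq_zero, add_zero]
      intro i _
      rw [Polynomial.coeff_monomial, if_neg]
      have := i.2
      omega
  apply Subtype.ext
  rw [cop_unique hmin i _ _ hP, Polynomial.coeff_add, Polynomial.coeff_monomial,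
    if_neg (by have := i.2; omega), zero_add, Polynomial.finsetSum_coeff,
    Finset.sum_eq_single i]
  · rw [Polynomial.coeff_monomial, if_pos rfl]
  · intro b _ hb
    rw [Polynomial.coeff_monomial, if_neg]
    exact fun h => hb (Fin.ext h)
  · simp

theorem cop_ρ (hmin : MinRel I D) (hI : PermInv I) (i : Fin D) (σ : Equiv.Perm ℕ)
    (n : NN I (Jn I D)) :
    ρN I (Jn I D) hI (Jn_perm hI D) σ (cop hmin i n) =
      cop hmin i (ρN I (Jn I D) hI (Jn_perm hI D) σ n) := by
  have hP : RelP I D ((ρN I (Jn I D) hI (Jn_perm hI D) σ n : NN I (Jn I D)) :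
      MvPolynomial ℕ K ⧸ I) ((PP n).map (actQ I hI σ).toRingHom) := by
    refine ⟨Polynomial.natDegree_map_le.trans (PP_rel n).1, fun k => ?_, ?_⟩
    · have h1 : Ideal.Quotient.mk I (X k) = (actQ I hI σ).toRingHom
          (Ideal.Quotient.mk I (X (σ.symm k))) := by
        change _ = actQ I hI σ _
        rw [actQ_mk]; simp
      rw [h1, Polynomial.eval_map_apply, (PP_rel n).2.1, map_zero]
    · rw [Polynomial.coeff_map, (PP_rel n).2.2]; rfl
  apply Subtype.ext
  rw [cop_unique hmin i _ _ hP, Polynomial.coeff_map]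
  rfl

end MP7f
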