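import Pool.Agent.W_MP_7f6900_al.Defs
import Pool.Agent.W_MP_7f6900_al.Add

open MvPolynomial

namespace MP7f

open MP_7f6900_al

section T1

variable {K G V : Type*} [Field K] [CharZero K] [Group G] [Finite G] [AddCommGroup V] [Module K V]
  (ρ : Representation K G V) (c : MonoidAlgebra K G)

/-- evaluation at the generator -/
noncomputable def evc : (Submodule.span (MonoidAlgebra K G) {c} →ₗ[MonoidAlgebra K G]
    ρ.asModule) →ₗ[K] V where
  toFun f := ρ.asModuleEquiv (f ⟨c, Submodule.mem_span_singleton_self c⟩)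
  map_add' f g := by simp
  map_smul' a f := by simp

theorem evc_inj : Function.Injective (evc ρ c) := by
  intro f g h
  have h' : f ⟨c, Submodule.mem_span_singleton_self c⟩ =
      g ⟨c, Submodule.mem_span_singleton_self c⟩ := ρ.asModuleEquiv.injective h
  apply LinearMap.ext
  rintro ⟨x, hx⟩
  obtain ⟨r, rfl⟩ := Submodule.mem_span_singleton.1 hx
  have h1 : (⟨r • c, hx⟩ : Submodule.span (MonoidAlgebra K G) {c}) =
      r • ⟨c, Submodule.mem_span_singleton_self c⟩ := rfl
  rw [h1, map_smul, map_smul, h']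

theorem evc_range : LinearMap.range (evc ρ c) = LinearMap.range (ρ.asAlgebraHom c) := by
  apply le_antisymm
  · rintro _ ⟨f, rfl⟩
    obtain ⟨π, hπ⟩ := MonoidAlgebra.exists_leftInverse_of_injective
      (Submodule.span (MonoidAlgebra K G) {c}).subtype (Submodule.ker_subtype _)
    have h1 : π c = ⟨c, Submodule.mem_span_singleton_self c⟩ :=
      LinearMap.congr_fun hπ ⟨c, Submodule.mem_span_singleton_self c⟩
    refine ⟨ρ.asModuleEquiv (f (π 1)), ?_⟩
    rw [← Representation.asModuleEquiv_map_smul, ← map_smul, ← map_smul, smul_eq_mul, mul_one, h1]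
    rfl
  · rintro _ ⟨w, rfl⟩
    refine ⟨(LinearMap.toSpanSingleton (MonoidAlgebra K G) ρ.asModule
      (ρ.asModuleEquiv.symm w)).comp (Submodule.span (MonoidAlgebra K G) {c}).subtype, ?_⟩
    rfl

theorem finrank_hom : Module.finrank K (Submodule.span (MonoidAlgebra K G) {c}
      →ₗ[MonoidAlgebra K G] ρ.asModule) =
    Module.finrank K (LinearMap.range (ρ.asAlgebraHom c)) := by
  rw [← evc_range]
  exact LinearEquiv.finrank_eq (LinearEquiv.ofInjective (evc ρ c) (evc_inj ρ c))

end T1

section transfer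

variable {K : Type*} [Field K]

theorem asAlgebraHom_natural {G V V' : Type*} [Group G] [AddCommGroup V] [Module K V]
    [AddCommGroup V'] [Module K V'] (ρ : Representation K G V) (ρ' : Representation K G V')
    (f : V →ₗ[K] V') (hf : ∀ g v, f (ρ g v) = ρ' g (f v)) (c : MonoidAlgebra K G) (v : V) :
    f (ρ.asAlgebraHom c v) = ρ'.asAlgebraHom c (f v) := by
  induction c using MonoidAlgebra.induction_linear with
  | zero => simp
  | add a b ha hb => rw [map_add, map_add, LinearMap.add_apply, LinearMap.add_apply, map_add, ha, hb]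
  | single g r =>
    rw [Representation.asAlgebraHom_single, Representation.asAlgebraHom_single,
      LinearMap.smul_apply, LinearMap.smul_apply, map_smul, hf]

theorem An_eq (n d : ℕ) : An K n d = (homogeneousSubmodule (Fin n) K d).map
    (rename (Fin.val : Fin n → ℕ) : MvPolynomial (Fin n) K →ₐ[K] _).toLinearMap := by
  apply le_antisymm
  · refine Submodule.span_le.2 ?_
    rintro _ ⟨β, h1, hβ, rfl⟩
    obtain ⟨g, hg⟩ := exists_rename_eq_of_vars_subset_range (monomial β (1 : K))
      (Fin.val : Fin n → ℕ) Fin.val_injective (by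
        rw [vars_monomial one_ne_zero]
        intro j hj
        have := h1 j (Finsupp.mem_support_iff.1 hj)
        exact ⟨⟨j, this⟩, rfl⟩)
    refine ⟨g, ?_, hg⟩
    rw [SetLike.mem_coe, mem_homogeneousSubmodule,
      ← IsHomogeneous.rename_isHomogeneous_iff Fin.val_injective, hg]
    exact isHomogeneous_monomial 1 hβ
  · rintro _ ⟨f, hf, rfl⟩
    rw [SetLike.mem_coe, mem_homogeneousSubmodule] at hf
    have key : (rename (Fin.val : Fin n → ℕ) : MvPolynomial (Fin n) K →ₐ[K] _).toLinearMap
        (∑ v ∈ f.support, monomial v (coeff v f)) ∈ An K n d := by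
      rw [map_sum]
      apply Submodule.sum_mem
      intro β hβ
      rw [AlgHom.toLinearMap_apply, rename_monomial]
      have h1 : monomial (β.mapDomain (Fin.val : Fin n → ℕ)) (coeff β f) =
          coeff β f • monomial (β.mapDomain (Fin.val : Fin n → ℕ)) (1 : K) := by
        rw [smul_monomial, smul_eq_mul, mul_one]
      rw [h1]
      apply Submodule.smul_mem
      apply Submodule.subset_span
      refine ⟨_, fun j hj => ?_, ?_, rfl⟩
      · by_contra hcon
        apply hj
        apply Finsupp.mapDomain_of_notMem_range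
        rintro ⟨i, rfl⟩
        exact hcon i.2
      · rw [Finsupp.degree_mapDomain]
        exact (hf.degree_eq_sum_deg_support hβ).symm
    rwa [← f.as_sum] at key

variable (I : HomSymIdeal K)

theorem permInv_of (I : HomSymIdeal K) : PermInv I.ideal := fun σ f hf => I.symmetric σ f hf

/-- the inclusion `K[X_n]/I_n → K[X]/I` -/
noncomputable def theta (n : ℕ) : I.Quo n →ₗ[K] (MvPolynomial ℕ K ⧸ I.ideal) :=
  (Ideal.quotientMapₐ I.ideal (rename (Fin.val : Fin n → ℕ) : MvPolynomial (Fin n) K →ₐ[K] _)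
    (le_refl (I.trunc n))).toLinearMap

theorem theta_mk (n : ℕ) (f : MvPolynomial (Fin n) K) :
    theta I n (I.proj n f) =
      Ideal.Quotient.mk I.ideal (rename (Fin.val : Fin n → ℕ) f) := rfl

theorem theta_inj (n : ℕ) : Function.Injective (theta I n) := by
  rw [injective_iff_map_eq_zero]
  intro q hq
  obtain ⟨f, rfl⟩ := I.proj_surjective n q
  rw [theta_mk, Ideal.Quotient.eq_zero_iff_mem] at hq
  exact Ideal.Quotient.eq_zero_iff_mem.2 hq

theorem theta_act (n : ℕ) (σ : Equiv.Perm (Fin n)) (q : I.Quo n) :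
    theta I n (I.act n σ q) = ρQ I.ideal (permInv_of I) (emb n σ) (theta I n q) := by
  obtain ⟨f, rfl⟩ := I.proj_surjective n q
  rw [I.act_proj, theta_mk, theta_mk, ρQ_mk, rename_emb]

/-- restriction of a representation of `Perm ℕ` to `Perm (Fin n)` -/
noncomputable def res {V : Type*} [AddCommGroup V] [Module K V]
    (ρ : Representation K (Equiv.Perm ℕ) V) (n : ℕ) :
    Representation K (Equiv.Perm (Fin n)) V := ρ.comp (emb n)

theorem res_apply {V : Type*} [AddCommGroup V] [Module K V]
    (ρ : Representation K (Equiv.Perm ℕ) V) (n : ℕ) (σ : Equiv.Perm (Fin n)) (v : V) :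
    res ρ n σ v = ρ (emb n σ) v := rfl

theorem finrank_transfer (n d : ℕ) (c : MonoidAlgebra K (Equiv.Perm (Fin n))) :
    Module.finrank K (LinearMap.range ((I.rep n d).asAlgebraHom c)) =
      Module.finrank K (((An K n d).map (qm I.ideal)).map
        ((res (ρQ I.ideal (permInv_of I)) n).asAlgebraHom c)) := by
  let g : I.Piece n d →ₗ[K] (MvPolynomial ℕ K ⧸ I.ideal) :=
    (theta I n).comp (I.pieceSub n d).subtype
  have hg : Function.Injective g := (theta_inj I n).comp Subtype.coe_injective
  have hnat : ∀ v, g ((I.rep n d).asAlgebraHom c v) =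
      (res (ρQ I.ideal (permInv_of I)) n).asAlgebraHom c (g v) := fun v =>
    asAlgebraHom_natural _ _ g (fun σ v => theta_act I n σ v.1) c v
  have hrange : LinearMap.range g = (An K n d).map (qm I.ideal) := by
    rw [An_eq]
    apply le_antisymm
    · rintro _ ⟨⟨_, ⟨f, hf, rfl⟩⟩, rfl⟩
      exact ⟨_, ⟨f, hf, rfl⟩, rfl⟩
    · rintro _ ⟨_, ⟨f, hf, rfl⟩, rfl⟩
      exact ⟨⟨_, ⟨f, hf, rfl⟩⟩, rfl⟩
  have h1 : (LinearMap.range ((I.rep n d).asAlgebraHom c)).map g =
      ((An K n d).map (qm I.ideal)).map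
        ((res (ρQ I.ideal (permInv_of I)) n).asAlgebraHom c) := by
    rw [← hrange]
    apply le_antisymm
    · rintro _ ⟨_, ⟨v, rfl⟩, rfl⟩
      exact ⟨g v, ⟨v, rfl⟩, (hnat v).symm⟩
    · rintro _ ⟨_, ⟨v, rfl⟩, rfl⟩
      exact ⟨_, ⟨v, rfl⟩, hnat v⟩
  rw [← h1]
  exact LinearEquiv.finrank_eq (Submodule.equivMapOfInjective g hg _)

/-! ### change of tableau -/

theorem ys_conj {ν : YoungDiagram} {n : ℕ} (t t₀ : Fin n ≃ ν.cells) :
    youngSymmetrizer K t = MonoidAlgebra.single (t₀.trans t.symm : Equiv.Perm (Fin n)) 1 *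
      youngSymmetrizer K t₀ *
      MonoidAlgebra.single (t₀.trans t.symm : Equiv.Perm (Fin n))⁻¹ 1 := by
  set s : Equiv.Perm (Fin n) := t₀.trans t.symm with hs
  have hts : ∀ k, t (s k) = t₀ k := by
    intro k; simp [hs]
  have hts' : ∀ k, t₀ (s⁻¹ k) = t k := by
    intro k
    rw [← hts]; simp
  have hrow : ∑ p ∈ rowGroup t, (MonoidAlgebra.single p 1 : MonoidAlgebra K (Equiv.Perm (Fin n))) =
      MonoidAlgebra.single s 1 * (∑ p ∈ rowGroup t₀, MonoidAlgebra.single p 1) *
        MonoidAlgebra.single s⁻¹ 1 := by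
    rw [Finset.mul_sum, Finset.sum_mul]
    refine Finset.sum_bij' (fun p _ => s⁻¹ * p * s) (fun p _ => s * p * s⁻¹) ?_ ?_ ?_ ?_ ?_
    · intro p hp
      simp only [rowGroup, Finset.mem_filter, Finset.mem_univ, true_and] at hp ⊢
      intro k
      rw [Equiv.Perm.mul_apply, Equiv.Perm.mul_apply, hts', hp, hts]
    · intro p hp
      simp only [rowGroup, Finset.mem_filter, Finset.mem_univ, true_and] at hp ⊢
      intro k
      rw [Equiv.Perm.mul_apply, Equiv.Perm.mul_apply, hts, hp, hts']
    · intro p _; group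
    · intro p _; group
    · intro p _
      rw [MonoidAlgebra.single_mul_single, MonoidAlgebra.single_mul_single]
      congr 1
      · group
      · simp
  have hcol : ∑ q ∈ colGroup t, (MonoidAlgebra.single q (((Equiv.Perm.sign q : ℤ)) : K) :
      MonoidAlgebra K (Equiv.Perm (Fin n))) =
      MonoidAlgebra.single s 1 *
        (∑ q ∈ colGroup t₀, MonoidAlgebra.single q (((Equiv.Perm.sign q : ℤ)) : K)) *
        MonoidAlgebra.single s⁻¹ 1 := by
    rw [Finset.mul_sum, Finset.sum_mul]
    refine Finset.sum_bij' (fun p _ => s⁻¹ * p * s) (fun p _ => s * p * s⁻¹) ?_ ?_ ?_ ?_ ?_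
    · intro p hp
      simp only [colGroup, Finset.mem_filter, Finset.mem_univ, true_and] at hp ⊢
      intro k
      rw [Equiv.Perm.mul_apply, Equiv.Perm.mul_apply, hts', hp, hts]
    · intro p hp
      simp only [colGroup, Finset.mem_filter, Finset.mem_univ, true_and] at hp ⊢
      intro k
      rw [Equiv.Perm.mul_apply, Equiv.Perm.mul_apply, hts, hp, hts']
    · intro p _; group
    · intro p _; group
    · intro p _
      rw [MonoidAlgebra.single_mul_single, MonoidAlgebra.single_mul_single]
      congr 1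
      · group
      · rw [one_mul, mul_one, Equiv.Perm.sign_mul, Equiv.Perm.sign_mul, Equiv.Perm.sign_inv]
        congr 2
        rw [mul_comm, ← mul_assoc, Int.units_mul_self, one_mul]
  have hss : (MonoidAlgebra.single s⁻¹ 1 : MonoidAlgebra K (Equiv.Perm (Fin n))) *
      MonoidAlgebra.single s 1 = 1 := by
    rw [MonoidAlgebra.single_mul_single, inv_mul_cancel, mul_one]; rfl
  rw [youngSymmetrizer, youngSymmetrizer, hrow, hcol]
  calc _ = MonoidAlgebra.single s 1 * (∑ p ∈ rowGroup t₀, MonoidAlgebra.single p 1) *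
        (MonoidAlgebra.single s⁻¹ 1 * MonoidAlgebra.single s 1) *
        (∑ q ∈ colGroup t₀, MonoidAlgebra.single q (((Equiv.Perm.sign q : ℤ)) : K)) *
        MonoidAlgebra.single s⁻¹ 1 := by noncomm_ring
    _ = _ := by rw [hss]; noncomm_ring

theorem finrank_change {V : Type*} [AddCommGroup V] [Module K V] {n : ℕ}
    (ρ : Representation K (Equiv.Perm (Fin n)) V) (W : Submodule K V)
    (hW : ∀ σ, ∀ w ∈ W, ρ σ w ∈ W) {ν : YoungDiagram} (t t₀ : Fin n ≃ ν.cells) :
    Module.finrank K (W.map (ρ.asAlgebraHom (youngSymmetrizer K t))) =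
      Module.finrank K (W.map (ρ.asAlgebraHom (youngSymmetrizer K t₀))) := by
  rw [ys_conj t t₀]
  set s : Equiv.Perm (Fin n) := t₀.trans t.symm with hs
  have h1 : W.map (ρ.asAlgebraHom (MonoidAlgebra.single s 1 *
      youngSymmetrizer K t₀ * MonoidAlgebra.single s⁻¹ 1)) =
      (W.map (ρ.asAlgebraHom (youngSymmetrizer K t₀))).map (ρ s) := by
    apply le_antisymm
    · rintro _ ⟨w, hw, rfl⟩
      refine ⟨ρ.asAlgebraHom (youngSymmetrizer K t₀) (ρ s⁻¹ w), ⟨_, hW _ w hw, rfl⟩, ?_⟩
      rw [map_mul, map_mul, Representation.asAlgebraHom_single_one,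
        Representation.asAlgebraHom_single_one]
      rfl
    · rintro _ ⟨_, ⟨w, hw, rfl⟩, rfl⟩
      refine ⟨ρ s w, hW _ w hw, ?_⟩
      rw [map_mul, map_mul, Representation.asAlgebraHom_single_one,
        Representation.asAlgebraHom_single_one]
      simp only [Module.End.mul_apply]
      rw [Representation.inv_self_apply]
  rw [h1]
  exact (LinearEquiv.finrank_eq (Submodule.equivMapOfInjective (ρ s)
    (Representation.apply_bijective ρ s).1 _)).symm

end transfer

end MP7f
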