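import Pool.Agent.W_MP_7f6900_al.Rep1

open MvPolynomial

namespace MP7f

open MP_7f6900_al

theorem exists_emb {n : ℕ} {σ : Equiv.Perm ℕ} (h : ∀ j, n ≤ j → σ j = j) :
    ∃ σ' : Equiv.Perm (Fin n), emb n σ' = σ := by
  classical
  have h1 : σ ∈ Gfin 0 n := mem_Gfin.2 ⟨fun j hj => by omega, h⟩
  unfold Gfin at h1
  rw [Finset.mem_filter, Finset.mem_image] at h1
  obtain ⟨⟨σ', -, h2⟩, -⟩ := h1
  exact ⟨σ', h2⟩

theorem emb_fix {n : ℕ} (σ : Equiv.Perm (Fin n)) (j : ℕ) (hj : n ≤ j) : emb n σ j = j :=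
  Equiv.Perm.extendDomain_apply_not_subtype σ
    (Fin.equivSubtype : Fin n ≃ {i // i < n}) (b := j) (not_lt.2 hj)

theorem emb_inj (n : ℕ) : Function.Injective (emb n) :=
  Equiv.Perm.extendDomainHom_injective _

theorem mem_rowGroup {ν : YoungDiagram} {n : ℕ} {t : Fin n ≃ ν.cells} {σ : Equiv.Perm (Fin n)} :
    σ ∈ rowGroup t ↔ ∀ k, (t (σ k)).1.1 = (t k).1.1 := by
  simp [rowGroup]

theorem mem_colGroup {ν : YoungDiagram} {n : ℕ} {t : Fin n ≃ ν.cells} {σ : Equiv.Perm (Fin n)} :
    σ ∈ colGroup t ↔ ∀ k, (t (σ k)).1.2 = (t k).1.2 := by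
  simp [colGroup]

section tableau

variable (μ : YoungDiagram)

/-- cells below the first row -/
def BB : Finset (ℕ × ℕ) := μ.cells.filter fun c => ¬ c.1 = 0

/-- their number -/
def mm : ℕ := (BB μ).card

/-- enumeration of the cells below the first row -/
noncomputable def eB : Fin (mm μ) ≃ BB μ := (BB μ).equivFin.symm

/-- row function -/
noncomputable def row0 (k : ℕ) : ℕ := if h : k < mm μ then (eB μ ⟨k, h⟩).1.1 else 0

/-- column function -/
noncomputable def col0 (k : ℕ) : ℕ := if h : k < mm μ then (eB μ ⟨k, h⟩).1.2 else k - mm μ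

theorem card_eq : μ.card = mm μ + μ.rowLen 0 := by
  rw [YoungDiagram.rowLen_eq_card, mm, BB, YoungDiagram.row, add_comm]
  exact (Finset.card_filter_add_card_filter_not (fun c : ℕ × ℕ => c.1 = 0)).symm

theorem row0_pos {k : ℕ} (hk : k < mm μ) : row0 μ k ≠ 0 := by
  rw [row0, dif_pos hk]
  exact (Finset.mem_filter.1 (eB μ ⟨k, hk⟩).2).2

theorem row0_zero {k : ℕ} (hk : ¬ k < mm μ) : row0 μ k = 0 := by
  rw [row0, dif_neg hk]

theorem col0_low {k : ℕ} (hk : k < mm μ) : col0 μ k < μ.rowLen 0 := by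
  rw [col0, dif_pos hk]
  have h := (Finset.mem_filter.1 (eB μ ⟨k, hk⟩).2).1
  rw [YoungDiagram.mem_cells] at h
  have h2 := μ.up_left_mem (Nat.zero_le _) le_rfl h
  exact YoungDiagram.mem_iff_lt_rowLen.1 h2

theorem col0_high {k : ℕ} (hk : ¬ k < mm μ) : col0 μ k = k - mm μ := by
  rw [col0, dif_neg hk]

theorem mem_pad {n : ℕ} {c : ℕ × ℕ} : c ∈ (pad μ n).cells ↔
    c ∈ μ.cells ∨ ∃ j, j < μ.rowLen 0 + (n - μ.card) ∧ (0, j) = c := by
  simp [pad]

theorem cell_mem {n : ℕ} (hn : μ.card ≤ n) (k : Fin n) :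
    (row0 μ k, col0 μ k) ∈ (pad μ n).cells := by
  rw [mem_pad]
  by_cases hk : (k : ℕ) < mm μ
  · left
    have h := (Finset.mem_filter.1 (eB μ ⟨k, hk⟩).2).1
    rw [row0, dif_pos hk, col0, dif_pos hk]
    exact h
  · right
    refine ⟨k - mm μ, ?_, ?_⟩
    · have := card_eq μ
      have := k.2
      omega
    · rw [row0_zero μ hk, col0_high μ hk]

/-- the special tableau -/
noncomputable def t0 {n : ℕ} (hn : μ.card ≤ n) : Fin n ≃ (pad μ n).cells :=
  Equiv.ofBijective (fun k => ⟨(row0 μ k, col0 μ k), cell_mem μ hn k⟩) (by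
    constructor
    · intro k k' h
      have h1 := Subtype.ext_iff.1 h
      simp only [Prod.mk.injEq] at h1
      obtain ⟨h1, h2⟩ := h1
      by_cases hk : (k : ℕ) < mm μ
      · have hk' : (k' : ℕ) < mm μ := by
          by_contra hcon
          rw [row0_zero μ hcon] at h1
          exact row0_pos μ hk h1
        rw [row0, dif_pos hk, row0, dif_pos hk'] at h1
        rw [col0, dif_pos hk, col0, dif_pos hk'] at h2
        have h3 := (eB μ).injective (Subtype.ext (Prod.ext h1 h2))
        exact Fin.ext (Fin.mk.inj_iff.1 h3)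
      · have hk' : ¬ (k' : ℕ) < mm μ := by
          intro hcon
          rw [row0_zero μ hk] at h1
          exact row0_pos μ hcon h1.symm
        rw [col0_high μ hk, col0_high μ hk'] at h2
        apply Fin.ext
        omega
    · rintro ⟨c, hc⟩
      have hcard := card_eq μ
      rw [mem_pad] at hc
      by_cases h0 : c.1 = 0
      · have hj : c.2 < n - mm μ := by
          rcases hc with hc | ⟨j, hj, rfl⟩
          · rw [YoungDiagram.mem_cells] at hc
            have h1 : (c.1, c.2) ∈ μ := hc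
            rw [h0] at h1
            have := YoungDiagram.mem_iff_lt_rowLen.1 h1
            omega
          · simp only; omega
        refine ⟨⟨mm μ + c.2, by omega⟩, ?_⟩
        apply Subtype.ext
        have h1 : ¬ mm μ + c.2 < mm μ := by omega
        apply Prod.ext
        · simp only [row0_zero μ h1, h0]
        · simp only [col0_high μ h1]; omega
      · have hc' : c ∈ BB μ := by
          rcases hc with hc | ⟨j, hj, rfl⟩
          · exact Finset.mem_filter.2 ⟨hc, h0⟩
          · exact absurd rfl h0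
        set k := (eB μ).symm ⟨c, hc'⟩ with hk
        have hk2 : (k : ℕ) < n := by
          have := k.2
          omega
        refine ⟨⟨k, hk2⟩, ?_⟩
        apply Subtype.ext
        have h1 : eB μ ⟨(k : ℕ), k.2⟩ = ⟨c, hc'⟩ := by
          rw [Fin.eta, hk, Equiv.apply_symm_apply]
        apply Prod.ext
        · simp only [row0, dif_pos k.2, h1]
        · simp only [col0, dif_pos k.2, h1])

theorem t0_row {n : ℕ} (hn : μ.card ≤ n) (k : Fin n) : (t0 μ hn k).1.1 = row0 μ k := rfl
theorem t0_col {n : ℕ} (hn : μ.card ≤ n) (k : Fin n) : (t0 μ hn k).1.2 = col0 μ k := rfl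

open scoped Classical in
/-- row stabilizer of the lower rows -/
noncomputable def RL : Finset (Equiv.Perm ℕ) :=
  (Gfin 0 (mm μ)).filter fun r => ∀ k, row0 μ (r k) = row0 μ k

/-- column stabilizer -/
noncomputable def CL : Finset (Equiv.Perm (Fin μ.card)) :=
  Finset.univ.filter fun q => ∀ k : Fin μ.card, col0 μ (q k) = col0 μ k

open scoped Classical in
theorem sum_row {M : Type*} [AddCommMonoid M] {n : ℕ} (hn : μ.card ≤ n)
    (f : Equiv.Perm ℕ → M) :
    ∑ p ∈ rowGroup (t0 μ hn), f (emb n p) = ∑ g ∈ Gfin (mm μ) n, ∑ r ∈ RL μ, f (g * r) := by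
  have hmn : mm μ ≤ n := by
    have := card_eq μ
    omega
  have h1 : ∑ p ∈ rowGroup (t0 μ hn), f (emb n p) =
      ∑ p ∈ (Gfin 0 n).filter (fun p => ∀ k, row0 μ (p k) = row0 μ k), f p := by
    refine Finset.sum_bij (fun p _ => emb n p) ?_ (fun a _ b _ h => emb_inj n h) ?_
      (fun _ _ => rfl)
    · intro p hp
      simp only [mem_rowGroup, t0_row] at hp
      rw [Finset.mem_filter, mem_Gfin]
      refine ⟨⟨fun j hj => by omega, emb_fix p⟩, fun k => ?_⟩
      by_cases hk : k < n
      · have := emb_val p ⟨k, hk⟩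
        simp only at this
        rw [this]
        exact hp ⟨k, hk⟩
      · rw [emb_fix p k (not_lt.1 hk)]
    · intro b hb
      rw [Finset.mem_filter, mem_Gfin] at hb
      obtain ⟨p, rfl⟩ := exists_emb hb.1.2
      refine ⟨p, ?_, rfl⟩
      simp only [mem_rowGroup, t0_row]
      intro k
      have := hb.2 k
      rwa [emb_val] at this
  rw [h1, ← Finset.sum_product']
  symm
  refine Finset.sum_bij (fun x _ => x.1 * x.2) ?_ ?_ ?_ (fun _ _ => rfl)
  · rintro ⟨g, r⟩ hx
    rw [Finset.mem_product] at hx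
    obtain ⟨hg, hr⟩ := hx
    rw [RL, Finset.mem_filter, mem_Gfin] at hr
    rw [mem_Gfin] at hg
    rw [Finset.mem_filter, mem_Gfin]
    refine ⟨⟨fun j hj => by omega, fun j hj => ?_⟩, fun k => ?_⟩
    · rw [Equiv.Perm.mul_apply, hr.1.2 j (hmn.trans hj), hg.2 j hj]
    · rw [Equiv.Perm.mul_apply]
      simp only at hr hg ⊢
      have hgrow : ∀ j, row0 μ (g j) = row0 μ j := by
        intro j
        by_cases hj : j < mm μ
        · rw [hg.1 j hj]
        · have hgj : ¬ g j < mm μ := by
            intro hcon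
            have h2 := hg.1 _ hcon
            have h3 := g.injective h2
            omega
          rw [row0_zero μ hj, row0_zero μ hgj]
      rw [hgrow, hr.2 k]
  · rintro ⟨g, r⟩ hx ⟨g', r'⟩ hx' h
    rw [Finset.mem_product] at hx hx'
    obtain ⟨hg, hr⟩ := hx
    obtain ⟨hg', hr'⟩ := hx'
    simp only [RL, Finset.mem_filter, mem_Gfin] at hg hr hg' hr' h
    have hrlt : ∀ k, k < mm μ → r k < mm μ := by
      intro k hk
      by_contra hcon
      have h2 := hr.1.2 _ (not_lt.1 hcon)
      have h3 := r.injective h2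
      omega
    have hrlt' : ∀ k, k < mm μ → r' k < mm μ := by
      intro k hk
      by_contra hcon
      have h2 := hr'.1.2 _ (not_lt.1 hcon)
      have h3 := r'.injective h2
      omega
    have hrr : r = r' := by
      ext k
      by_cases hk : k < mm μ
      · have h2 : (g * r) k = (g' * r') k := by rw [h]
        rw [Equiv.Perm.mul_apply, Equiv.Perm.mul_apply, hg.1 _ (hrlt k hk),
          hg'.1 _ (hrlt' k hk)] at h2
        exact h2
      · rw [hr.1.2 k (not_lt.1 hk), hr'.1.2 k (not_lt.1 hk)]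
    subst hrr
    have hgg : g = g' := mul_right_cancel h
    rw [hgg]
  · intro p hp
    rw [Finset.mem_filter, mem_Gfin] at hp
    obtain ⟨⟨-, hp1⟩, hp2⟩ := hp
    have hlt : ∀ k, p k < mm μ ↔ k < mm μ := by
      intro k
      constructor
      · intro hk
        by_contra hcon
        have h2 := hp2 k
        rw [row0_zero μ hcon] at h2
        exact row0_pos μ hk h2
      · intro hk
        by_contra hcon
        have h2 := hp2 k
        rw [row0_zero μ hcon] at h2
        exact row0_pos μ hk h2.symm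
    set r : Equiv.Perm ℕ := Equiv.Perm.ofSubtype
      (p.subtypePerm (p := fun k => k < mm μ) hlt) with hr
    have hr1 : ∀ k, k < mm μ → r k = p k := by
      intro k hk
      rw [hr, Equiv.Perm.ofSubtype_apply_of_mem (p := fun k => k < mm μ) (a := k) _ hk]
      rfl
    have hr2 : ∀ k, ¬ k < mm μ → r k = k := by
      intro k hk
      rw [hr, Equiv.Perm.ofSubtype_apply_of_not_mem (p := fun k => k < mm μ) (a := k) _ hk]
    have happ : ∀ k, r (r⁻¹ k) = k := fun k => by simp
    have hrinv2 : ∀ k, ¬ k < mm μ → r⁻¹ k = k := by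
      intro k hk
      rw [Equiv.Perm.inv_eq_iff_eq, hr2 k hk]
    have hrinv1 : ∀ k, k < mm μ → r⁻¹ k < mm μ := by
      intro k hk
      by_contra hcon
      have h2 := hr2 _ hcon
      rw [happ] at h2
      omega
    refine ⟨(p * r⁻¹, r), ?_, by simp⟩
    rw [Finset.mem_product]
    constructor
    · simp only
      rw [mem_Gfin]
      constructor
      · intro j hj
        rw [Equiv.Perm.mul_apply, ← hr1 _ (hrinv1 j hj), happ]
      · intro j hj
        rw [Equiv.Perm.mul_apply, hrinv2 j (by omega), hp1 j hj]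
    · simp only
      rw [RL, Finset.mem_filter, mem_Gfin]
      refine ⟨⟨fun j hj => by omega, fun j hj => hr2 j (by omega)⟩, fun k => ?_⟩
      by_cases hk : k < mm μ
      · rw [hr1 k hk, hp2]
      · rw [hr2 k hk]

/-- extension of permutations from `Fin R` to `Fin n` -/
def extRN {R n : ℕ} (h : R ≤ n) (q : Equiv.Perm (Fin R)) : Equiv.Perm (Fin n) :=
  q.extendDomain (p := fun x : Fin n => (x : ℕ) < R)
    { toFun := fun i => ⟨⟨i, lt_of_lt_of_le i.2 h⟩, i.2⟩
      invFun := fun x => ⟨x.1, x.2⟩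
      left_inv := fun _ => rfl
      right_inv := fun _ => rfl }

theorem extRN_low {R n : ℕ} (h : R ≤ n) (q : Equiv.Perm (Fin R)) (i : Fin R) :
    extRN h q ⟨i, lt_of_lt_of_le i.2 h⟩ = ⟨q i, lt_of_lt_of_le (q i).2 h⟩ :=
  Equiv.Perm.extendDomain_apply_image q
    (f := { toFun := fun i => ⟨⟨i, lt_of_lt_of_le i.2 h⟩, i.2⟩
            invFun := fun x => ⟨x.1, x.2⟩
            left_inv := fun _ => rfl
            right_inv := fun _ => rfl : Fin R ≃ {x : Fin n // (x : ℕ) < R} }) i

theorem extRN_high {R n : ℕ} (h : R ≤ n) (q : Equiv.Perm (Fin R)) (x : Fin n)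
    (hx : ¬ (x : ℕ) < R) : extRN h q x = x :=
  Equiv.Perm.extendDomain_apply_not_subtype q _ hx

theorem sign_extRN {R n : ℕ} (h : R ≤ n) (q : Equiv.Perm (Fin R)) :
    Equiv.Perm.sign (extRN h q) = Equiv.Perm.sign q :=
  Equiv.Perm.sign_extendDomain q _

theorem emb_extRN {R n : ℕ} (h : R ≤ n) (q : Equiv.Perm (Fin R)) :
    emb n (extRN h q) = emb R q := by
  ext k
  by_cases hk : k < n
  · have h1 := emb_val (extRN h q) ⟨k, hk⟩
    simp only at h1
    rw [h1]
    by_cases hkR : k < R
    · have h2 := emb_val q ⟨k, hkR⟩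
      simp only at h2
      rw [h2]
      have h3 := extRN_low h q ⟨k, hkR⟩
      simp only at h3
      rw [h3]
    · rw [extRN_high h q ⟨k, hk⟩ hkR, emb_fix q k (not_lt.1 hkR)]
  · rw [emb_fix _ k (not_lt.1 hk), emb_fix _ k (by omega)]

theorem sum_col {M : Type*} [AddCommMonoid M] {n : ℕ} (hn : μ.card ≤ n)
    (f : ℤˣ → Equiv.Perm ℕ → M) :
    ∑ q ∈ colGroup (t0 μ hn), f (Equiv.Perm.sign q) (emb n q) =
      ∑ q ∈ CL μ, f (Equiv.Perm.sign q) (emb μ.card q) := by
  symm
  refine Finset.sum_bij (fun q _ => extRN hn q) ?_ ?_ ?_ ?_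
  · intro q hq
    simp only [CL, Finset.mem_filter, Finset.mem_univ, true_and] at hq
    simp only [mem_colGroup, t0_col]
    intro x
    by_cases hx : (x : ℕ) < μ.card
    · have h3 := extRN_low hn q ⟨x, hx⟩
      simp only [Fin.eta] at h3
      rw [h3]
      exact hq ⟨x, hx⟩
    · rw [extRN_high hn q x hx]
  · intro q _ q' _ h
    apply emb_inj μ.card
    have h' : extRN hn q = extRN hn q' := h
    rw [← emb_extRN hn, ← emb_extRN hn, h']
  · intro q hq
    simp only [mem_colGroup, t0_col] at hq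
    have hq' : ∀ k, col0 μ (emb n q k) = col0 μ k := by
      intro k
      by_cases hk : k < n
      · have := emb_val q ⟨k, hk⟩
        simp only at this
        rw [this]
        exact hq ⟨k, hk⟩
      · rw [emb_fix q k (not_lt.1 hk)]
    have hcard := card_eq μ
    have hfix : ∀ k, μ.card ≤ k → emb n q k = k := by
      intro k hk
      have h1 := hq' k
      have h2 : ¬ k < mm μ := by omega
      rw [col0_high μ h2] at h1
      by_cases h3 : emb n q k < mm μ
      · have h4 := col0_low μ h3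
        omega
      · rw [col0_high μ h3] at h1
        omega
    obtain ⟨q', hq''⟩ := exists_emb hfix
    refine ⟨q', ?_, ?_⟩
    · simp only [CL, Finset.mem_filter, Finset.mem_univ, true_and]
      intro k
      rw [← emb_val, hq'']
      exact hq' k
    · apply emb_inj n
      rw [emb_extRN, hq'']
  · intro q _
    rw [sign_extRN, emb_extRN]

end tableau

section final

variable {K : Type*} [Field K] {V : Type*} [AddCommGroup V] [Module K V]

/-- coefficients -/
def aμ (K : Type*) [Field K] (μ : YoungDiagram) (x : RL μ × CL μ) : K :=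
  ((Equiv.Perm.sign (x.2 : Equiv.Perm (Fin μ.card)) : ℤ) : K)

/-- group elements -/
def τμ (μ : YoungDiagram) (x : RL μ × CL μ) : Equiv.Perm ℕ :=
  (x.1 : Equiv.Perm ℕ) * emb μ.card x.2

theorem τμ_fix (μ : YoungDiagram) (x : RL μ × CL μ) (k : ℕ) (hk : μ.card ≤ k) :
    τμ μ x k = k := by
  have h1 : (x.1 : Equiv.Perm ℕ) ∈ RL μ := x.1.2
  simp only [RL, Finset.mem_filter, mem_Gfin] at h1
  rw [τμ, Equiv.Perm.mul_apply, emb_fix _ k hk, h1.1.2 k]
  have := card_eq μ
  omega

theorem ys_apply (ρ : Representation K (Equiv.Perm ℕ) V) (μ : YoungDiagram) {n : ℕ}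
    (hn : μ.card ≤ n) (v : V) :
    (res ρ n).asAlgebraHom (youngSymmetrizer K (t0 μ hn)) v =
      cc ρ (mm μ) n (aμ K μ) (τμ μ) v := by
  classical
  set w : V := ∑ q ∈ colGroup (t0 μ hn), ((Equiv.Perm.sign q : ℤ) : K) • ρ (emb n q) v with hw
  have h1 : (res ρ n).asAlgebraHom (youngSymmetrizer K (t0 μ hn)) v =
      ∑ p ∈ rowGroup (t0 μ hn), ρ (emb n p) w := by
    rw [youngSymmetrizer, map_mul, map_sum, map_sum, Module.End.mul_apply]
    simp only [LinearMap.sum_apply, Representation.asAlgebraHom_single, LinearMap.smul_apply,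
      one_smul, res_apply]
    rfl
  rw [h1, sum_row μ hn (fun p => ρ p w), cc_apply]
  refine Finset.sum_congr rfl fun g _ => ?_
  have h2 : w = ∑ q ∈ CL μ, ((Equiv.Perm.sign q : ℤ) : K) • ρ (emb μ.card q) v := by
    rw [hw]
    exact sum_col μ hn (fun s p => ((s : ℤ) : K) • ρ p v)
  have h3 : ∀ r : Equiv.Perm ℕ, ρ (g * r) w = ρ g (ρ r w) := fun r => by rw [map_mul]; rfl
  simp only [h3]
  rw [← map_sum]
  congr 1
  rw [h2]
  simp only [map_sum, map_smul]
  rw [Fintype.sum_prod_type, ← Finset.sum_coe_sort (RL μ)]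
  refine Finset.sum_congr rfl fun r _ => ?_
  rw [← Finset.sum_coe_sort (CL μ)]
  refine Finset.sum_congr rfl fun q _ => ?_
  rw [aμ, τμ, map_mul]
  rfl

theorem mult_eq [CharZero K] (I : HomSymIdeal K) (μ : YoungDiagram) {n : ℕ} (hn : μ.card ≤ n)
    (d : ℕ) (t : Fin n ≃ (pad μ n).cells) :
    I.mult n d t = FF I.ideal (permInv_of I) (mm μ) (aμ K μ) (τμ μ) n d := by
  rw [HomSymIdeal.mult, specht, finrank_hom, finrank_transfer, finrank_change
    (res (ρQ I.ideal (permInv_of I)) n) _ ?_ t (t0 μ hn), FF]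
  · have h : (res (ρQ I.ideal (permInv_of I)) n).asAlgebraHom (youngSymmetrizer K (t0 μ hn)) =
        cc (ρQ I.ideal (permInv_of I)) (mm μ) n (aμ K μ) (τμ μ) :=
      LinearMap.ext fun v => ys_apply _ μ hn v
    rw [h]
  · rintro σ _ ⟨f, hf, rfl⟩
    rw [qm_apply, res_apply, ρQ_mk]
    exact ⟨_, An_ρ (emb_fix σ) hf, rfl⟩

end final

end MP7f
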