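import Pool.Agent.W_MP_7f6900_al.Coinv

open MvPolynomial

namespace MP7f

variable {K N : Type*} [Field K] [AddCommGroup N] [Module K N] [Module (MvPolynomial ℕ K) N]

/-- nice modules -/
structure NiceData (ρ : Representation K (Equiv.Perm ℕ) N) (D : ℕ)
    (c : Fin D → N →ₗ[MvPolynomial ℕ K] N) (Nd : ℕ → Submodule K N) : Prop where
  c_ρ : ∀ i σ n, ρ σ (c i n) = c i (ρ σ n)
  c_comm : ∀ i j n, c i (c j n) = c j (c i n)
  rel : ∀ k n, (X k : MvPolynomial ℕ K) ^ D • n +
    ∑ i : Fin D, (X k : MvPolynomial ℕ K) ^ (i : ℕ) • c i n = 0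
  c_deg : ∀ (i : Fin D) (d : ℕ) (n : N), n ∈ Nd d → c i n ∈ Nd (d + (D - i))
  X_deg : ∀ k d n, n ∈ Nd d → (X k : MvPolynomial ℕ K) • n ∈ Nd (d + 1)

theorem X_pow_deg {Nd : ℕ → Submodule K N}
    (h : ∀ k d n, n ∈ Nd d → (X k : MvPolynomial ℕ K) • n ∈ Nd (d + 1)) (k i d : ℕ) (n : N)
    (hn : n ∈ Nd d) : (X k : MvPolynomial ℕ K) ^ i • n ∈ Nd (d + i) := by
  induction i with
  | zero => simpa using hn
  | succ i ih =>
    rw [pow_succ', mul_smul]
    exact h k _ _ ih

theorem vars_X_pow (k i : ℕ) : ((X k : MvPolynomial ℕ K) ^ i).vars ⊆ {k} := by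
  refine (vars_pow _ _).trans ?_
  rw [vars_X]

/-- the induced operator on coinvariants -/
noncomputable def cbar [IsScalarTower K (MvPolynomial ℕ K) N]
    (ρ : Representation K (Equiv.Perm ℕ) N) (m : ℕ)
    (c : N →ₗ[MvPolynomial ℕ K] N) (hc : ∀ σ n, ρ σ (c n) = c (ρ σ n)) :
    (N ⧸ Cm ρ m) →ₗ[K] (N ⧸ Cm ρ m) :=
  (Cm ρ m).mapQ (Cm ρ m) (c.restrictScalars K) (by
    refine Submodule.span_le.2 ?_
    rintro _ ⟨σ, n, hσ, rfl⟩
    apply Submodule.subset_span
    exact ⟨σ, c n, hσ, by simp [hc]⟩)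

theorem cbar_mk [IsScalarTower K (MvPolynomial ℕ K) N]
    (ρ : Representation K (Equiv.Perm ℕ) N) (m : ℕ)
    (c : N →ₗ[MvPolynomial ℕ K] N) (hc : ∀ σ n, ρ σ (c n) = c (ρ σ n)) (n : N) :
    cbar ρ m c hc ((Cm ρ m).mkQ n) = (Cm ρ m).mkQ (c n) := rfl

theorem monomial_split (β : ℕ →₀ ℕ) (j e : ℕ) (he : e ≤ β j) :
    (monomial β (1 : K)) = (X j : MvPolynomial ℕ K) ^ e *
      monomial (β - Finsupp.single j e) 1 := by
  rw [X_pow_eq_monomial, monomial_mul, one_mul]
  congr 1
  rw [add_tsub_cancel_of_le]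
  rwa [Finsupp.single_le_iff]

theorem degree_split (β : ℕ →₀ ℕ) (j e : ℕ) (he : e ≤ β j) :
    (β - Finsupp.single j e).degree + e = β.degree := by
  have h : (β - Finsupp.single j e) + Finsupp.single j e = β := by
    rw [tsub_add_cancel_of_le]
    rwa [Finsupp.single_le_iff]
  conv_rhs => rw [← h]
  rw [map_add, Finsupp.degree_single]

theorem thmA [IsScalarTower K (MvPolynomial ℕ K) N]
    {ρ : Representation K (Equiv.Perm ℕ) N} (hE : EqM ρ) {D : ℕ}
    {c : Fin D → N →ₗ[MvPolynomial ℕ K] N} {Nd : ℕ → Submodule K N} (hnice : NiceData ρ D c Nd)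
    {G : Type*} [Finite G] (g : G → N) (δ : G → ℕ) (Tb : ℕ)
    (hg : ∀ s, Sp ρ (g s) (Finset.range Tb))
    (hgen : ∀ d, Nd d ≤ Submodule.span K {n | ∃ (β : ℕ →₀ ℕ) (σ : Equiv.Perm ℕ) (s : G),
      β.degree + δ s = d ∧ n = monomial β (1 : K) • ρ σ (g s)})
    (m : ℕ) (Θ : N →ₗ[K] N) (R : ℕ)
    (hΘc : ∀ i n, Θ (c i n) = c i (Θ n))
    (hΘX : ∀ k, R ≤ k → ∀ i n, Θ ((X k : MvPolynomial ℕ K) ^ i • n) =
      (X k : MvPolynomial ℕ K) ^ i • Θ n)
    (hΘSp : ∀ n S, Sp ρ n S → Sp ρ (Θ n) (S ∪ Finset.range R))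
    (hΘd : ∀ d n, n ∈ Nd d → Θ n ∈ Nd d) :
    (∀ d, FiniteDimensional K ((Nd d).map ((Cm ρ m).mkQ ∘ₗ Θ))) ∧
    IsRat (PowerSeries.mk fun d => (Module.finrank K ((Nd d).map ((Cm ρ m).mkQ ∘ₗ Θ)) : ℚ)) := by
  classical
  choose p hp using fun i => exists_p (ρ := ρ) hE m i
  -- the operators
  let T : Fin D ⊕ Fin D → (N ⧸ Cm ρ m) →ₗ[K] (N ⧸ Cm ρ m) :=
    Sum.elim (fun i => cbar ρ m (c i) (hnice.c_ρ i)) (fun i => p (i + 1))
  let w : Fin D ⊕ Fin D → ℕ := Sum.elim (fun i => D - i) (fun i => i + 1)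
  have hw : ∀ i, 0 < w i := by
    rintro (i | i)
    · simp only [w, Sum.elim_inl]; omega
    · simp [w]
  have hSpX : ∀ (n : N) (S : Finset ℕ) (k i : ℕ), Sp ρ n S →
      Sp ρ ((X k : MvPolynomial ℕ K) ^ i • n) (insert k S) := fun n S k i h =>
    h.smul hE _ ((vars_X_pow k i).trans (by simp)) (by simp)
  have hSpc : ∀ i (n : N) (S : Finset ℕ), Sp ρ n S → Sp ρ (c i n) S := by
    intro i n S h σ hσ
    rw [hnice.c_ρ, h σ hσ]
  have hTcp : ∀ (i j : Fin D) (v : N ⧸ Cm ρ m), T (Sum.inl i) (T (Sum.inr j) v) =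
      T (Sum.inr j) (T (Sum.inl i) v) := by
    intro i j v
    obtain ⟨n, rfl⟩ := (Cm ρ m).mkQ_surjective v
    obtain ⟨S, hS⟩ := hE.smooth n
    obtain ⟨k, hk, hm⟩ := exists_new m S
    simp only [T, Sum.elim_inl, Sum.elim_inr]
    rw [hp _ n S k hS hk hm, cbar_mk, cbar_mk, hp _ (c i n) S k (hSpc i n S hS) hk hm, map_smul]
  have hTpp : ∀ (i j : Fin D) (v : N ⧸ Cm ρ m), T (Sum.inr i) (T (Sum.inr j) v) =
      T (Sum.inr j) (T (Sum.inr i) v) := by
    intro i j v
    obtain ⟨n, rfl⟩ := (Cm ρ m).mkQ_surjective v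
    obtain ⟨S, hS⟩ := hE.smooth n
    obtain ⟨k, hk, hm⟩ := exists_new m S
    obtain ⟨k', hk', hm'⟩ := exists_new m (insert k S)
    rw [Finset.mem_insert, not_or] at hk'
    simp only [T, Sum.elim_inr]
    rw [hp _ n S k hS hk hm, hp _ _ (insert k S) k' (hSpX _ _ _ _ hS) (by simp [hk']) hm',
      hp _ n S k' hS hk'.2 hm', hp _ _ (insert k' S) k (hSpX _ _ _ _ hS)
        (by simp [hk, Ne.symm hk'.1]) hm, smul_comm]
  have hT : ∀ i j v, T i (T j v) = T j (T i v) := by
    rintro (i | i) (j | j) v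
    · obtain ⟨n, rfl⟩ := (Cm ρ m).mkQ_surjective v
      simp only [T, Sum.elim_inl]
      rw [cbar_mk, cbar_mk, cbar_mk, cbar_mk, hnice.c_comm]
    · exact hTcp i j v
    · exact (hTcp j i v).symm
    · exact hTpp i j v
  -- extension of embeddings
  have hext : ∀ e : Fin Tb ↪ Fin (m + Tb), ∃ τ : Equiv.Perm ℕ, ∀ i : Fin Tb, τ i = e i := by
    intro e
    obtain ⟨τ, hτ⟩ := extend_perm' (Finset.range Tb)
      (fun a => if h : a < Tb then (e ⟨a, h⟩ : ℕ) else 0) (by
        intro a ha b hb hab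
        simp only [Finset.coe_range, Set.mem_Iio] at ha hb
        simp only [ha, hb, dif_pos] at hab
        have := e.injective (Fin.ext hab)
        exact Fin.mk.inj_iff.1 this)
    refine ⟨τ, fun i => ?_⟩
    rw [hτ i (by simp)]
    simp
  choose τ hτ using hext
  -- the generators
  let ex : (Fin (m + Tb) → Fin D) → (ℕ →₀ ℕ) := fun a =>
    ∑ i : Fin (m + Tb), Finsupp.single (i : ℕ) (a i : ℕ)
  let γ : G × (Fin (m + Tb) → Fin D) × (Fin Tb ↪ Fin (m + Tb)) → (N ⧸ Cm ρ m) := fun s =>
    (Cm ρ m).mkQ (monomial (ex s.2.1) (1 : K) • ρ (τ s.2.2) (g s.1))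
  let δ' : G × (Fin (m + Tb) → Fin D) × (Fin Tb ↪ Fin (m + Tb)) → ℕ := fun s =>
    (ex s.2.1).degree + δ s.1
  have hfinemb : Finite (Fin Tb ↪ Fin (m + Tb)) := inferInstance
  obtain ⟨Md, hM1, hM2, hM3, hM4⟩ := HS' w hw T hT γ δ'
  -- the main claim
  have claim : ∀ (r : ℕ) (β : ℕ →₀ ℕ), β.degree = r → ∀ (σ : Equiv.Perm ℕ) (s : G),
      (Cm ρ m).mkQ (monomial β (1 : K) • ρ σ (g s)) ∈ Md (β.degree + δ s) := by
    intro r
    induction r using Nat.strong_induction_on with
    | _ r ih =>
    intro β hβ σ s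
    by_cases h1 : ∃ j, D ≤ β j
    · -- reduce by the relation
      obtain ⟨j, hj⟩ := h1
      rw [monomial_split β j D hj, mul_smul]
      have h2 := hnice.rel j (monomial (β - Finsupp.single j D) (1 : K) • ρ σ (g s))
      rw [add_eq_zero_iff_eq_neg] at h2
      rw [h2, map_neg, map_sum]
      apply Submodule.neg_mem
      apply Submodule.sum_mem
      intro i _
      rw [← map_smul, ← cbar_mk ρ m (c i) (hnice.c_ρ i), smul_smul, X_pow_eq_monomial,
        monomial_mul, one_mul]
      have h3 : (Finsupp.single j (i : ℕ) + (β - Finsupp.single j D)).degree + (D - i) =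
          β.degree := by
        rw [map_add, Finsupp.degree_single]
        have := degree_split β j D hj
        have := i.2
        omega
      have h4 := ih _ (by
        rw [← hβ, ← h3]
        have := i.2
        omega) (Finsupp.single j (i : ℕ) + (β - Finsupp.single j D)) rfl σ s
      have h5 := hM2 (Sum.inl i) _ (Submodule.mem_map_of_mem h4)
      simp only [T, w, Sum.elim_inl] at h5
      have h6 : (Finsupp.single j (i : ℕ) + (β - Finsupp.single j D)).degree + δ s + (D - i) =
          β.degree + δ s := by omega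
      rwa [h6] at h5
    · push Not at h1
      by_cases h2 : ∃ j, β j ≠ 0 ∧ m ≤ j ∧ j ∉ (Finset.range Tb).image σ
      · obtain ⟨j, hj0, hjm, hjS⟩ := h2
        rw [monomial_split β j (β j) le_rfl, mul_smul]
        have hSp : Sp ρ (monomial (β - Finsupp.single j (β j)) (1 : K) • ρ σ (g s))
            ((β - Finsupp.single j (β j)).support ∪ (Finset.range Tb).image σ) := by
          refine ((hg s).ren σ).smul hE _ ?_ Finset.subset_union_right
          rw [vars_monomial one_ne_zero]
          exact Finset.subset_union_left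
        have hjn : j ∉ (β - Finsupp.single j (β j)).support ∪ (Finset.range Tb).image σ := by
          rw [Finset.mem_union, not_or]
          exact ⟨by simp, hjS⟩
        rw [← hp (β j) _ _ j hSp hjn hjm]
        have h3 := degree_split β j (β j) le_rfl
        have h4 := ih _ (by
          rw [← hβ, ← h3]
          omega) (β - Finsupp.single j (β j)) rfl σ s
        have h5 := hM2 (Sum.inr ⟨β j - 1, by have := h1 j; omega⟩) _
          (Submodule.mem_map_of_mem h4)
        simp only [T, w, Sum.elim_inr] at h5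
        have h6 : β j - 1 + 1 = β j := by omega
        rw [h6] at h5
        have h7 : (β - Finsupp.single j (β j)).degree + δ s + β j = β.degree + δ s := by omega
        rwa [h7] at h5
      · push Not at h2
        -- normalise
        set S := (Finset.range Tb).image σ with hS
        have hcard : S.card ≤ Tb := by
          refine Finset.card_image_le.trans ?_
          simp
        obtain ⟨κ, hκ1, -, hκ2⟩ := exists_move m Tb (m + Tb + (S.sup id + 1)) (by omega) _ S
          (by
            intro j hj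
            have := Finset.le_sup (f := id) hj
            simp only [id] at this
            omega) ((Finset.card_filter_le _ _).trans hcard) rfl
        rw [← mk_ρ hκ1, hE.smul, rename_monomial, ← ρ_mul]
        have hsupp : ∀ j, β j ≠ 0 → κ j < m + Tb := by
          intro j hj
          by_cases hjm : m ≤ j
          · exact hκ2 j (h2 j hj hjm)
          · rw [hκ1 j (by omega)]; omega
        have hsupp' : ∀ j, (β.mapDomain κ) j ≠ 0 → j < m + Tb := by
          intro j hj
          have h3 := hsupp (κ.symm j) (by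
            rw [← κ.apply_symm_apply j, Finsupp.mapDomain_apply κ.injective] at hj
            exact hj)
          simpa using h3
        have hlt : ∀ j, (β.mapDomain κ) j < D := by
          intro j
          rw [← κ.apply_symm_apply j, Finsupp.mapDomain_apply κ.injective]
          exact h1 _
        let a : Fin (m + Tb) → Fin D := fun i => ⟨(β.mapDomain κ) i, hlt i⟩
        have hex : ex a = β.mapDomain κ := by
          ext j
          simp only [ex, a, Finsupp.coe_finsetSum, Finset.sum_apply]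
          by_cases hj : j < m + Tb
          · rw [Finset.sum_eq_single (⟨j, hj⟩ : Fin (m + Tb))]
            · simp
            · intro b _ hb
              rw [Finsupp.single_apply, if_neg]
              intro h
              exact hb (Fin.ext h)
            · simp
          · rw [Finset.sum_eq_zero]
            · by_contra hcon
              exact hj (hsupp' j (fun h => hcon h.symm))
            · intro b _
              rw [Finsupp.single_apply, if_neg]
              have := b.2
              omega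
        have hmem : ∀ i : Fin Tb, (κ * σ) i < m + Tb := by
          intro i
          rw [Equiv.Perm.mul_apply]
          exact hκ2 _ (Finset.mem_image_of_mem σ (by simp))
        let e : Fin Tb ↪ Fin (m + Tb) :=
          ⟨fun i => ⟨(κ * σ) i, hmem i⟩, by
            intro i i' h
            have := Fin.mk.inj_iff.1 h
            exact Fin.ext ((κ * σ).injective this)⟩
        have hρe : ρ (κ * σ) (g s) = ρ (τ e) (g s) := by
          have h3 : ρ ((τ e)⁻¹ * (κ * σ)) (g s) = g s := by
            apply hg s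
            intro j hj
            rw [Finset.mem_range] at hj
            rw [Equiv.Perm.mul_apply, Equiv.Perm.inv_eq_iff_eq]
            exact (hτ e ⟨j, hj⟩).symm
          rw [ρ_mul] at h3
          rw [← ρ_inv' (ρ := ρ) (τ e) (ρ (κ * σ) (g s)), h3]
        have h3 := hM1 (s, a, e)
        simp only [γ, δ', hex] at h3
        rw [hρe]
        have h4 : (β.mapDomain κ).degree = β.degree := by
          rw [Finsupp.degree_mapDomain]
        rwa [h4] at h3
  have hle : ∀ d, (Nd d).map (Cm ρ m).mkQ ≤ Md d := by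
    intro d
    refine (Submodule.map_mono (hgen d)).trans ?_
    rw [Submodule.map_span, Submodule.span_le]
    rintro _ ⟨_, ⟨β, σ, s, hd, rfl⟩, rfl⟩
    rw [← hd]
    exact claim _ β rfl σ s
  have hle' : ∀ d, (Nd d).map ((Cm ρ m).mkQ ∘ₗ Θ) ≤ Md d := by
    intro d
    refine le_trans ?_ (hle d)
    rw [Submodule.map_comp]
    apply Submodule.map_mono
    rintro _ ⟨n, hn, rfl⟩
    exact hΘd d n hn
  constructor
  · intro d
    have := hM3 d
    exact Submodule.finiteDimensional_of_le (hle' d)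
  · apply hM4 _ hle'
    rintro (i | i) d
    · rintro _ ⟨_, ⟨n, hn, rfl⟩, rfl⟩
      simp only [T, w, Sum.elim_inl, LinearMap.comp_apply]
      rw [cbar_mk, ← hΘc]
      exact ⟨c i n, hnice.c_deg i d n hn, rfl⟩
    · rintro _ ⟨_, ⟨n, hn, rfl⟩, rfl⟩
      simp only [T, w, Sum.elim_inr, LinearMap.comp_apply]
      obtain ⟨S, hS⟩ := hE.smooth n
      obtain ⟨k, hk, hm⟩ := exists_new m (S ∪ Finset.range R)
      rw [hp _ (Θ n) (S ∪ Finset.range R) k (hΘSp n S hS) hk hm, ← hΘX k (by
        rw [Finset.mem_union, not_or, Finset.mem_range] at hk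
        omega)]
      exact ⟨(X k : MvPolynomial ℕ K) ^ ((i : ℕ) + 1) • n,
        X_pow_deg hnice.X_deg k _ _ _ hn, rfl⟩

end MP7f
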